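import Mathlib
import Pool.Agent.Y947.RL2.All2
import Pool.Agent.Y947.RL2.Alg
import Pool.Agent.Y433.RL.Hgt
import Pool.Agent.Y858.RL.Rep
import Pool.Agent.Y235.RL.Cnj
import Pool.Agent.Y932.RL.Tow

/-!
# A polynomial lower bound for the height over `K(μ_∞)` in terms of the degree
-/

set_option autoImplicit false

open Finset Polynomial Module

namespace Pool.Agent.V1156.RK

open Pool.Agent.Y947.RL (QAb sp mpc meanP hgt)

lemma mpc_le {P : ℂ[X]} (hP : P.Monic) :
    mpc P ≤ P.natDegree * Real.log 2 + Real.log P.mahlerMeasure := by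
  have hM : Real.log P.mahlerMeasure = (P.roots.map fun y => Real.posLog ‖y‖).sum := by
    rw [mahlerMeasure_eq_leadingCoeff_mul_prod_roots, hP.leadingCoeff, norm_one, one_mul]
    have key : ∀ s : Multiset ℂ, Real.log (s.map fun a => max 1 ‖a‖).prod =
        (s.map fun y => Real.posLog ‖y‖).sum := by
      intro s
      induction s using Multiset.induction_on with
      | empty => simp
      | cons a s ih =>
        rw [Multiset.map_cons, Multiset.prod_cons, Multiset.map_cons, Multiset.sum_cons,
          Real.log_mul, ih, Real.posLog_eq_log_max_one (norm_nonneg a)]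
        · exact (lt_of_lt_of_le one_pos (le_max_left _ _)).ne'
        · apply ne_of_gt
          apply Multiset.prod_pos
          intro b hb
          obtain ⟨c, -, rfl⟩ := Multiset.mem_map.mp hb
          exact lt_of_lt_of_le one_pos (le_max_left _ _)
    exact key _
  have hcard : P.roots.card = P.natDegree := (IsAlgClosed.splits P).natDegree_eq_card_roots.symm
  have hpt : ∀ x ∈ Metric.sphere (0:ℂ) |1|, Real.posLog ‖P.eval x‖ ≤
      P.natDegree * Real.log 2 + Real.log P.mahlerMeasure := by
    intro x hx
    have hx1 : ‖x‖ = 1 := by simpa using hx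
    rw [hM, ← hcard]
    have he : P.eval x = (P.roots.map fun a => x - a).prod := by
      conv_lhs => rw [(IsAlgClosed.splits P).eq_prod_roots_of_monic hP]
      rw [eval_multiset_prod, Multiset.map_map]
      congr 1
      apply Multiset.map_congr rfl
      intro a _
      simp
    rw [he]
    have key : ∀ s : Multiset ℂ, Real.posLog ‖(s.map fun a => x - a).prod‖ ≤
        s.card * Real.log 2 + (s.map fun y => Real.posLog ‖y‖).sum := by
      intro s
      induction s using Multiset.induction_on with
      | empty => simp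
      | cons a s ih =>
        rw [Multiset.map_cons, Multiset.prod_cons, norm_mul, Multiset.card_cons, Multiset.map_cons,
          Multiset.sum_cons]
        have h1 : Real.posLog ‖x - a‖ ≤ Real.log 2 + Real.posLog ‖a‖ := by
          have h2 : ‖x - a‖ ≤ 2 * max 1 ‖a‖ := by
            have h3 := norm_sub_le x a
            rw [hx1] at h3
            have h4 := le_max_left 1 ‖a‖
            have h5 := le_max_right 1 ‖a‖
            linarith
          have h6 : (1:ℝ) ≤ 2 * max 1 ‖a‖ := by
            have h4 := le_max_left 1 ‖a‖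
            linarith
          rw [Real.posLog_eq_log_max_one (norm_nonneg _), Real.posLog_eq_log_max_one (norm_nonneg a),
            ← Real.log_mul (by norm_num) (by positivity)]
          exact Real.log_le_log (by positivity) (max_le h6 h2)
        have h2 := Real.posLog_mul (x := ‖x - a‖) (y := ‖(s.map fun a => x - a).prod‖)
        push_cast
        linarith
    exact key _
  unfold mpc
  apply Real.circleAverage_mono_on_of_le_circle _ hpt
  apply ContinuousOn.circleIntegrable'
  exact (Real.continuous_posLog.comp (continuous_norm.comp P.continuous)).continuousOn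

/-- **a polynomial bound over `K(μ_∞)`** -/
theorem ab_dob : ∃ c : ℝ, 0 < c ∧ ∀ z : ℂ, IsIntegral ℤ z → z ≠ 0 →
    (∀ n : ℕ, 0 < n → z ^ n ≠ 1) → ∀ (K : IntermediateField ℚ ℂ) [FiniteDimensional ℚ K],
      c / ((finrank ℚ K : ℝ) * (minpoly (K ⊔ QAb : IntermediateField ℚ ℂ) z).natDegree) ^ 7 ≤
        hgt z := by
  obtain ⟨c, hc, h⟩ := Y947.RL2.alg Y947.RL2.t_fin (Y433.RL.hgt_mean Y65.RL.tr) Y858.RL.rep
    Y235.RL.Cnj.cnj (fun K _ z hz => Y932.RL.Tow.tow K z hz)
  refine ⟨min (c / 729) 1, lt_min (by positivity) one_pos, ?_⟩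
  intro z hz h0 hroot K _
  obtain ⟨⟨m, ω₀, F, hm, hω₀, hF, heq⟩, h2⟩ := h z hz h0 hroot
  have h3 := h2 m ω₀ F hm hω₀ hF heq K
  set F' : IntermediateField ℚ ℂ := K ⊔ QAb with hF'
  have hK1 : (1:ℝ) ≤ finrank ℚ K := by exact_mod_cast (finrank_pos : 0 < finrank ℚ K)
  have hzi : IsIntegral F' z := hz.tower_top
  have hD0 : 0 < (minpoly F' z).natDegree := minpoly.natDegree_pos hzi
  have hD1 : (1:ℝ) ≤ (minpoly F' z).natDegree := by exact_mod_cast hD0
  set nK : ℝ := (finrank ℚ K : ℝ) with hnK
  set D : ℝ := ((minpoly F' z).natDegree : ℝ) with hD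
  have hND : 1 ≤ nK * D := by nlinarith
  rcases le_or_gt 1 (hgt z) with hbig | hsmall
  · calc min (c / 729) 1 / (nK * D) ^ 7 ≤ 1 / 1 := by
          gcongr
          · exact min_le_right _ _
          · exact one_le_pow₀ hND
      _ ≤ hgt z := by rw [div_one]; exact hbig
  -- the mean
  have hyp := Y235.RL.Cnj.cnj z hz h0 hroot m ω₀ F hm hω₀ hF heq
  have hω : IsPrimitiveRoot (ω₀ : ℂ) m :=
    hω₀.map_of_injective (f := algebraMap QAb ℂ) (algebraMap QAb ℂ).injective
  have hzero : (sp (ω₀ : ℂ) F).eval z = 0 := by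
    have h1 : sp (ω₀ : ℂ) F = (minpoly QAb z).map (algebraMap QAb ℂ) := by
      rw [← heq, Y947.RL2.sp_map']
      rfl
    rw [h1, eval_map_algebraMap, minpoly.aeval]
  have hdeg : F.natDegree = (minpoly QAb z).natDegree := by
    rw [← heq]
    unfold sp
    rw [hF.natDegree_map]
  have hmean := Y433.RL.hgt_mean Y65.RL.tr m F hyp ω₀ hω z hzero
  have hφ : (0:ℝ) < Nat.totient m := by exact_mod_cast Nat.totient_pos.mpr hm
  set M : ℝ := meanP m (fun ω => mpc (sp ω F)) with hM
  have hM1 : M ≤ F.natDegree * Real.log 2 + F.natDegree * hgt z := by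
    rw [← hmean, hM]
    unfold meanP
    rw [div_le_iff₀ hφ, add_mul, div_mul_cancel₀ _ hφ.ne']
    have hcard : ((primitiveRoots m ℂ).card : ℝ) = Nat.totient m := by
      rw [Complex.card_primitiveRoots]
    calc ∑ ω ∈ primitiveRoots m ℂ, mpc (sp ω F)
        ≤ ∑ ω ∈ primitiveRoots m ℂ, (F.natDegree * Real.log 2 + Real.log (sp ω F).mahlerMeasure) := by
          refine Finset.sum_le_sum fun ω _ => ?_
          have hmon : (sp ω F).Monic := by
            unfold sp
            exact hF.map _
          have h4 := mpc_le hmon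
          have h5 : (sp ω F).natDegree = F.natDegree := by
            unfold sp
            rw [hF.natDegree_map]
          rwa [h5] at h4
      _ = _ := by
          rw [Finset.sum_add_distrib, Finset.sum_const, nsmul_eq_mul, hcard]
          ring
  have hM0 : 0 ≤ M := by
    rw [hM]
    unfold meanP
    apply div_nonneg _ (Nat.cast_nonneg _)
    apply Finset.sum_nonneg
    intro ω _
    unfold mpc
    exact Real.circleAverage_nonneg_of_nonneg fun _ _ => Real.posLog_nonneg
  have htow : (F.natDegree : ℝ) ≤ nK * D := by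
    rw [hdeg]
    have h7 := Y932.RL.Tow.tow K z (hz.tower_top (A := ℚ)).isAlgebraic
    rw [hnK, hD]
    exact_mod_cast h7
  have hlog2 : Real.log 2 ≤ 1 := by
    have := Real.log_two_lt_d9
    linarith
  have hFn : (0:ℝ) ≤ F.natDegree := Nat.cast_nonneg _
  have hM2 : 1 + M ≤ 3 * (nK * D) := by nlinarith
  have h4 : c / nK / (3 * (nK * D)) ^ 6 ≤ D * hgt z := by
    refine le_trans ?_ h3
    gcongr
  have h5 : c / 729 / (nK * D) ^ 7 ≤ hgt z := by
    have h6 : c / nK / (3 * (nK * D)) ^ 6 = D * (c / 729 / (nK * D) ^ 7) := by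
      field_simp
      ring
    rw [h6] at h4
    exact le_of_mul_le_mul_left h4 (by linarith)
  refine le_trans ?_ h5
  gcongr
  exact min_le_left _ _

end Pool.Agent.V1156.RK
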