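import Mathlib

/-!
# Gram matrix of a complex space of relations between numbers of small logarithmic size
-/

set_option autoImplicit false

open Finset Module

namespace Pool.Agent.V1156.RK

/-- an orthonormal basis of a space of complex vectors, in coordinates -/
lemma exists_orthonormal {ι : Type} [Fintype ι] (V : Submodule ℂ (EuclideanSpace ℂ ι)) :
    ∃ c : Fin (finrank ℂ V) → ι → ℂ,
      (∀ t, WithLp.toLp 2 (c t) ∈ V) ∧
      (∀ t t', ∑ j, c t j * starRingEnd ℂ (c t' j) = if t = t' then 1 else 0) ∧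
      ∀ x : ι → ℂ, ∑ t, ‖∑ j, c t j * x j‖ ^ 2 ≤ ∑ j, ‖x j‖ ^ 2 := by
  classical
  let b := stdOrthonormalBasis ℂ V
  refine ⟨fun t j => (b t : EuclideanSpace ℂ ι) j, fun t => (b t).2, ?_, ?_⟩
  · intro t t'
    have h := (orthonormal_iff_ite.mp b.orthonormal) t' t
    rw [Submodule.coe_inner, PiLp.inner_apply] at h
    have h2 : (if t = t' then (1:ℂ) else 0) = if t' = t then 1 else 0 := by
      by_cases h3 : t = t'
      · rw [if_pos h3, if_pos h3.symm]
      · rw [if_neg h3, if_neg (fun h4 => h3 h4.symm)]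
    rw [h2, ← h]
    refine Finset.sum_congr rfl fun j _ => ?_
    simp
  · intro x
    have hon : Orthonormal ℂ (fun t => (b t : EuclideanSpace ℂ ι)) :=
      b.orthonormal.comp_linearIsometry V.subtypeₗᵢ
    have h := hon.sum_inner_products_le (s := Finset.univ)
      (x := (WithLp.toLp 2 (fun j => starRingEnd ℂ (x j)) : EuclideanSpace ℂ ι))
    rw [EuclideanSpace.norm_sq_eq] at h
    refine le_trans (le_of_eq (Finset.sum_congr rfl fun t _ => ?_)) (h.trans (le_of_eq ?_))
    · rw [PiLp.inner_apply]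
      congr 1
      rw [← RCLike.norm_conj, map_sum]
      congr 1
      refine Finset.sum_congr rfl fun j _ => ?_
      simp [mul_comm]
    · refine Finset.sum_congr rfl fun j _ => ?_
      simp

/-- the trace of the projection -/
lemma proj_trace {ι : Type} [Fintype ι] {m : ℕ} (c : Fin m → ι → ℂ)
    (hc : ∀ t t', ∑ j, c t j * starRingEnd ℂ (c t' j) = if t = t' then 1 else 0) :
    ∑ j, ∑ t, c t j * starRingEnd ℂ (c t j) = m := by
  rw [Finset.sum_comm]
  simp only [hc]
  simp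

/-- the Hilbert-Schmidt norm of the projection -/
lemma proj_hs {ι : Type} [Fintype ι] {m : ℕ} (c : Fin m → ι → ℂ)
    (hc : ∀ t t', ∑ j, c t j * starRingEnd ℂ (c t' j) = if t = t' then 1 else 0) :
    ∑ j, ∑ l, ‖∑ t, c t j * starRingEnd ℂ (c t l)‖ ^ 2 = m := by
  have h1 : ∀ j l, ((‖∑ t, c t j * starRingEnd ℂ (c t l)‖ ^ 2 : ℝ) : ℂ) =
      ∑ t, ∑ t', (c t j * starRingEnd ℂ (c t' j)) *
        starRingEnd ℂ (c t l * starRingEnd ℂ (c t' l)) := by
    intro j l
    rw [← Complex.normSq_eq_norm_sq, ← Complex.mul_conj, map_sum, Finset.sum_mul_sum]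
    refine Finset.sum_congr rfl fun t _ => Finset.sum_congr rfl fun t' _ => ?_
    simp only [map_mul, Complex.conj_conj]
    ring
  have h2 : ((∑ j, ∑ l, ‖∑ t, c t j * starRingEnd ℂ (c t l)‖ ^ 2 : ℝ) : ℂ) = m := by
    push_cast
    calc ∑ j, ∑ l, ((‖∑ t, c t j * starRingEnd ℂ (c t l)‖ : ℝ) : ℂ) ^ 2
        = ∑ j, ∑ l, ∑ t, ∑ t', (c t j * starRingEnd ℂ (c t' j)) *
            starRingEnd ℂ (c t l * starRingEnd ℂ (c t' l)) := by
          refine Finset.sum_congr rfl fun j _ => Finset.sum_congr rfl fun l _ => ?_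
          rw [← h1]
          push_cast
          rfl
      _ = ∑ j, ∑ t, ∑ t', ∑ l, (c t j * starRingEnd ℂ (c t' j)) *
            starRingEnd ℂ (c t l * starRingEnd ℂ (c t' l)) := by
          refine Finset.sum_congr rfl fun j _ => ?_
          rw [Finset.sum_comm]
          refine Finset.sum_congr rfl fun t _ => Finset.sum_comm
      _ = ∑ t, ∑ t', ∑ j, ∑ l, (c t j * starRingEnd ℂ (c t' j)) *
            starRingEnd ℂ (c t l * starRingEnd ℂ (c t' l)) := by
          rw [Finset.sum_comm]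
          refine Finset.sum_congr rfl fun t _ => Finset.sum_comm
      _ = ∑ t : Fin m, ∑ t' : Fin m, (if t = t' then (1:ℂ) else 0) := by
          refine Finset.sum_congr rfl fun t _ => Finset.sum_congr rfl fun t' _ => ?_
          rw [← Finset.sum_mul_sum, ← map_sum, hc]
          split_ifs <;> simp
      _ = m := by simp
  exact_mod_cast h2

/-- pointwise bound: relations between the numbers `exp (r j) * u j` make `∑ c t j * u j` small -/
lemma pointwise {ι : Type} [Fintype ι] [Nonempty ι] {m : ℕ} (c : Fin m → ι → ℂ)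
    (hc : ∀ x : ι → ℂ, ∑ t, ‖∑ j, c t j * x j‖ ^ 2 ≤ ∑ j, ‖x j‖ ^ 2)
    (r : ι → ℝ) (u : ι → ℂ) (hu : ∀ j, ‖u j‖ = 1)
    (hrel : ∀ t, ∑ j, c t j * (((Real.exp (r j) : ℝ) : ℂ) * u j) = 0) :
    ∑ t, ‖∑ j, c t j * u j‖ ^ 2 ≤ ∑ j, ∑ l, |r j - r l| := by
  classical
  obtain ⟨m0, -, hm⟩ := Finset.exists_max_image (Finset.univ : Finset ι) r Finset.univ_nonempty
  have hm' : ∀ j, 0 ≤ r m0 - r j := fun j => sub_nonneg.mpr (hm j (Finset.mem_univ j))
  set w : ι → ℝ := fun j => 1 - Real.exp (-(r m0 - r j)) with hw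
  have e1 : ∀ t, ∑ j, c t j * u j = ∑ j, c t j * (((w j : ℝ) : ℂ) * u j) := by
    intro t
    have h1 : ∑ j, c t j * (((Real.exp (-(r m0 - r j)) : ℝ) : ℂ) * u j) = 0 := by
      have h2 : ∀ j, c t j * (((Real.exp (-(r m0 - r j)) : ℝ) : ℂ) * u j) =
          ((Real.exp (- r m0) : ℝ) : ℂ) * (c t j * (((Real.exp (r j) : ℝ) : ℂ) * u j)) := by
        intro j
        have : -(r m0 - r j) = - r m0 + r j := by ring
        rw [this, Real.exp_add]
        push_cast
        ring
      rw [Finset.sum_congr rfl (fun j _ => h2 j), ← Finset.mul_sum, hrel, mul_zero]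
    have h3 : ∑ j, c t j * (((w j : ℝ) : ℂ) * u j) =
        ∑ j, c t j * u j - ∑ j, c t j * (((Real.exp (-(r m0 - r j)) : ℝ) : ℂ) * u j) := by
      rw [← Finset.sum_sub_distrib]
      refine Finset.sum_congr rfl fun j _ => ?_
      rw [hw]
      push_cast
      ring
    rw [h3, h1, sub_zero]
  have hw0 : ∀ j, 0 ≤ w j := by
    intro j
    rw [hw]
    have : Real.exp (-(r m0 - r j)) ≤ 1 := Real.exp_le_one_iff.mpr (by linarith [hm' j])
    simp only
    linarith
  have hw1 : ∀ j, w j ≤ 1 := by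
    intro j
    rw [hw]
    have : 0 < Real.exp (-(r m0 - r j)) := Real.exp_pos _
    simp only
    linarith
  have hw2 : ∀ j, w j ≤ r m0 - r j := by
    intro j
    rw [hw]
    have := Real.add_one_le_exp (-(r m0 - r j))
    simp only
    linarith
  rw [Finset.sum_congr rfl (fun t _ => by rw [e1 t])]
  refine (hc _).trans ?_
  refine Finset.sum_le_sum fun j _ => ?_
  rw [norm_mul, hu, mul_one, Complex.norm_real, Real.norm_of_nonneg (hw0 j)]
  have h7 : (w j) ^ 2 ≤ r m0 - r j := by nlinarith [hw0 j, hw1 j, hw2 j]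
  have h8 : |r j - r m0| ≤ ∑ l, |r j - r l| :=
    Finset.single_le_sum (f := fun l => |r j - r l|) (fun l _ => abs_nonneg _) (Finset.mem_univ m0)
  have h9 : r m0 - r j ≤ |r j - r m0| := by
    rw [abs_sub_comm]; exact le_abs_self _
  linarith

/-- the Gram matrix inequality -/
lemma gram {ι : Type} [Fintype ι] [DecidableEq ι] [Nonempty ι] {S : Type*} [Fintype S]
    (V : Submodule ℂ (EuclideanSpace ℂ ι))
    (r : ι → S → ℝ) (u : ι → S → ℂ) (hu : ∀ j s, ‖u j s‖ = 1)
    (hrel : ∀ c : ι → ℂ, WithLp.toLp 2 c ∈ V → ∀ s,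
      ∑ j, c j * (((Real.exp (r j s) : ℝ) : ℂ) * u j s) = 0) :
    (finrank ℂ V : ℝ) * (Fintype.card S : ℝ) ^ 2 ≤
      ∑ j, ∑ l ∈ Finset.univ.erase j, ‖∑ s, u j s * starRingEnd ℂ (u l s)‖ ^ 2
        + 2 * Fintype.card S * ∑ s, ∑ j, ∑ l, |r j s - r l s| := by
  classical
  set d : ℝ := (Fintype.card S : ℝ) with hd
  have hd0 : 0 ≤ d := Nat.cast_nonneg _
  have hEnn : 0 ≤ ∑ j, ∑ l ∈ Finset.univ.erase j, ‖∑ s, u j s * starRingEnd ℂ (u l s)‖ ^ 2 :=
    Finset.sum_nonneg fun _ _ => Finset.sum_nonneg fun _ _ => by positivity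
  rcases hd0.lt_or_eq with hdpos | hdz
  swap
  · rw [← hdz]
    simpa using hEnn
  have key := exists_orthonormal V
  generalize finrank ℂ V = m at key ⊢
  obtain ⟨c, hcV, hc, hbes⟩ := key
  set G : ι → ι → ℂ := fun j l => ∑ s, u j s * starRingEnd ℂ (u l s) with hG
  set R : ℝ := ∑ s, ∑ j, ∑ l, |r j s - r l s| with hR
  set P : ι → ι → ℂ := fun j l => ∑ t, c t j * starRingEnd ℂ (c t l) with hP
  -- upper bound
  have hup : ∑ s, ∑ t, ‖∑ j, c t j * u j s‖ ^ 2 ≤ R := by
    rw [hR]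
    exact Finset.sum_le_sum fun s _ => pointwise c hbes (fun j => r j s) (fun j => u j s)
      (fun j => hu j s) (fun t => hrel (c t) (hcV t) s)
  -- expansion
  have e1 : ∑ s, ∑ t, ‖∑ j, c t j * u j s‖ ^ 2 = ∑ j, ∑ l, (P j l * G j l).re := by
    have h1 : ∀ s t, ((‖∑ j, c t j * u j s‖ ^ 2 : ℝ) : ℂ) =
        ∑ j, ∑ l, (c t j * starRingEnd ℂ (c t l)) * (u j s * starRingEnd ℂ (u l s)) := by
      intro s t
      rw [← Complex.normSq_eq_norm_sq, ← Complex.mul_conj, map_sum, Finset.sum_mul_sum]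
      refine Finset.sum_congr rfl fun j _ => Finset.sum_congr rfl fun l _ => ?_
      rw [map_mul]
      ring
    have h2 : ((∑ s, ∑ t, ‖∑ j, c t j * u j s‖ ^ 2 : ℝ) : ℂ) = ∑ j, ∑ l, P j l * G j l := by
      have h3 : ((∑ s, ∑ t, ‖∑ j, c t j * u j s‖ ^ 2 : ℝ) : ℂ) = ∑ s, ∑ t,
          ∑ j, ∑ l, (c t j * starRingEnd ℂ (c t l)) * (u j s * starRingEnd ℂ (u l s)) := by
        rw [Complex.ofReal_sum]
        refine Finset.sum_congr rfl fun s _ => ?_
        rw [Complex.ofReal_sum]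
        exact Finset.sum_congr rfl fun t _ => h1 s t
      rw [h3]
      calc ∑ s, ∑ t, ∑ j, ∑ l, (c t j * starRingEnd ℂ (c t l)) * (u j s * starRingEnd ℂ (u l s))
          = ∑ s, ∑ j, ∑ l, P j l * (u j s * starRingEnd ℂ (u l s)) := by
            refine Finset.sum_congr rfl fun s _ => ?_
            rw [Finset.sum_comm]
            refine Finset.sum_congr rfl fun j _ => ?_
            rw [Finset.sum_comm]
            refine Finset.sum_congr rfl fun l _ => ?_
            rw [hP, Finset.sum_mul]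
        _ = ∑ j, ∑ l, P j l * G j l := by
            rw [Finset.sum_comm]
            refine Finset.sum_congr rfl fun j _ => ?_
            rw [Finset.sum_comm]
            refine Finset.sum_congr rfl fun l _ => ?_
            rw [hG, Finset.mul_sum]
    have h4 := congrArg Complex.re h2
    rw [Complex.ofReal_re, Complex.re_sum] at h4
    rw [h4]
    refine Finset.sum_congr rfl fun j _ => ?_
    rw [Complex.re_sum]
  -- diagonal
  have ediag : ∀ j, G j j = d := by
    intro j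
    have h1 : ∀ s, u j s * starRingEnd ℂ (u j s) = 1 := by
      intro s
      rw [Complex.mul_conj, Complex.normSq_eq_norm_sq, hu]
      simp
    rw [hG]
    simp only [h1]
    simp [hd]
  set E : ℝ := ∑ j, ∑ l ∈ Finset.univ.erase j, ‖G j l‖ ^ 2 with hE
  have hlow : d * m - (d / 2 * m + 1 / (2 * d) * E) ≤ ∑ j, ∑ l, (P j l * G j l).re := by
    have h1 : ∀ j, ∑ l, (P j l * G j l).re = (P j j).re * d +
        ∑ l ∈ Finset.univ.erase j, (P j l * G j l).re := by
      intro j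
      rw [← Finset.add_sum_erase _ _ (Finset.mem_univ j), ediag, Complex.re_mul_ofReal]
    rw [Finset.sum_congr rfl (fun j _ => h1 j), Finset.sum_add_distrib]
    have h2 : ∑ j, (P j j).re * d = d * m := by
      rw [← Finset.sum_mul, ← Complex.re_sum, hP]
      simp only
      rw [proj_trace c hc, mul_comm, Complex.natCast_re]
    have h3 : ∀ j l, -(d / 2 * ‖P j l‖ ^ 2 + 1 / (2 * d) * ‖G j l‖ ^ 2) ≤ (P j l * G j l).re := by
      intro j l
      have h5 : |(P j l * G j l).re| ≤ ‖P j l‖ * ‖G j l‖ := by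
        rw [← norm_mul]
        exact Complex.abs_re_le_norm _
      have h6 : ‖P j l‖ * ‖G j l‖ ≤ d / 2 * ‖P j l‖ ^ 2 + 1 / (2 * d) * ‖G j l‖ ^ 2 := by
        have h9 : d / 2 * ‖P j l‖ ^ 2 + 1 / (2 * d) * ‖G j l‖ ^ 2 - ‖P j l‖ * ‖G j l‖
            = (d * ‖P j l‖ - ‖G j l‖) ^ 2 / (2 * d) := by
          field_simp; ring
        have h10 : 0 ≤ (d * ‖P j l‖ - ‖G j l‖) ^ 2 / (2 * d) := by positivity
        linarith
      have h11 := neg_abs_le ((P j l * G j l).re)
      linarith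
    have h4 : ∑ j, ∑ l ∈ Finset.univ.erase j, -(d / 2 * ‖P j l‖ ^ 2 + 1 / (2 * d) * ‖G j l‖ ^ 2)
        ≤ ∑ j, ∑ l ∈ Finset.univ.erase j, (P j l * G j l).re :=
      Finset.sum_le_sum fun j _ => Finset.sum_le_sum fun l _ => h3 j l
    have h5 : ∑ j, ∑ l ∈ Finset.univ.erase j, ‖P j l‖ ^ 2 ≤ m := by
      have h6 := proj_hs c hc
      rw [← h6]
      refine Finset.sum_le_sum fun j _ => ?_
      exact Finset.sum_le_sum_of_subset_of_nonneg (Finset.erase_subset _ _)
        (fun _ _ _ => sq_nonneg _)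
    have h6 : ∑ j, ∑ l ∈ Finset.univ.erase j, -(d / 2 * ‖P j l‖ ^ 2 + 1 / (2 * d) * ‖G j l‖ ^ 2)
        = -(d / 2 * ∑ j, ∑ l ∈ Finset.univ.erase j, ‖P j l‖ ^ 2) - 1 / (2 * d) * E := by
      rw [hE]
      simp only [Finset.mul_sum, ← Finset.sum_neg_distrib, ← Finset.sum_sub_distrib]
      refine Finset.sum_congr rfl fun j _ => Finset.sum_congr rfl fun l _ => by ring
    have h7 : d / 2 * ∑ j, ∑ l ∈ Finset.univ.erase j, ‖P j l‖ ^ 2 ≤ d / 2 * m :=
      mul_le_mul_of_nonneg_left h5 (by positivity)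
    rw [h2]
    linarith
  have h1 : d * m - (d / 2 * m + 1 / (2 * d) * E) ≤ R := by
    rw [← e1] at hlow
    exact hlow.trans hup
  have h3 : 2 * d * (d * m - (d / 2 * m + 1 / (2 * d) * E)) ≤ 2 * d * R :=
    mul_le_mul_of_nonneg_left h1 (by positivity)
  have h4 : 2 * d * (d * m - (d / 2 * m + 1 / (2 * d) * E)) = m * d ^ 2 - E := by
    field_simp; ring
  rw [h4] at h3
  linarith

end Pool.Agent.V1156.RK
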