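import Mathlib
import Pool.Agent.H196R3.LIc
import Pool.Agent.V1156.RK.Gram

/-!
# Relations over a subfield between units of a number field
-/

set_option autoImplicit false

open Finset Polynomial Module IntermediateField

namespace Pool.Agent.V1156.RK

open Pool.Agent.H388SL Pool.Agent.H196R3.LI

variable {L : Type} [Field L] [NumberField L]

lemma sum_emb_conj (ρ : L ≃ₐ[ℚ] L) (g : (L →ₐ[ℚ] ℂ) → ℝ) :
    ∑ σ : L →ₐ[ℚ] ℂ, g (σ.comp (ρ : L →ₐ[ℚ] L)) = ∑ σ : L →ₐ[ℚ] ℂ, g σ := by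
  refine Fintype.sum_equiv
    { toFun := fun σ : L →ₐ[ℚ] ℂ => σ.comp (ρ : L →ₐ[ℚ] L)
      invFun := fun σ : L →ₐ[ℚ] ℂ => σ.comp (ρ.symm : L →ₐ[ℚ] L)
      left_inv := fun σ => by
        apply AlgHom.ext
        intro x
        simp
      right_inv := fun σ => by
        apply AlgHom.ext
        intro x
        simp } _ _ fun σ => rfl

lemma lam_conj (ρ : L ≃ₐ[ℚ] L) (β : L) : lam (ρ β) = lam β :=
  sum_emb_conj ρ (fun σ => Real.log (max 1 ‖σ β‖))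

/-- the energy inequality for a set of algebraic integers -/
lemma energy_set (R : Finset L) (hR : R.Nonempty) (hint : ∀ z ∈ R, IsIntegral ℤ z) :
    ∑ σ : L →ₐ[ℚ] ℂ, ‖∑ z ∈ R, refl (σ z)‖ ^ 2 ≤
      4 * R.card * ∑ z ∈ R, lam z + finrank ℚ L * (R.card * (1 + 2 * Real.log (2 * R.card))) := by
  classical
  set d := R.card with hd
  have hd0 : 1 ≤ d := Finset.card_pos.mpr hR
  have hd1 : (1:ℝ) ≤ d := by exact_mod_cast hd0
  have hcard : Fintype.card (L →ₐ[ℚ] ℂ) = finrank ℚ L := AlgHom.card ℚ L ℂ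
  set N : ℝ := 2 * d with hN
  have hN2 : 2 ≤ N := by linarith
  have ht0 : 0 ≤ 1 - 1 / N := by
    rw [sub_nonneg, div_le_one (by linarith)]; linarith
  have ht1 : 1 - 1 / N < 1 := by
    have : 0 < 1 / N := by positivity
    linarith
  have e1 : 1 / (1 - (1 - 1 / N)) = N := by
    field_simp; ring
  have e2 : Real.log (2 / (1 + (1 - 1 / N))) ≤ 1 / N := by
    have h1 : 1 + (1 - 1 / N) = (2 * N - 1) / N := by field_simp; ring
    have h2 : 2 / (1 + (1 - 1 / N)) = 1 + 1 / (2 * N - 1) := by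
      rw [h1]
      have : 2 * N - 1 ≠ 0 := by nlinarith
      field_simp; ring
    rw [h2]
    have h3 : 0 < 1 / (2 * N - 1) := by apply div_pos one_pos; nlinarith
    have h4 := Real.log_le_sub_one_of_pos (show 0 < 1 + 1 / (2 * N - 1) by linarith)
    have h5 : 1 / (2 * N - 1) ≤ 1 / N := by
      apply one_div_le_one_div_of_le (by linarith); linarith
    linarith
  have h3 : (1:ℝ) / 2 ≤ 1 - 1 / N := by
    have : 1 / N ≤ 1 / 2 := one_div_le_one_div_of_le (by norm_num) hN2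
    linarith
  have h5 : (d:ℝ) ^ 2 * Real.log (2 / (1 + (1 - 1 / N))) ≤ d / 2 := by
    calc (d:ℝ) ^ 2 * Real.log (2 / (1 + (1 - 1 / N))) ≤ (d:ℝ) ^ 2 * (1 / N) :=
          mul_le_mul_of_nonneg_left e2 (by positivity)
      _ = d / 2 := by rw [hN]; field_simp
  -- the inequality at each embedding
  have hE : ∀ σ : L →ₐ[ℚ] ℂ, ∑ z ∈ R, ∑ z' ∈ R, (if z = z' then (0:ℝ) else Real.log ‖σ z - σ z'‖) +
      1 / 2 * ‖∑ z ∈ R, refl (σ z)‖ ^ 2 ≤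
      2 * d * ∑ z ∈ R, Real.log (max 1 ‖σ z‖) + d / 2 + d * Real.log (2 * d) := by
    intro σ
    have h := energy R (fun _ => (1:ℝ)) (fun _ _ => zero_le_one)
      (fun z => σ z) (fun z _ z' _ h h' => h (σ.toRingHom.injective h')) ht0 ht1
    rw [e1] at h
    simp only [one_mul, Finset.sum_const, nsmul_eq_mul, mul_one,
      one_pow, Complex.ofReal_one] at h
    have h4 : (1:ℝ) / 2 * ‖∑ z ∈ R, refl (σ z)‖ ^ 2 ≤ (1 - 1 / N) * ‖∑ z ∈ R, refl (σ z)‖ ^ 2 :=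
      mul_le_mul_of_nonneg_right h3 (by positivity)
    linarith
  have hsum := Finset.sum_le_sum fun (σ : L →ₐ[ℚ] ℂ) (_ : σ ∈ Finset.univ) => hE σ
  rw [Finset.sum_add_distrib, ← Finset.mul_sum] at hsum
  have h1 : 0 ≤ ∑ σ : L →ₐ[ℚ] ℂ, ∑ z ∈ R, ∑ z' ∈ R,
      (if z = z' then (0:ℝ) else Real.log ‖σ z - σ z'‖) := by
    rw [Finset.sum_comm]
    refine Finset.sum_nonneg fun z hz => ?_
    rw [Finset.sum_comm]
    refine Finset.sum_nonneg fun z' hz' => ?_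
    by_cases hzz : z = z'
    · simp [hzz]
    · simp only [if_neg hzz]
      have h6 : ∀ σ : L →ₐ[ℚ] ℂ, ‖σ z - σ z'‖ = ‖σ (z - z')‖ := fun σ => by rw [map_sub]
      simp only [h6]
      rw [← Real.log_prod]
      · exact Real.log_nonneg (one_le_prod_norm ((hint z hz).sub (hint z' hz'))
          (sub_ne_zero.mpr hzz))
      · intro σ _
        rw [norm_ne_zero_iff]
        exact (map_ne_zero σ).mpr (sub_ne_zero.mpr hzz)
  have h2 : ∑ σ : L →ₐ[ℚ] ℂ, (2 * d * ∑ z ∈ R, Real.log (max 1 ‖σ z‖) + d / 2 +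
      d * Real.log (2 * d)) = 2 * d * ∑ z ∈ R, lam z +
      finrank ℚ L * (d / 2 + d * Real.log (2 * d)) := by
    simp only [add_assoc]
    rw [Finset.sum_add_distrib, ← Finset.mul_sum, Finset.sum_comm, Finset.sum_const,
      Finset.card_univ, hcard, nsmul_eq_mul]
    rfl
  rw [h2] at hsum
  linarith

/-- the units on the unit circle -/
lemma uu_set (R : Finset L) (hR : R.Nonempty) (hint : ∀ z ∈ R, IsIntegral ℤ z)
    (h0 : ∀ z ∈ R, z ≠ 0) (hunit : ∀ z ∈ R, ∏ σ : L →ₐ[ℚ] ℂ, ‖σ z‖ = 1) {lm : ℝ}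
    (hlm : ∀ z ∈ R, lam z = lm) :
    ∑ σ : L →ₐ[ℚ] ℂ, ‖∑ z ∈ R, uu z σ‖ ^ 2 ≤
      (R.card : ℝ) ^ 2 * (16 * lm) + finrank ℚ L * (R.card * (2 * (1 + 2 * Real.log (2 * R.card)))) := by
  classical
  have h1 := energy_set R hR hint
  have e0 : ∑ z ∈ R, lam z = R.card * lm := by
    rw [Finset.sum_congr rfl hlm, Finset.sum_const, nsmul_eq_mul]
  rw [e0] at h1
  have h2 : ∀ σ : L →ₐ[ℚ] ℂ, ‖∑ z ∈ R, uu z σ‖ ^ 2 ≤ 2 * ‖∑ z ∈ R, refl (σ z)‖ ^ 2 +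
      4 * (R.card * ∑ z ∈ R, |Real.log ‖σ z‖|) := by
    intro σ
    have h3 : ‖∑ z ∈ R, uu z σ‖ ≤ ‖∑ z ∈ R, refl (σ z)‖ + ∑ z ∈ R, ‖refl (σ z) - uu z σ‖ := by
      have h4 : ∑ z ∈ R, uu z σ = ∑ z ∈ R, refl (σ z) - ∑ z ∈ R, (refl (σ z) - uu z σ) := by
        rw [← Finset.sum_sub_distrib]
        exact Finset.sum_congr rfl fun z _ => by ring
      rw [h4]
      exact (norm_sub_le _ _).trans (by gcongr; exact norm_sum_le _ _)
    have h5 : (∑ z ∈ R, ‖refl (σ z) - uu z σ‖) ^ 2 ≤ R.card * ∑ z ∈ R, ‖refl (σ z) - uu z σ‖ ^ 2 :=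
      sq_sum_le_card_mul_sum_sq
    have h6 : ∑ z ∈ R, ‖refl (σ z) - uu z σ‖ ^ 2 ≤ 2 * ∑ z ∈ R, |Real.log ‖σ z‖| := by
      rw [Finset.mul_sum]
      refine Finset.sum_le_sum fun z hz => ?_
      have h7 : ‖refl (σ z) - uu z σ‖ ≤ |Real.log ‖σ z‖| :=
        refl_sub_le ((map_ne_zero σ).mpr (h0 z hz))
      have h8 : ‖refl (σ z) - uu z σ‖ ≤ 2 := by
        have := norm_sub_le (refl (σ z)) (uu z σ)
        rw [norm_uu (h0 z hz) σ] at this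
        have h9 := norm_refl_le (σ z)
        linarith
      have h9 := norm_nonneg (refl (σ z) - uu z σ)
      nlinarith
    have h7 : ‖∑ z ∈ R, uu z σ‖ ^ 2 ≤ (‖∑ z ∈ R, refl (σ z)‖ + ∑ z ∈ R, ‖refl (σ z) - uu z σ‖) ^ 2 :=
      pow_le_pow_left₀ (norm_nonneg _) h3 2
    have hc0 : (0:ℝ) ≤ R.card := Nat.cast_nonneg _
    have h8 : (R.card : ℝ) * ∑ z ∈ R, ‖refl (σ z) - uu z σ‖ ^ 2 ≤
        R.card * (2 * ∑ z ∈ R, |Real.log ‖σ z‖|) := mul_le_mul_of_nonneg_left h6 hc0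
    nlinarith [sq_nonneg (‖∑ z ∈ R, refl (σ z)‖ - ∑ z ∈ R, ‖refl (σ z) - uu z σ‖)]
  have h3 := Finset.sum_le_sum fun (σ : L →ₐ[ℚ] ℂ) (_ : σ ∈ Finset.univ) => h2 σ
  rw [Finset.sum_add_distrib, ← Finset.mul_sum] at h3
  have h4 : ∑ σ : L →ₐ[ℚ] ℂ, 4 * (R.card * ∑ z ∈ R, |Real.log ‖σ z‖|) =
      4 * (R.card * (R.card * (2 * lm))) := by
    rw [← Finset.mul_sum, ← Finset.mul_sum, Finset.sum_comm]
    congr 2
    have : ∀ z ∈ R, ∑ σ : L →ₐ[ℚ] ℂ, |Real.log ‖σ z‖| = 2 * lm := by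
      intro z hz
      rw [sum_abs_log (h0 z hz) (hunit z hz), hlm z hz]
    rw [Finset.sum_congr rfl this, Finset.sum_const, nsmul_eq_mul]
  rw [h4] at h3
  nlinarith

/-- the orbit of `β` under `H` -/
noncomputable def orb (H : Subgroup (L ≃ₐ[ℚ] L)) (β : L) : Finset L := by
  classical
  exact ((Finset.univ : Finset (L ≃ₐ[ℚ] L)).filter fun ρ => ρ ∈ H).image fun ρ => ρ β

lemma mem_orb {H : Subgroup (L ≃ₐ[ℚ] L)} {β z : L} : z ∈ orb H β ↔ ∃ ρ ∈ H, ρ β = z := by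
  classical
  unfold orb
  rw [Finset.mem_image]
  constructor
  · rintro ⟨ρ, hρ, h⟩
    exact ⟨ρ, (Finset.mem_filter.mp hρ).2, h⟩
  · rintro ⟨ρ, hρ, h⟩
    exact ⟨ρ, Finset.mem_filter.mpr ⟨Finset.mem_univ _, hρ⟩, h⟩

lemma orb_sum (H : Subgroup (L ≃ₐ[ℚ] L)) [Fintype H] (β : L) :
    ∃ c : ℕ, Fintype.card H = c * (orb H β).card ∧
      ∀ g : L → ℂ, ∑ ρ : H, g ((ρ : L ≃ₐ[ℚ] L) β) = c * ∑ z ∈ orb H β, g z := by
  classical
  set f : H → L := fun ρ => (ρ : L ≃ₐ[ℚ] L) β with hf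
  have horb : orb H β = Finset.univ.image f := by
    ext z
    rw [mem_orb, Finset.mem_image]
    constructor
    · rintro ⟨ρ, hρ, h⟩
      exact ⟨⟨ρ, hρ⟩, Finset.mem_univ _, h⟩
    · rintro ⟨ρ, -, h⟩
      exact ⟨ρ, ρ.2, h⟩
  set c := (Finset.univ.filter fun ρ : H => f ρ = β).card with hc
  have hfib : ∀ z ∈ Finset.univ.image f, (Finset.univ.filter fun ρ : H => f ρ = z).card = c := by
    intro z hz
    obtain ⟨ρ0, -, rfl⟩ := Finset.mem_image.mp hz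
    symm
    refine Finset.card_bij (fun ρ _ => ρ0 * ρ) ?_ ?_ ?_
    · intro ρ hρ
      rw [Finset.mem_filter] at hρ ⊢
      refine ⟨Finset.mem_univ _, ?_⟩
      have h1 : f ρ = β := hρ.2
      change ((ρ0 * ρ : H) : L ≃ₐ[ℚ] L) β = _
      rw [Subgroup.coe_mul, AlgEquiv.mul_apply]
      change (ρ0 : L ≃ₐ[ℚ] L) (f ρ) = _
      rw [h1]
    · intro a _ b _ h
      exact mul_left_cancel h
    · intro ρ hρ
      rw [Finset.mem_filter] at hρ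
      refine ⟨ρ0⁻¹ * ρ, ?_, by group⟩
      rw [Finset.mem_filter]
      refine ⟨Finset.mem_univ _, ?_⟩
      have h1 : f ρ = f ρ0 := hρ.2
      change ((ρ0⁻¹ * ρ : H) : L ≃ₐ[ℚ] L) β = β
      rw [Subgroup.coe_mul, AlgEquiv.mul_apply]
      change ((ρ0⁻¹ : H) : L ≃ₐ[ℚ] L) (f ρ) = β
      rw [h1]
      change ((ρ0⁻¹ : H) : L ≃ₐ[ℚ] L) ((ρ0 : L ≃ₐ[ℚ] L) β) = β
      rw [← AlgEquiv.mul_apply, ← Subgroup.coe_mul, inv_mul_cancel]
      rfl
  refine ⟨c, ?_, ?_⟩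
  · rw [← Finset.card_univ, Finset.card_eq_sum_card_image f Finset.univ,
      Finset.sum_congr rfl hfib, Finset.sum_const, smul_eq_mul, horb, mul_comm]
  · intro g
    rw [Finset.sum_comp g f, Finset.sum_congr rfl (fun z hz => by rw [hfib z hz]), horb,
      Finset.mul_sum]
    exact Finset.sum_congr rfl fun z _ => by rw [nsmul_eq_mul]

/-- the decreasing function -/
lemma psi_anti {x y : ℝ} (hx : 1 ≤ x) (hxy : x ≤ y) :
    (1 + 2 * Real.log (2 * y)) / y ≤ (1 + 2 * Real.log (2 * x)) / x := by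
  have hx0 : 0 < x := by linarith
  have hy0 : 0 < y := by linarith
  rw [div_le_div_iff₀ hy0 hx0]
  have h1 : Real.log (2 * y) = Real.log (2 * x) + Real.log (y / x) := by
    rw [← Real.log_mul (by positivity) (by positivity)]
    congr 1
    field_simp
  have h2 : Real.log (y / x) ≤ y / x - 1 := Real.log_le_sub_one_of_pos (by positivity)
  have h3 : x * (y / x - 1) = y - x := by field_simp
  have h4 : x * Real.log (y / x) ≤ y - x := by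
    rw [← h3]
    exact mul_le_mul_of_nonneg_left h2 hx0.le
  have h5 : Real.log 2 ≤ Real.log (2 * x) := Real.log_le_log (by norm_num) (by linarith)
  have h6 := Real.log_two_gt_d9
  rw [h1]
  nlinarith

/-- **one pair** -/
lemma pair (H : Subgroup (L ≃ₐ[ℚ] L)) [Fintype H] {β : L} (h0 : β ≠ 0) (hi : IsIntegral ℤ β)
    (hi' : IsIntegral ℤ β⁻¹) {N : ℝ} (hN1 : 1 ≤ N) (hN : N ≤ (orb H β).card) :
    ∑ σ : L →ₐ[ℚ] ℂ, ‖∑ ρ : H, uu ((ρ : L ≃ₐ[ℚ] L) β) σ‖ ^ 2 ≤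
      (Fintype.card H : ℝ) ^ 2 * (16 * lam β + finrank ℚ L * (2 * ((1 + 2 * Real.log (2 * N)) / N))) := by
  classical
  obtain ⟨c, hc1, hc2⟩ := orb_sum H β
  set R := orb H β with hR
  have hRne : R.Nonempty := ⟨β, mem_orb.mpr ⟨1, H.one_mem, rfl⟩⟩
  have hmem : ∀ z ∈ R, ∃ ρ : L ≃ₐ[ℚ] L, ρ β = z := fun z hz => by
    obtain ⟨ρ, -, h⟩ := mem_orb.mp hz
    exact ⟨ρ, h⟩
  have hint : ∀ z ∈ R, IsIntegral ℤ z := by
    intro z hz
    obtain ⟨ρ, rfl⟩ := hmem z hz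
    exact hi.map (ρ.toAlgHom.restrictScalars ℤ)
  have h0' : ∀ z ∈ R, z ≠ 0 := by
    intro z hz
    obtain ⟨ρ, rfl⟩ := hmem z hz
    exact (map_ne_zero ρ).mpr h0
  have hunit : ∀ z ∈ R, ∏ σ : L →ₐ[ℚ] ℂ, ‖σ z‖ = 1 := by
    intro z hz
    obtain ⟨ρ, rfl⟩ := hmem z hz
    refine prod_unit (hint _ hz) ?_ (h0' _ hz)
    rw [← map_inv₀]
    exact hi'.map (ρ.toAlgHom.restrictScalars ℤ)
  have hlm : ∀ z ∈ R, lam z = lam β := by
    intro z hz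
    obtain ⟨ρ, rfl⟩ := hmem z hz
    exact lam_conj ρ β
  have h := uu_set R hRne hint h0' hunit hlm
  have hRc : (0:ℝ) < R.card := by exact_mod_cast Finset.card_pos.mpr hRne
  have e1 : ∀ σ : L →ₐ[ℚ] ℂ, ‖∑ ρ : H, uu ((ρ : L ≃ₐ[ℚ] L) β) σ‖ ^ 2 =
      (c:ℝ) ^ 2 * ‖∑ z ∈ R, uu z σ‖ ^ 2 := by
    intro σ
    rw [hc2 (fun z => uu z σ), norm_mul, Complex.norm_natCast, mul_pow]
  rw [Finset.sum_congr rfl (fun σ _ => e1 σ), ← Finset.mul_sum]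
  have e2 : (Fintype.card H : ℝ) = c * R.card := by exact_mod_cast hc1
  have h3 := psi_anti hN1 hN
  have hn0 : (0:ℝ) ≤ finrank ℚ L := Nat.cast_nonneg _
  calc (c:ℝ) ^ 2 * ∑ σ : L →ₐ[ℚ] ℂ, ‖∑ z ∈ R, uu z σ‖ ^ 2
      ≤ (c:ℝ) ^ 2 * ((R.card : ℝ) ^ 2 * (16 * lam β) +
          finrank ℚ L * (R.card * (2 * (1 + 2 * Real.log (2 * R.card))))) := by gcongr
    _ = (c * R.card : ℝ) ^ 2 * (16 * lam β + finrank ℚ L *
          (2 * ((1 + 2 * Real.log (2 * R.card)) / R.card))) := by field_simp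
    _ ≤ (c * R.card : ℝ) ^ 2 * (16 * lam β + finrank ℚ L *
          (2 * ((1 + 2 * Real.log (2 * N)) / N))) := by gcongr
    _ = _ := by rw [e2]

end Pool.Agent.V1156.RK
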