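import Mathlib
import Pool.Agent.V1156.RK.Fld

/-!
# Relations over a subfield between units of a number field: the main inequality
-/

set_option autoImplicit false

open Finset Polynomial Module IntermediateField

namespace Pool.Agent.V1156.RK

open Pool.Agent.H388SL Pool.Agent.H196R3.LI

variable {L : Type} [Field L] [NumberField L]

lemma uu_div {a b : L} (ha : a ≠ 0) (hb : b ≠ 0) (σ : L →ₐ[ℚ] ℂ) :
    uu (a / b) σ = uu a σ * starRingEnd ℂ (uu b σ) := by
  have h1 : ‖uu b σ‖ = 1 := norm_uu hb σ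
  have h2 : starRingEnd ℂ (uu b σ) = (uu b σ)⁻¹ := by
    rw [Complex.inv_def, Complex.normSq_eq_norm_sq, h1]
    simp
  rw [h2]
  unfold uu
  have h3 : (‖σ a‖ : ℂ) ≠ 0 := by
    exact_mod_cast norm_ne_zero_iff.mpr ((_root_.map_ne_zero σ).mpr ha)
  have h4 : (‖σ b‖ : ℂ) ≠ 0 := by
    exact_mod_cast norm_ne_zero_iff.mpr ((_root_.map_ne_zero σ).mpr hb)
  have h5 : σ b ≠ 0 := (_root_.map_ne_zero σ).mpr hb
  rw [map_div₀, norm_div]
  push_cast
  field_simp

/-- **the main inequality in a number field** -/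
theorem fld_main {ι : Type} [Fintype ι] [DecidableEq ι] [Nonempty ι] (γ : ι → L)
    (hγ0 : ∀ i, γ i ≠ 0) (hγi : ∀ i j, IsIntegral ℤ (γ i / γ j)) (B : Finset ι) (c : ι → ι → L)
    (hrel : ∀ i, i ∉ B → γ i = ∑ b ∈ B, c i b * γ b) (H : Subgroup (L ≃ₐ[ℚ] L))
    (hH : ∀ ρ ∈ H, ∀ i, i ∉ B → ∀ b ∈ B, ρ (c i b) = c i b) {N : ℝ} (hN1 : 1 ≤ N)
    (hN : ∀ i j, i ≠ j → N ≤ (orb H (γ i / γ j)).card) :
    ((Fintype.card ι : ℝ) - B.card) * finrank ℚ L ≤
      20 * ∑ i, ∑ j ∈ Finset.univ.erase i, lam (γ i / γ j) +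
        finrank ℚ L * ((Fintype.card ι : ℝ) ^ 2 * (2 * ((1 + 2 * Real.log (2 * N)) / N))) := by
  classical
  have : Fintype H := Fintype.ofFinite H
  set k := Fintype.card ι with hk
  have hcardE : Fintype.card (L →ₐ[ℚ] ℂ) = finrank ℚ L := AlgHom.card ℚ L ℂ
  set h0 : ℝ := (Fintype.card H : ℝ) with hh0
  have hh0pos : 0 < h0 := by
    rw [hh0]
    exact_mod_cast Fintype.card_pos
  set ψ : ℝ := 2 * ((1 + 2 * Real.log (2 * N)) / N) with hψ
  have hψ0 : 0 ≤ ψ := by
    have : 0 ≤ Real.log (2 * N) := Real.log_nonneg (by linarith)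
    positivity
  have hunit : ∀ i j, ∏ σ : L →ₐ[ℚ] ℂ, ‖σ (γ i / γ j)‖ = 1 := by
    intro i j
    refine prod_unit (hγi i j) ?_ (div_ne_zero (hγ0 i) (hγ0 j))
    rw [inv_div]
    exact hγi j i
  -- for every embedding
  have hσ : ∀ σ : L →ₐ[ℚ] ℂ, ((k : ℝ) - B.card) * h0 ^ 2 ≤
      ∑ i, ∑ j ∈ Finset.univ.erase i, ‖∑ ρ : H, uu ((ρ : L ≃ₐ[ℚ] L) (γ i / γ j)) σ‖ ^ 2 +
        2 * h0 * ∑ ρ : H, ∑ i, ∑ j, |Real.log ‖σ ((ρ : L ≃ₐ[ℚ] L) (γ i / γ j))‖| := by
    intro σ
    set w : {i // i ∉ B} → EuclideanSpace ℂ ι := fun i => WithLp.toLp 2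
      (fun j => if j = (i : ι) then 1 else if j ∈ B then - σ (c i j) else 0) with hw
    set V : Submodule ℂ (EuclideanSpace ℂ ι) := Submodule.span ℂ (Set.range w) with hV
    have hwind : LinearIndependent ℂ w := by
      rw [Fintype.linearIndependent_iff]
      intro g hg i
      have h1 := congrArg (fun v : EuclideanSpace ℂ ι => v (i : ι)) hg
      simp only at h1
      have h2 : (∑ i', g i' • w i') (i : ι) = ∑ i', g i' * (w i' (i : ι)) := by
        rw [WithLp.ofLp_sum, Finset.sum_apply]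
        rfl
      rw [h2, Finset.sum_eq_single i] at h1
      · have h3 : w i (i : ι) = 1 := by
          change (if (i : ι) = (i : ι) then (1:ℂ) else _) = 1
          rw [if_pos rfl]
        rw [h3, mul_one] at h1
        exact h1
      · intro i' _ hi'
        have h3 : w i' (i : ι) = 0 := by
          change (if (i : ι) = (i' : ι) then (1:ℂ) else if (i : ι) ∈ B then - σ (c i' i) else 0) = 0
          rw [if_neg (fun h => hi' (Subtype.ext h).symm), if_neg i.2]
        rw [h3, mul_zero]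
      · intro h
        exact absurd (Finset.mem_univ i) h
    have hfr : (finrank ℂ V : ℝ) = (k : ℝ) - B.card := by
      rw [hV, finrank_span_eq_card hwind]
      have h1 : Fintype.card {i // i ∉ B} = k - B.card := by
        rw [Fintype.card_subtype_compl (fun i => i ∈ B), Fintype.card_coe]
      rw [h1, Nat.cast_sub (Finset.card_le_univ B)]
    have hgram := gram V (fun j (ρ : H) => Real.log ‖σ ((ρ : L ≃ₐ[ℚ] L) (γ j))‖)
      (fun j (ρ : H) => uu ((ρ : L ≃ₐ[ℚ] L) (γ j)) σ)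
      (fun j ρ => norm_uu ((_root_.map_ne_zero _).mpr (hγ0 j)) σ)
      (by
        intro c' hc' ρ
        have hexp : ∀ j, ((Real.exp (Real.log ‖σ ((ρ : L ≃ₐ[ℚ] L) (γ j))‖) : ℝ) : ℂ) *
            uu ((ρ : L ≃ₐ[ℚ] L) (γ j)) σ = σ ((ρ : L ≃ₐ[ℚ] L) (γ j)) := by
          intro j
          have h1 : (ρ : L ≃ₐ[ℚ] L) (γ j) ≠ 0 := (_root_.map_ne_zero _).mpr (hγ0 j)
          rw [Real.exp_log (norm_pos_iff.mpr ((_root_.map_ne_zero σ).mpr h1)), ← sig_eq h1]
        simp only [hexp]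
        set Φ : EuclideanSpace ℂ ι →ₗ[ℂ] ℂ :=
          { toFun := fun v => ∑ j, v j * σ ((ρ : L ≃ₐ[ℚ] L) (γ j))
            map_add' := fun v v' => by
              rw [← Finset.sum_add_distrib]
              refine Finset.sum_congr rfl fun j _ => ?_
              rw [PiLp.add_apply, add_mul]
            map_smul' := fun a v => by
              rw [RingHom.id_apply, smul_eq_mul, Finset.mul_sum]
              refine Finset.sum_congr rfl fun j _ => ?_
              rw [PiLp.smul_apply, smul_eq_mul, mul_assoc] } with hΦ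
        have hle : V ≤ LinearMap.ker Φ := by
          rw [hV, Submodule.span_le]
          rintro _ ⟨i, rfl⟩
          rw [SetLike.mem_coe, LinearMap.mem_ker]
          change ∑ j, (if j = (i : ι) then (1:ℂ) else if j ∈ B then - σ (c i j) else 0) *
            σ ((ρ : L ≃ₐ[ℚ] L) (γ j)) = 0
          have h1 : ∀ j, (if j = (i : ι) then (1:ℂ) else if j ∈ B then - σ (c i j) else 0) *
              σ ((ρ : L ≃ₐ[ℚ] L) (γ j)) = (if j = (i : ι) then σ ((ρ : L ≃ₐ[ℚ] L) (γ j)) else 0) -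
                (if j ∈ B then σ (c i j) * σ ((ρ : L ≃ₐ[ℚ] L) (γ j)) else 0) := by
            intro j
            by_cases hj : j = (i : ι)
            · have : j ∉ B := by rw [hj]; exact i.2
              simp [hj, i.2]
            · by_cases hjB : j ∈ B
              · simp [hj, hjB]
              · simp [hj, hjB]
          rw [Finset.sum_congr rfl (fun j _ => h1 j), Finset.sum_sub_distrib,
            Finset.sum_ite_eq' Finset.univ (i : ι), if_pos (Finset.mem_univ _),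
            Finset.sum_ite_mem, Finset.univ_inter]
          have h2 : σ ((ρ : L ≃ₐ[ℚ] L) (γ i)) = ∑ b ∈ B, σ (c i b) * σ ((ρ : L ≃ₐ[ℚ] L) (γ b)) := by
            conv_lhs => rw [hrel i i.2]
            rw [map_sum, map_sum]
            refine Finset.sum_congr rfl fun b hb => ?_
            rw [map_mul, map_mul, hH ρ ρ.2 i i.2 b hb]
          rw [h2, sub_self]
        exact LinearMap.mem_ker.mp (hle hc'))
    rw [hfr] at hgram
    refine hgram.trans (le_of_eq ?_)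
    congr 1
    · refine Finset.sum_congr rfl fun i _ => Finset.sum_congr rfl fun j _ => ?_
      congr 2
      refine Finset.sum_congr rfl fun ρ _ => ?_
      rw [map_div₀, uu_div ((_root_.map_ne_zero _).mpr (hγ0 i)) ((_root_.map_ne_zero _).mpr (hγ0 j))]
    · congr 1
      refine Finset.sum_congr rfl fun ρ _ => Finset.sum_congr rfl fun i _ =>
        Finset.sum_congr rfl fun j _ => ?_
      rw [map_div₀, map_div₀, norm_div, Real.log_div]
      · exact norm_ne_zero_iff.mpr ((_root_.map_ne_zero σ).mpr ((_root_.map_ne_zero _).mpr (hγ0 i)))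
      · exact norm_ne_zero_iff.mpr ((_root_.map_ne_zero σ).mpr ((_root_.map_ne_zero _).mpr (hγ0 j)))
  have hsum := Finset.sum_le_sum fun (σ : L →ₐ[ℚ] ℂ) (_ : σ ∈ Finset.univ) => hσ σ
  rw [Finset.sum_const, Finset.card_univ, hcardE, nsmul_eq_mul, Finset.sum_add_distrib] at hsum
  -- first term
  have e1 : ∑ σ : L →ₐ[ℚ] ℂ, ∑ i, ∑ j ∈ Finset.univ.erase i,
      ‖∑ ρ : H, uu ((ρ : L ≃ₐ[ℚ] L) (γ i / γ j)) σ‖ ^ 2 ≤
      h0 ^ 2 * (16 * ∑ i, ∑ j ∈ Finset.univ.erase i, lam (γ i / γ j) +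
        finrank ℚ L * ((k : ℝ) ^ 2 * ψ)) := by
    rw [Finset.sum_comm]
    have h1 : ∀ i, ∑ σ : L →ₐ[ℚ] ℂ, ∑ j ∈ Finset.univ.erase i,
        ‖∑ ρ : H, uu ((ρ : L ≃ₐ[ℚ] L) (γ i / γ j)) σ‖ ^ 2 ≤
        ∑ j ∈ Finset.univ.erase i, h0 ^ 2 * (16 * lam (γ i / γ j) + finrank ℚ L * ψ) := by
      intro i
      rw [Finset.sum_comm]
      refine Finset.sum_le_sum fun j hj => ?_
      have hij : i ≠ j := (Finset.ne_of_mem_erase hj).symm
      refine pair H (div_ne_zero (hγ0 i) (hγ0 j)) (hγi i j) ?_ hN1 (hN i j hij)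
      rw [inv_div]
      exact hγi j i
    refine (Finset.sum_le_sum fun i _ => h1 i).trans ?_
    have h2 : ∑ i, ∑ j ∈ Finset.univ.erase i, h0 ^ 2 * (16 * lam (γ i / γ j) + finrank ℚ L * ψ) =
        h0 ^ 2 * (16 * ∑ i, ∑ j ∈ Finset.univ.erase i, lam (γ i / γ j) +
          ∑ i : ι, ∑ j ∈ Finset.univ.erase i, finrank ℚ L * ψ) := by
      simp only [← Finset.mul_sum, Finset.sum_add_distrib]
    rw [h2]
    have h3 : ∑ i : ι, ∑ j ∈ Finset.univ.erase i, (finrank ℚ L : ℝ) * ψ ≤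
        finrank ℚ L * ((k : ℝ) ^ 2 * ψ) := by
      calc ∑ i : ι, ∑ j ∈ Finset.univ.erase i, (finrank ℚ L : ℝ) * ψ
          ≤ ∑ i : ι, ∑ j : ι, (finrank ℚ L : ℝ) * ψ := by
            refine Finset.sum_le_sum fun i _ => ?_
            exact Finset.sum_le_sum_of_subset_of_nonneg (Finset.erase_subset _ _)
              (fun _ _ _ => by positivity)
        _ = finrank ℚ L * ((k : ℝ) ^ 2 * ψ) := by
            simp only [Finset.sum_const, Finset.card_univ, nsmul_eq_mul, ← hk]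
            ring
    gcongr
  -- second term
  have e2 : ∑ σ : L →ₐ[ℚ] ℂ, 2 * h0 * ∑ ρ : H, ∑ i, ∑ j,
      |Real.log ‖σ ((ρ : L ≃ₐ[ℚ] L) (γ i / γ j))‖| =
      h0 ^ 2 * (4 * ∑ i, ∑ j ∈ Finset.univ.erase i, lam (γ i / γ j)) := by
    rw [← Finset.mul_sum, Finset.sum_comm]
    have h1 : ∀ ρ : H, ∑ σ : L →ₐ[ℚ] ℂ, ∑ i, ∑ j,
        |Real.log ‖σ ((ρ : L ≃ₐ[ℚ] L) (γ i / γ j))‖| = ∑ i, ∑ j, 2 * lam (γ i / γ j) := by
      intro ρ
      rw [Finset.sum_comm]
      refine Finset.sum_congr rfl fun i _ => ?_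
      rw [Finset.sum_comm]
      refine Finset.sum_congr rfl fun j _ => ?_
      have h2 := sum_emb_conj (ρ : L ≃ₐ[ℚ] L) (fun σ : L →ₐ[ℚ] ℂ => |Real.log ‖σ (γ i / γ j)‖|)
      rw [sum_abs_log (div_ne_zero (hγ0 i) (hγ0 j)) (hunit i j)] at h2
      exact h2
    rw [Finset.sum_congr rfl (fun ρ _ => h1 ρ), Finset.sum_const, Finset.card_univ, nsmul_eq_mul,
      ← hh0]
    have h3 : ∀ i, ∑ j, 2 * lam (γ i / γ j) = 2 * ∑ j ∈ Finset.univ.erase i, lam (γ i / γ j) := by
      intro i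
      rw [← Finset.mul_sum, ← Finset.add_sum_erase _ _ (Finset.mem_univ i), div_self (hγ0 i)]
      have : lam (1 : L) = 0 := by
        unfold lam
        simp
      rw [this, zero_add]
    rw [Finset.sum_congr rfl (fun i _ => h3 i), ← Finset.mul_sum]
    ring
  rw [e2] at hsum
  have h1 : h0 ^ 2 * (((k : ℝ) - B.card) * finrank ℚ L) ≤ h0 ^ 2 *
      (20 * ∑ i, ∑ j ∈ Finset.univ.erase i, lam (γ i / γ j) + finrank ℚ L * ((k : ℝ) ^ 2 * ψ)) := by
    linarith
  exact le_of_mul_le_mul_left h1 (by positivity)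

end Pool.Agent.V1156.RK
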