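import Mathlib
import Pool.Agent.V1156.RK.Main

/-!
# Relations over an algebraic field between monomials in the conjugates of a unit
-/

set_option autoImplicit false

open Finset Polynomial Module IntermediateField

namespace Pool.Agent.V1156.RK

open Pool.Agent.H388SL Pool.Agent.H196R3.LI

/-- a finite Galois extension which contains given algebraic numbers -/
lemma exists_field (T : Finset ℂ) (hT : ∀ t ∈ T, IsIntegral ℚ t) :
    ∃ (L : Type) (_ : Field L) (_ : NumberField L) (_ : IsGalois ℚ L) (v : L →ₐ[ℚ] ℂ),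
      ∀ t ∈ T, ∃ y : L, v y = t := by
  classical
  set P : ℚ[X] := ∏ t ∈ T, minpoly ℚ t with hP
  have hP0 : P ≠ 0 := Finset.prod_ne_zero_iff.mpr fun t ht => minpoly.ne_zero (hT t ht)
  have hsp : P.IsSplittingField ℚ (adjoin ℚ (P.rootSet ℂ)) :=
    adjoin_rootSet_isSplittingField (IsAlgClosed.splits _)
  have hn : Normal ℚ (adjoin ℚ (P.rootSet ℂ)) := Normal.of_isSplittingField P
  have hfin : FiniteDimensional ℚ (adjoin ℚ (P.rootSet ℂ)) :=
    IsSplittingField.finiteDimensional _ P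
  have hgal : IsGalois ℚ (adjoin ℚ (P.rootSet ℂ)) := ⟨⟩
  have hnf : NumberField (adjoin ℚ (P.rootSet ℂ)) :=
    { to_charZero := inferInstance, to_finiteDimensional := hfin }
  refine ⟨adjoin ℚ (P.rootSet ℂ), inferInstance, hnf, by convert! hgal,
    ((adjoin ℚ (P.rootSet ℂ)).val : adjoin ℚ (P.rootSet ℂ) →+* ℂ).toRatAlgHom, ?_⟩
  intro t ht
  refine ⟨⟨t, ?_⟩, rfl⟩
  apply subset_adjoin
  rw [Polynomial.mem_rootSet]
  refine ⟨hP0, ?_⟩
  rw [hP, map_prod]
  exact Finset.prod_eq_zero ht (minpoly.aeval ℚ t)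

variable {L : Type} [Field L] [NumberField L]

lemma monomial_bound {p : ℤ[X]} (hp : Irreducible p) (hm : p.Monic) (hc0 : |p.coeff 0| = 1)
    (v : L →ₐ[ℚ] ℂ) (hL : ∀ z : ℂ, aeval z p = 0 → ∃ y : L, v y = z) (l : List ℂ)
    (hl : ∀ z ∈ l, aeval z p = 0 ∨ aeval z⁻¹ p = 0) :
    ∃ y : L, v y = l.prod ∧ y ≠ 0 ∧ IsIntegral ℤ y ∧
      IsIntegral ℤ y⁻¹ ∧
      (p.natDegree : ℝ) * lam y ≤ l.length * (finrank ℚ L * Real.log (MM p)) := by
  classical
  have base : ∀ z : ℂ, aeval z p = 0 → ∃ y : L, v y = z ∧ y ≠ 0 ∧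
      IsIntegral ℤ y ∧ IsIntegral ℤ y⁻¹ ∧
      (p.natDegree : ℝ) * lam y = (finrank ℚ L * Real.log (MM p)) := by
    intro z hz
    obtain ⟨y, hyz⟩ := hL z hz
    have hy : aeval y p = 0 := by
      have h1 : v (aeval y p) = 0 := by
        rw [map_aevalZ, hyz]
        exact hz
      exact (map_eq_zero v).mp h1
    have h2 := inv_integral hm hc0 hy
    exact ⟨y, hyz, h2.1, ⟨p, hm, by rw [← Polynomial.aeval_def]; exact hy⟩, h2.2,
      lam_root hp hm hy⟩
  induction l with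
  | nil =>
    refine ⟨1, by simp, one_ne_zero, isIntegral_one, by rw [inv_one]; exact isIntegral_one, ?_⟩
    have h1 : lam (1 : L) = 0 := by
      unfold lam
      apply Finset.sum_eq_zero
      intro σ _
      rw [map_one, norm_one, max_self, Real.log_one]
    rw [h1]; simp
  | cons a l ih =>
    obtain ⟨y, hy1, hy2, hy3, hy4, hy5⟩ := ih (fun z hz => hl z (List.mem_cons_of_mem _ hz))
    have ha : ∃ w : L, v w = a ∧ w ≠ 0 ∧
      IsIntegral ℤ w ∧ IsIntegral ℤ w⁻¹ ∧
      (p.natDegree : ℝ) * lam w = (finrank ℚ L * Real.log (MM p)) := by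
      rcases hl a List.mem_cons_self with h | h
      · exact base a h
      · obtain ⟨w, hw1, hw2, hw3, hw4, hw5⟩ := base _ h
        refine ⟨w⁻¹, by rw [map_inv₀, hw1, inv_inv], inv_ne_zero hw2, hw4,
          by rw [inv_inv]; exact hw3, ?_⟩
        rw [lam_inv hw2 (prod_unit hw3 hw4 hw2)]
        exact hw5
    obtain ⟨w, hw1, hw2, hw3, hw4, hw5⟩ := ha
    refine ⟨w * y, by rw [map_mul, hw1, hy1, List.prod_cons], mul_ne_zero hw2 hy2,
      hw3.mul hy3, by rw [mul_inv]; exact hw4.mul hy4, ?_⟩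
    have h1 := lam_mul_le w y
    have h2 : (p.natDegree : ℝ) * lam (w * y) ≤ p.natDegree * (lam w + lam y) :=
      mul_le_mul_of_nonneg_left h1 (Nat.cast_nonneg _)
    rw [List.length_cons]
    push_cast
    nlinarith

/-- the degree over `F` is at most the number of the conjugates over `F ∩ L` -/
lemma degree_le_orb (F : IntermediateField ℚ ℂ) [IsGalois ℚ L] (v : L →ₐ[ℚ] ℂ) (β : L) :
    (minpoly F (v β)).natDegree ≤ (orb ((F.comap v).fixingSubgroup) β).card := by
  classical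
  set H := (F.comap v).fixingSubgroup with hH
  set Q : L[X] := ∏ z ∈ orb H β, (X - C z) with hQ
  have hperm : ∀ ρ ∈ H, Q.map (ρ : L ≃ₐ[ℚ] L).toRingEquiv.toRingHom = Q := by
    intro ρ hρ
    rw [hQ, Polynomial.map_prod]
    have h1 : ∀ z ∈ orb H β, (X - C z : L[X]).map (ρ : L ≃ₐ[ℚ] L).toRingEquiv.toRingHom =
        X - C (ρ z) := by
      intro z _
      rw [Polynomial.map_sub, Polynomial.map_X, Polynomial.map_C]
      rfl
    rw [Finset.prod_congr rfl h1]
    refine Finset.prod_bij (fun z _ => ρ z) ?_ ?_ ?_ ?_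
    · intro z hz
      obtain ⟨τ, hτ, rfl⟩ := mem_orb.mp hz
      exact mem_orb.mpr ⟨ρ * τ, H.mul_mem hρ hτ, rfl⟩
    · intro a _ b _ h
      exact ρ.injective h
    · intro z hz
      obtain ⟨τ, hτ, rfl⟩ := mem_orb.mp hz
      refine ⟨ρ⁻¹ (τ β), mem_orb.mpr ⟨ρ⁻¹ * τ, H.mul_mem (H.inv_mem hρ) hτ, rfl⟩, ?_⟩
      exact ρ.apply_symm_apply _
    · intro z _
      rfl
  have hcoef : ∀ n, Q.coeff n ∈ F.comap v := by
    intro n
    rw [← IsGalois.fixedField_fixingSubgroup (F.comap v), mem_fixedField_iff]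
    intro ρ hρ
    have h1 := congrArg (fun P : L[X] => P.coeff n) (hperm ρ hρ)
    simp only [Polynomial.coeff_map] at h1
    exact h1
  have hlift : Q.map (v : L →+* ℂ) ∈ Polynomial.lifts (algebraMap F ℂ) := by
    rw [Polynomial.lifts_iff_coeff_lifts]
    intro n
    rw [Polynomial.coeff_map]
    exact ⟨⟨v (Q.coeff n), hcoef n⟩, rfl⟩
  obtain ⟨QF, hQF⟩ := (Polynomial.mem_lifts _).mp hlift
  have hQm : Q.Monic := monic_prod_of_monic _ _ fun z _ => monic_X_sub_C z
  have hQFm : QF.Monic := by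
    have h1 : (QF.map (algebraMap F ℂ)).Monic := by rw [hQF]; exact hQm.map _
    exact Polynomial.monic_of_injective (algebraMap F ℂ).injective h1
  have hdeg : QF.natDegree = (orb H β).card := by
    have h1 : (QF.map (algebraMap F ℂ)).natDegree = (Q.map (v : L →+* ℂ)).natDegree := by
      rw [hQF]
    rw [hQFm.natDegree_map, hQm.natDegree_map, hQ,
      natDegree_prod_of_monic _ _ (fun z _ => monic_X_sub_C z)] at h1
    rw [h1]
    simp
  have hroot : aeval (v β) QF = 0 := by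
    rw [Polynomial.aeval_def, ← Polynomial.eval_map, hQF, hQ, Polynomial.map_prod,
      Polynomial.eval_prod]
    refine Finset.prod_eq_zero (i := β) (mem_orb.mpr ⟨1, H.one_mem, rfl⟩) ?_
    rw [Polynomial.map_sub, Polynomial.map_X, Polynomial.map_C, Polynomial.eval_sub,
      Polynomial.eval_X, Polynomial.eval_C]
    exact sub_self _
  rw [← hdeg]
  exact natDegree_le_of_dvd (minpoly.dvd F _ hroot) hQFm.ne_zero

/-- **the main inequality** -/
theorem rel_span (F : IntermediateField ℚ ℂ) (hF : ∀ x ∈ F, IsIntegral ℚ x) {p : ℤ[X]}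
    (hp : Irreducible p) (hm : p.Monic) (hc0 : |p.coeff 0| = 1) (S : Finset ℂ) (D : ℂ → ℕ)
    (hS : ∀ x ∈ S, ∃ l : List ℂ, l.length ≤ D x ∧ (∀ z ∈ l, aeval z p = 0 ∨ aeval z⁻¹ p = 0) ∧
      x = l.prod) {N : ℝ} (hN1 : 1 ≤ N)
    (hN : ∀ x ∈ S, ∀ y ∈ S, x ≠ y → N ≤ (minpoly F (x / y)).natDegree) :
    (p.natDegree : ℝ) * ((S.card : ℝ) - finrank F (Submodule.span F (S : Set ℂ))) ≤
      40 * S.card * (∑ x ∈ S, (D x : ℝ)) * Real.log (MM p) +
        p.natDegree * ((S.card : ℝ) ^ 2 * (2 * ((1 + 2 * Real.log (2 * N)) / N))) := by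
  classical
  have hlM : 0 ≤ Real.log (MM p) := Real.log_nonneg (one_le_MM hp.ne_zero)
  have hn0 : (0:ℝ) ≤ p.natDegree := Nat.cast_nonneg _
  have hlN : 0 ≤ Real.log (2 * N) := Real.log_nonneg (by linarith)
  rcases S.eq_empty_or_nonempty with hSe | hSne
  · subst hSe
    simp
    positivity
  -- a basis
  obtain ⟨B, hBS, hBspan, hBind⟩ := exists_linearIndependent F (S : Set ℂ)
  set Bf : Finset ℂ := S.filter (· ∈ B) with hBf
  have hBfB : (Bf : Set ℂ) = B := by
    ext x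
    rw [hBf, Finset.mem_coe, Finset.mem_filter]
    exact ⟨fun h => h.2, fun h => ⟨hBS h, h⟩⟩
  have hrank : finrank F (Submodule.span F (S : Set ℂ)) = Bf.card := by
    rw [← hBspan, ← hBfB]
    exact finrank_span_finset_eq_card (by rw [← hBfB] at hBind; exact hBind)
  have hexp : ∀ x ∈ S, ∃ f : ℂ → F, ∑ b ∈ Bf, (f b : ℂ) * b = x := by
    intro x hx
    have h1 : x ∈ Submodule.span F (Bf : Set ℂ) := by
      rw [hBfB, hBspan]
      exact Submodule.subset_span hx
    obtain ⟨f, -, hf⟩ := Submodule.mem_span_finset.mp h1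
    exact ⟨f, hf⟩
  choose! cf hcf using hexp
  -- the field
  have hpr0 : p.map (Int.castRingHom ℂ) ≠ 0 := (hm.map _).ne_zero
  set T : Finset ℂ := (p.map (Int.castRingHom ℂ)).roots.toFinset ∪
    (S ×ˢ Bf).image (fun q => ((cf q.1 q.2 : F) : ℂ)) with hT
  obtain ⟨L, hLf, hLnf, hLgal, v, hLT⟩ := exists_field T (by
    intro t ht
    rw [hT, Finset.mem_union] at ht
    rcases ht with h | h
    · rw [Multiset.mem_toFinset, mem_roots hpr0, IsRoot.def, eval_map] at h
      exact IsIntegral.tower_top (R := ℤ) ⟨p, hm, h⟩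
    · obtain ⟨q, -, rfl⟩ := Finset.mem_image.mp h
      exact hF _ (cf q.1 q.2).2)
  have hLroot : ∀ z : ℂ, aeval z p = 0 → ∃ y : L, v y = z := by
    intro z hz
    apply hLT
    rw [hT, Finset.mem_union]
    left
    rw [Multiset.mem_toFinset, mem_roots hpr0, IsRoot.def, eval_map]
    exact hz
  have hLc : ∀ x ∈ S, ∀ b ∈ Bf, ∃ y : L, v y = ((cf x b : F) : ℂ) := by
    intro x hx b hb
    apply hLT
    rw [hT, Finset.mem_union]
    right
    exact Finset.mem_image.mpr ⟨(x, b), Finset.mem_product.mpr ⟨hx, hb⟩, rfl⟩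
  set n : ℝ := (p.natDegree : ℝ) with hn
  set Tn : ℝ := finrank ℚ L * Real.log (MM p) with hTn
  have hd0 : (0:ℝ) < finrank ℚ L := by exact_mod_cast (finrank_pos : 0 < finrank ℚ L)
  have hT0 : 0 ≤ Tn := by positivity
  have hch : ∀ x : S, ∃ y : L, v y = x ∧ y ≠ 0 ∧ IsIntegral ℤ y ∧
      IsIntegral ℤ y⁻¹ ∧ n * lam y ≤ D x * Tn := by
    rintro ⟨x, hx⟩
    obtain ⟨l, hl1, hl2, hl3⟩ := hS x hx
    obtain ⟨y, hy1, hy2, hy3, hy4, hy5⟩ := monomial_bound hp hm hc0 v hLroot l hl2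
    refine ⟨y, by rw [hy1, ← hl3], hy2, hy3, hy4, hy5.trans ?_⟩
    have : (l.length : ℝ) ≤ D x := by exact_mod_cast hl1
    exact mul_le_mul_of_nonneg_right this hT0
  choose y hy1 hy2 hy3 hy4 hy5 using hch
  have hcex : ∀ x b : S, ∃ w : L, (b : ℂ) ∈ Bf → v w = cf x b := by
    intro x b
    by_cases hb : (b : ℂ) ∈ Bf
    · obtain ⟨w, hw⟩ := hLc x x.2 b hb
      exact ⟨w, fun _ => hw⟩
    · exact ⟨0, fun h => absurd h hb⟩
  choose c hcv using hcex
  set B' : Finset S := Finset.univ.filter (fun x : S => (x : ℂ) ∈ Bf) with hB'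
  have hB'card : B'.card = Bf.card := by
    refine Finset.card_bij (fun x _ => (x : ℂ)) ?_ ?_ ?_
    · intro x hx
      exact (Finset.mem_filter.mp hx).2
    · intro a _ b _ h
      exact Subtype.ext h
    · intro x hx
      exact ⟨⟨x, (Finset.mem_filter.mp hx).1⟩, Finset.mem_filter.mpr ⟨Finset.mem_univ _, hx⟩, rfl⟩
  have : Nonempty S := hSne.to_subtype
  have hmain := fld_main (ι := S) y hy2 (fun i j => by
      rw [div_eq_mul_inv]; exact (hy3 _).mul (hy4 _)) B' c (by
      intro i _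
      apply v.toRingHom.injective
      change v (y i) = v (∑ b ∈ B', c i b * y b)
      rw [hy1 i, map_sum]
      simp only [map_mul]
      conv_lhs => rw [← hcf i i.2]
      symm
      refine Finset.sum_bij (fun b _ => (b : ℂ)) ?_ ?_ ?_ ?_
      · intro b hb
        exact (Finset.mem_filter.mp hb).2
      · intro a _ b _ h
        exact Subtype.ext h
      · intro x hx
        exact ⟨⟨x, (Finset.mem_filter.mp hx).1⟩, Finset.mem_filter.mpr ⟨Finset.mem_univ _, hx⟩, rfl⟩
      · intro b hb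
        rw [hcv i b (Finset.mem_filter.mp hb).2, hy1 b])
    ((F.comap v).fixingSubgroup) (by
      intro ρ hρ i _ b hb
      rw [IntermediateField.mem_fixingSubgroup_iff] at hρ
      apply hρ
      change v (c i b) ∈ F
      rw [hcv i b (Finset.mem_filter.mp hb).2]
      exact (cf i b).2) hN1 (by
      intro i j hij
      have h1 : v (y i / y j) = (i : ℂ) / (j : ℂ) := by
        rw [map_div₀, hy1, hy1]
      have h2 := degree_le_orb F v (y i / y j)
      rw [h1] at h2
      have h3 := hN i i.2 j j.2 (fun h => hij (Subtype.ext h))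
      refine h3.trans ?_
      exact_mod_cast h2)
  rw [hB'card, Fintype.card_coe] at hmain
  -- heights
  have hpair : ∀ i j : S, n * lam (y i / y j) ≤ ((D i : ℝ) + D j) * Tn := by
    intro i j
    have h2 : lam (y i / y j) ≤ lam (y i) + lam (y j) := by
      rw [div_eq_mul_inv]
      refine (lam_mul_le _ _).trans ?_
      rw [lam_inv (hy2 _) (prod_unit (hy3 _) (hy4 _) (hy2 _))]
    have h3 := mul_le_mul_of_nonneg_left h2 hn0
    have h4 : n * lam (y i) ≤ D i * Tn := hy5 _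
    have h5 : n * lam (y j) ≤ D j * Tn := hy5 _
    linarith
  have hsum : n * ∑ i, ∑ j ∈ Finset.univ.erase i, lam (y i / y j) ≤
      2 * S.card * (∑ x ∈ S, (D x : ℝ)) * Tn := by
    have hΔ : ∑ i : S, (D i : ℝ) = ∑ x ∈ S, (D x : ℝ) :=
      Finset.sum_coe_sort S (fun x => (D x : ℝ))
    calc n * ∑ i, ∑ j ∈ Finset.univ.erase i, lam (y i / y j)
        = ∑ i, ∑ j ∈ Finset.univ.erase i, n * lam (y i / y j) := by
          simp only [Finset.mul_sum]
      _ ≤ ∑ i : S, ∑ j ∈ Finset.univ.erase i, ((D i : ℝ) + D j) * Tn :=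
          Finset.sum_le_sum fun i _ => Finset.sum_le_sum fun j _ => hpair i j
      _ ≤ ∑ i : S, ∑ j : S, ((D i : ℝ) + D j) * Tn := by
          refine Finset.sum_le_sum fun i _ => ?_
          exact Finset.sum_le_sum_of_subset_of_nonneg (Finset.subset_univ _)
            (fun _ _ _ => by positivity)
      _ = 2 * S.card * (∑ x ∈ S, (D x : ℝ)) * Tn := by
          simp only [← Finset.sum_mul, Finset.sum_add_distrib, Finset.sum_const, Finset.card_univ,
            Fintype.card_coe, nsmul_eq_mul, ← Finset.mul_sum, hΔ]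
          ring
  rw [hrank]
  have h1 := mul_le_mul_of_nonneg_left hmain hn0
  have h2 : (finrank ℚ L : ℝ) * (n * ((S.card : ℝ) - Bf.card)) ≤ finrank ℚ L *
      (40 * S.card * (∑ x ∈ S, (D x : ℝ)) * Real.log (MM p) +
        n * ((S.card : ℝ) ^ 2 * (2 * ((1 + 2 * Real.log (2 * N)) / N)))) := by
    calc (finrank ℚ L : ℝ) * (n * ((S.card : ℝ) - Bf.card))
        = n * (((S.card : ℝ) - Bf.card) * finrank ℚ L) := by ring
      _ ≤ _ := h1
      _ = 20 * (n * ∑ i, ∑ j ∈ Finset.univ.erase i, lam (y i / y j)) +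
          finrank ℚ L * (n * ((S.card : ℝ) ^ 2 * (2 * ((1 + 2 * Real.log (2 * N)) / N)))) := by ring
      _ ≤ 20 * (2 * S.card * (∑ x ∈ S, (D x : ℝ)) * Tn) +
          finrank ℚ L * (n * ((S.card : ℝ) ^ 2 * (2 * ((1 + 2 * Real.log (2 * N)) / N)))) := by
          gcongr
      _ = _ := by rw [hTn]; ring
  exact le_of_mul_le_mul_left h2 hd0

end Pool.Agent.V1156.RK
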