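import Mathlib
import Pool.Agent.V1156.RK.Rel
import Pool.Agent.V1156.RK.Ab

/-!
# Relations over `K(μ_∞)` between monomials in the conjugates of a unit
-/

set_option autoImplicit false

open Finset Polynomial Module IntermediateField

namespace Pool.Agent.V1156.RK

open Pool.Agent.H388SL Pool.Agent.H196R3.LI
open Pool.Agent.Y947.RL (QAb hgt)

lemma integral_sup (K : IntermediateField ℚ ℂ) [FiniteDimensional ℚ K] :
    ∀ x ∈ (K ⊔ QAb : IntermediateField ℚ ℂ), IsIntegral ℚ x := by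
  have h1 : ∀ z : ℂ, z ∈ (K : Set ℂ) ∪ {z : ℂ | ∃ n : ℕ, 0 < n ∧ z ^ n = 1} → IsIntegral ℚ z := by
    rintro z (hz | ⟨n, hn, hz⟩)
    · have h2 : IsIntegral ℚ (⟨z, hz⟩ : K) := Algebra.IsIntegral.isIntegral _
      exact h2.map K.val
    · exact IsIntegral.of_pow hn (by rw [hz]; exact isIntegral_one)
  have h2 : Algebra.IsAlgebraic ℚ
      (adjoin ℚ ((K : Set ℂ) ∪ {z : ℂ | ∃ n : ℕ, 0 < n ∧ z ^ n = 1})) :=
    isAlgebraic_adjoin h1
  have h3 : (K ⊔ QAb : IntermediateField ℚ ℂ) ≤
      adjoin ℚ ((K : Set ℂ) ∪ {z : ℂ | ∃ n : ℕ, 0 < n ∧ z ^ n = 1}) := by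
    refine sup_le ?_ ?_
    · intro z hz
      exact subset_adjoin _ _ (Or.inl hz)
    · exact adjoin.mono _ _ _ Set.subset_union_right
  intro x hx
  have h4 := (h2.isAlgebraic ⟨x, h3 hx⟩).isIntegral
  exact h4.map (adjoin ℚ ((K : Set ℂ) ∪ {z : ℂ | ∃ n : ℕ, 0 < n ∧ z ^ n = 1})).val

/-- the height of a monomial -/
lemma hgt_monomial {p : ℤ[X]} (hp : Irreducible p) (hm : p.Monic) (hc0 : |p.coeff 0| = 1)
    (l : List ℂ) (hl : ∀ z ∈ l, aeval z p = 0 ∨ aeval z⁻¹ p = 0) :
    IsIntegral ℤ l.prod ∧ l.prod ≠ 0 ∧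
      p.natDegree * hgt l.prod ≤ l.length * Real.log (MM p) := by
  classical
  have hpr0 : p.map (Int.castRingHom ℂ) ≠ 0 := (hm.map _).ne_zero
  obtain ⟨L, hLf, hLnf, hLgal, v, hLT⟩ := exists_field (p.map (Int.castRingHom ℂ)).roots.toFinset (by
    intro t ht
    rw [Multiset.mem_toFinset, mem_roots hpr0, IsRoot.def, eval_map] at ht
    exact IsIntegral.tower_top (R := ℤ) ⟨p, hm, ht⟩)
  have hLroot : ∀ z : ℂ, aeval z p = 0 → ∃ y : L, v y = z := by
    intro z hz
    apply hLT
    rw [Multiset.mem_toFinset, mem_roots hpr0, IsRoot.def, eval_map]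
    exact hz
  obtain ⟨y, hy1, hy2, hy3, hy4, hy5⟩ := monomial_bound hp hm hc0 v hLroot l hl
  have hi : IsIntegral ℤ l.prod := by
    rw [← hy1]
    exact hy3.map (v.restrictScalars ℤ)
  have hd0 : (0:ℝ) < finrank ℚ L := by exact_mod_cast (finrank_pos : 0 < finrank ℚ L)
  refine ⟨hi, ?_, ?_⟩
  · rw [← hy1]
    exact (_root_.map_ne_zero v).mpr hy2
  · have hroot : aeval y (minpoly ℤ l.prod) = 0 := by
      have h1 : v (aeval y (minpoly ℤ l.prod)) = 0 := by
        rw [map_aevalZ, hy1]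
        exact minpoly.aeval ℤ _
      exact (map_eq_zero v).mp h1
    have h1 := lam_root (minpoly.irreducible hi) (minpoly.monic hi) hroot
    have hdeg : (0:ℝ) < (minpoly ℤ l.prod).natDegree := by exact_mod_cast minpoly.natDegree_pos hi
    have h2 : lam y = finrank ℚ L * hgt l.prod := by
      have h3 : hgt l.prod = Real.log (MM (minpoly ℤ l.prod)) / (minpoly ℤ l.prod).natDegree := rfl
      rw [h3, mul_div_assoc', eq_div_iff hdeg.ne', mul_comm]
      exact h1
    rw [h2] at hy5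
    have h3 : (finrank ℚ L : ℝ) * (p.natDegree * hgt l.prod) ≤ finrank ℚ L *
        (l.length * Real.log (MM p)) := by
      calc (finrank ℚ L : ℝ) * (p.natDegree * hgt l.prod)
          = p.natDegree * (finrank ℚ L * hgt l.prod) := by ring
        _ ≤ _ := hy5
        _ = _ := by ring
    exact le_of_mul_le_mul_left h3 hd0

lemma real_N {k : ℝ} (hk : 1 ≤ k) :
    4 * k ^ 2 * (1 + 2 * Real.log (2 * (64 * (k ^ 2 * (1 + Real.log k))))) ≤
      64 * (k ^ 2 * (1 + Real.log k)) := by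
  have hk0 : 0 < k := by linarith
  have hl : 0 ≤ Real.log k := Real.log_nonneg hk
  have h1 : Real.log (2 * (64 * (k ^ 2 * (1 + Real.log k)))) =
      Real.log 128 + 2 * Real.log k + Real.log (1 + Real.log k) := by
    have : 2 * (64 * (k ^ 2 * (1 + Real.log k))) = 128 * k ^ 2 * (1 + Real.log k) := by ring
    rw [this, Real.log_mul (by positivity) (by positivity), Real.log_mul (by norm_num) (by positivity),
      Real.log_pow]
    push_cast
    ring
  have h2 : Real.log 128 ≤ 5 := by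
    have : (128:ℝ) = 2 ^ 7 := by norm_num
    rw [this, Real.log_pow]
    have := Real.log_two_lt_d9
    push_cast
    linarith
  have h3 : Real.log (1 + Real.log k) ≤ Real.log k := by
    have := Real.log_le_sub_one_of_pos (show 0 < 1 + Real.log k by linarith)
    linarith
  rw [h1]
  have h4 : 1 + 2 * (Real.log 128 + 2 * Real.log k + Real.log (1 + Real.log k)) ≤
      16 * (1 + Real.log k) := by linarith
  calc 4 * k ^ 2 * (1 + 2 * (Real.log 128 + 2 * Real.log k + Real.log (1 + Real.log k)))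
      ≤ 4 * k ^ 2 * (16 * (1 + Real.log k)) := by gcongr
    _ = _ := by ring

/-- **few monomials over `K(μ_∞)`** -/
theorem few : ∃ c : ℝ, 0 < c ∧ ∀ (K : IntermediateField ℚ ℂ) [FiniteDimensional ℚ K] (p : ℤ[X]),
    Irreducible p → p.Monic → |p.coeff 0| = 1 → ∀ (S : Finset ℂ) (Δ : ℕ),
    (∀ x ∈ S, ∃ l : List ℂ, l.length ≤ Δ ∧ (∀ z ∈ l, aeval z p = 0 ∨ aeval z⁻¹ p = 0) ∧
      x = l.prod) →
    (∀ x ∈ S, ∀ y ∈ S, x ≠ y → ∀ m : ℕ, 0 < m → x ^ m ≠ y ^ m) →
    finrank (K ⊔ QAb : IntermediateField ℚ ℂ)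
      (Submodule.span (K ⊔ QAb : IntermediateField ℚ ℂ) (S : Set ℂ)) < S.card →
    c / ((finrank ℚ K : ℝ) * ((S.card : ℝ) ^ 2 * (1 + Real.log S.card))) ^ 7 ≤
      Δ * (Real.log (MM p) / p.natDegree) := by
  classical
  obtain ⟨c0, hc0, hdob⟩ := ab_dob
  refine ⟨min (1 / 80) (c0 / (2 * 64 ^ 7)), by positivity, ?_⟩
  intro K _ p hp hm hpc S Δ hS htor hdep
  set F : IntermediateField ℚ ℂ := K ⊔ QAb with hF
  have hK1 : (1:ℝ) ≤ finrank ℚ K := by exact_mod_cast (finrank_pos : 0 < finrank ℚ K)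
  set nK : ℝ := (finrank ℚ K : ℝ) with hnK
  have hk1 : (1:ℝ) ≤ S.card := by
    have : 1 ≤ S.card := by omega
    exact_mod_cast this
  set k : ℝ := (S.card : ℝ) with hk
  have hk0 : 0 < k := by linarith
  have hl : 0 ≤ Real.log k := Real.log_nonneg hk1
  have hn0 : (0:ℝ) < p.natDegree := by
    have : p.natDegree ≠ 0 := by
      intro h
      have := hm.natDegree_eq_zero.mp h
      exact hp.not_isUnit (this ▸ isUnit_one)
    exact_mod_cast Nat.pos_of_ne_zero this
  have hlM : 0 ≤ Real.log (MM p) := Real.log_nonneg (one_le_MM hp.ne_zero)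
  set N : ℝ := 64 * (k ^ 2 * (1 + Real.log k)) with hN
  have hN1 : 1 ≤ N := by
    rw [hN]
    nlinarith [one_le_pow₀ hk1 (n := 2), mul_nonneg (sq_nonneg k) hl]
  have hN0 : 0 < N := by linarith
  have hbase : 1 ≤ nK * (k ^ 2 * (1 + Real.log k)) := by
    have h1 : 1 ≤ k ^ 2 * (1 + Real.log k) := by
      nlinarith [one_le_pow₀ hk1 (n := 2), mul_nonneg (sq_nonneg k) hl]
    nlinarith
  have hk2 : k ^ 2 ≤ nK * (k ^ 2 * (1 + Real.log k)) := by
    have h1 : k ^ 2 ≤ k ^ 2 * (1 + Real.log k) := by nlinarith [mul_nonneg (sq_nonneg k) hl]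
    nlinarith [sq_nonneg k]
  set A : ℝ := nK * (k ^ 2 * (1 + Real.log k)) with hA
  have hA7 : A ≤ A ^ 7 := le_self_pow₀ hbase (by norm_num)
  by_cases hall : ∀ x ∈ S, ∀ y ∈ S, x ≠ y → N ≤ (minpoly F (x / y)).natDegree
  · have h1 := rel_span F (integral_sup K) hp hm hpc S (fun _ => Δ) hS hN1 hall
    have h2 : ∑ x ∈ S, (((fun _ => Δ : ℂ → ℕ) x : ℕ) : ℝ) = k * Δ := by simp [hk]
    rw [h2, ← hk] at h1
    have h3 : (1:ℝ) ≤ k - finrank F (Submodule.span F (S : Set ℂ)) := by
      have h4 : finrank F (Submodule.span F (S : Set ℂ)) + 1 ≤ S.card := hdep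
      have h5 : ((finrank F (Submodule.span F (S : Set ℂ)) : ℕ) : ℝ) + 1 ≤ S.card := by
        exact_mod_cast h4
      linarith
    have h4 : k ^ 2 * (2 * ((1 + 2 * Real.log (2 * N)) / N)) ≤ 1 / 2 := by
      have h5 := real_N hk1
      rw [← hN] at h5
      have h6 : k ^ 2 * (2 * ((1 + 2 * Real.log (2 * N)) / N)) =
          (4 * k ^ 2 * (1 + 2 * Real.log (2 * N))) / (2 * N) := by
        field_simp
        ring
      rw [h6, div_le_iff₀ (by positivity)]
      linarith
    have h5 : (p.natDegree : ℝ) / 2 ≤ 40 * k * (k * Δ) * Real.log (MM p) := by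
      have h6 : (p.natDegree : ℝ) * 1 ≤ p.natDegree * (k - finrank F (Submodule.span F (S : Set ℂ))) :=
        mul_le_mul_of_nonneg_left h3 hn0.le
      have h7 : (p.natDegree : ℝ) * (k ^ 2 * (2 * ((1 + 2 * Real.log (2 * N)) / N))) ≤
          p.natDegree * (1 / 2) := mul_le_mul_of_nonneg_left h4 hn0.le
      linarith
    have h6 : 1 / (80 * k ^ 2) ≤ Δ * (Real.log (MM p) / p.natDegree) := by
      rw [mul_div_assoc', div_le_div_iff₀ (by positivity) hn0]
      nlinarith
    refine le_trans ?_ h6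
    calc min (1 / 80) (c0 / (2 * 64 ^ 7)) / A ^ 7 ≤ (1 / 80) / k ^ 2 := by
          gcongr
          · exact min_le_left _ _
          · exact hk2.trans hA7
      _ = 1 / (80 * k ^ 2) := by field_simp
  · push Not at hall
    obtain ⟨x, hx, y, hy, hxy, hlt⟩ := hall
    obtain ⟨lx, hlx1, hlx2, hlx3⟩ := hS x hx
    obtain ⟨ly, hly1, hly2, hly3⟩ := hS y hy
    set l : List ℂ := lx ++ ly.map (·⁻¹) with hldef
    have hlprod : l.prod = x / y := by
      rw [hldef, List.prod_append, ← hlx3, hly3, div_eq_mul_inv, List.prod_inv]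
    have hlen : (l.length : ℝ) ≤ 2 * Δ := by
      rw [hldef, List.length_append, List.length_map]
      have : lx.length + ly.length ≤ 2 * Δ := by omega
      exact_mod_cast this
    obtain ⟨hi, hne, hh⟩ := hgt_monomial hp hm hpc l (by
      intro z hz
      rw [hldef, List.mem_append] at hz
      rcases hz with h | h
      · exact hlx2 z h
      · obtain ⟨w, hw, rfl⟩ := List.mem_map.mp h
        rcases hly2 w hw with h2 | h2
        · right
          rw [inv_inv]
          exact h2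
        · left
          exact h2)
    rw [hlprod] at hi hne hh
    have hy0 : y ≠ 0 := by
      intro h
      rw [h, div_zero] at hne
      exact hne rfl
    have h1 := hdob (x / y) hi hne (by
      intro n hn h
      rw [div_pow, div_eq_one_iff_eq (pow_ne_zero n hy0)] at h
      exact htor x hx y hy hxy n hn h) K
    have hdpos : (0:ℝ) < (minpoly F (x / y)).natDegree := by
      exact_mod_cast minpoly.natDegree_pos (hi.tower_top : IsIntegral F (x / y))
    have h2 : c0 / (64 * A) ^ 7 ≤ hgt (x / y) := by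
      refine le_trans ?_ h1
      have h9 : nK * ((minpoly F (x / y)).natDegree : ℝ) ≤ 64 * A := by
        calc nK * ((minpoly F (x / y)).natDegree : ℝ) ≤ nK * N :=
              mul_le_mul_of_nonneg_left hlt.le (by linarith)
          _ = 64 * A := by rw [hN, hA]; ring
      have h10 : 0 < nK * ((minpoly F (x / y)).natDegree : ℝ) := by positivity
      exact div_le_div_of_nonneg_left hc0.le (by positivity) (pow_le_pow_left₀ h10.le h9 7)
    have h3 : (p.natDegree : ℝ) * hgt (x / y) ≤ 2 * Δ * Real.log (MM p) :=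
      hh.trans (mul_le_mul_of_nonneg_right hlen hlM)
    have h4 : hgt (x / y) / 2 ≤ Δ * (Real.log (MM p) / p.natDegree) := by
      rw [mul_div_assoc', div_le_div_iff₀ (by norm_num) hn0]
      linarith
    refine le_trans ?_ h4
    have h5 : c0 / (64 * A) ^ 7 / 2 ≤ hgt (x / y) / 2 := by linarith
    refine le_trans ?_ h5
    calc min (1 / 80) (c0 / (2 * 64 ^ 7)) / A ^ 7 ≤ (c0 / (2 * 64 ^ 7)) / A ^ 7 := by
          gcongr
          exact min_le_right _ _
      _ = c0 / (64 * A) ^ 7 / 2 := by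
          have hA0 : A ≠ 0 := by linarith
          clear_value A
          rw [mul_pow]
          field_simp

end Pool.Agent.V1156.RK
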