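import Mathlib
import Pool.Agent.V1156.RK.Few

/-!
# Relations over `K(μ_∞)` between algebraic units
-/

set_option autoImplicit false

open Finset Polynomial Module IntermediateField

namespace Pool.Agent.V1156.RK

open Pool.Agent.H388SL Pool.Agent.H196R3.LI
open Pool.Agent.Y947.RL (QAb hgt)

lemma lam_eq_hgt {L : Type} [Field L] [NumberField L] (v : L →ₐ[ℚ] ℂ) {y : L}
    (hy : IsIntegral ℤ y) : lam y = finrank ℚ L * hgt (v y) := by
  have hi : IsIntegral ℤ (v y) := hy.map (v.restrictScalars ℤ)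
  have hroot : aeval y (minpoly ℤ (v y)) = 0 := by
    have h1 : v (aeval y (minpoly ℤ (v y))) = 0 := by
      rw [map_aevalZ]
      exact minpoly.aeval ℤ _
    exact (map_eq_zero v).mp h1
  have h1 := lam_root (minpoly.irreducible hi) (minpoly.monic hi) hroot
  have hdeg : (0:ℝ) < (minpoly ℤ (v y)).natDegree := by exact_mod_cast minpoly.natDegree_pos hi
  have h3 : hgt (v y) = Real.log (MM (minpoly ℤ (v y))) / (minpoly ℤ (v y)).natDegree := rfl
  rw [h3, mul_div_assoc', eq_div_iff hdeg.ne', mul_comm]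
  exact h1

/-- **the main inequality for units** -/
theorem uni_span (F : IntermediateField ℚ ℂ) (hF : ∀ x ∈ F, IsIntegral ℚ x) (S : Finset ℂ)
    (hS : ∀ x ∈ S, x ≠ 0 ∧ IsIntegral ℤ x ∧ IsIntegral ℤ x⁻¹) {N : ℝ} (hN1 : 1 ≤ N)
    (hN : ∀ x ∈ S, ∀ y ∈ S, x ≠ y → N ≤ (minpoly F (x / y)).natDegree) {H : ℝ} (hH0 : 0 ≤ H)
    (hH : ∀ x ∈ S, ∀ y ∈ S, x ≠ y → hgt (x / y) ≤ H) :
    (S.card : ℝ) - finrank F (Submodule.span F (S : Set ℂ)) ≤
      20 * ((S.card : ℝ) ^ 2 * H) +
        (S.card : ℝ) ^ 2 * (2 * ((1 + 2 * Real.log (2 * N)) / N)) := by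
  classical
  have hlN : 0 ≤ Real.log (2 * N) := Real.log_nonneg (by linarith)
  rcases S.eq_empty_or_nonempty with hSe | hSne
  · subst hSe
    simp
  -- a basis
  obtain ⟨B, hBS, hBspan, hBind⟩ := exists_linearIndependent F (S : Set ℂ)
  set Bf : Finset ℂ := S.filter (· ∈ B) with hBf
  have hBfB : (Bf : Set ℂ) = B := by
    ext x
    rw [hBf, Finset.mem_coe, Finset.mem_filter]
    exact ⟨fun h => h.2, fun h => ⟨hBS h, h⟩⟩
  have hrank : finrank F (Submodule.span F (S : Set ℂ)) = Bf.card := by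
    rw [← hBspan, ← hBfB]
    exact finrank_span_finset_eq_card (by rw [← hBfB] at hBind; exact hBind)
  have hexp : ∀ x ∈ S, ∃ f : ℂ → F, ∑ b ∈ Bf, (f b : ℂ) * b = x := by
    intro x hx
    have h1 : x ∈ Submodule.span F (Bf : Set ℂ) := by
      rw [hBfB, hBspan]
      exact Submodule.subset_span hx
    obtain ⟨f, -, hf⟩ := Submodule.mem_span_finset.mp h1
    exact ⟨f, hf⟩
  choose! cf hcf using hexp
  -- the field
  set T : Finset ℂ := S ∪ (S ×ˢ Bf).image (fun q => ((cf q.1 q.2 : F) : ℂ)) with hT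
  obtain ⟨L, hLf, hLnf, hLgal, v, hLT⟩ := exists_field T (by
    intro t ht
    rw [hT, Finset.mem_union] at ht
    rcases ht with h | h
    · exact (hS t h).2.1.tower_top
    · obtain ⟨q, -, rfl⟩ := Finset.mem_image.mp h
      exact hF _ (cf q.1 q.2).2)
  have hLc : ∀ x ∈ S, ∀ b ∈ Bf, ∃ y : L, v y = ((cf x b : F) : ℂ) := by
    intro x hx b hb
    apply hLT
    rw [hT, Finset.mem_union]
    right
    exact Finset.mem_image.mpr ⟨(x, b), Finset.mem_product.mpr ⟨hx, hb⟩, rfl⟩
  have hd0 : (0:ℝ) < finrank ℚ L := by exact_mod_cast (finrank_pos : 0 < finrank ℚ L)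
  have hint : ∀ y : L, IsIntegral ℤ (v y) → IsIntegral ℤ y := fun y hy =>
    (isIntegral_algHom_iff (v.restrictScalars ℤ) v.toRingHom.injective).mp hy
  have hch : ∀ x : S, ∃ y : L, v y = x ∧ y ≠ 0 ∧ IsIntegral ℤ y ∧ IsIntegral ℤ y⁻¹ := by
    rintro ⟨x, hx⟩
    obtain ⟨h0, h1, h2⟩ := hS x hx
    obtain ⟨y, hy⟩ := hLT x (by rw [hT, Finset.mem_union]; exact Or.inl hx)
    refine ⟨y, hy, ?_, hint y (by rw [hy]; exact h1), hint y⁻¹ (by rw [map_inv₀, hy]; exact h2)⟩
    intro h
    apply h0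
    rw [← hy, h, map_zero]
  choose y hy1 hy2 hy3 hy4 using hch
  have hcex : ∀ x b : S, ∃ w : L, (b : ℂ) ∈ Bf → v w = cf x b := by
    intro x b
    by_cases hb : (b : ℂ) ∈ Bf
    · obtain ⟨w, hw⟩ := hLc x x.2 b hb
      exact ⟨w, fun _ => hw⟩
    · exact ⟨0, fun h => absurd h hb⟩
  choose c hcv using hcex
  set B' : Finset S := Finset.univ.filter (fun x : S => (x : ℂ) ∈ Bf) with hB'
  have hB'card : B'.card = Bf.card := by
    refine Finset.card_bij (fun x _ => (x : ℂ)) ?_ ?_ ?_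
    · intro x hx
      exact (Finset.mem_filter.mp hx).2
    · intro a _ b _ h
      exact Subtype.ext h
    · intro x hx
      exact ⟨⟨x, (Finset.mem_filter.mp hx).1⟩, Finset.mem_filter.mpr ⟨Finset.mem_univ _, hx⟩, rfl⟩
  have : Nonempty S := hSne.to_subtype
  have hmain := fld_main (ι := S) y hy2 (fun i j => by
      rw [div_eq_mul_inv]; exact (hy3 _).mul (hy4 _)) B' c (by
      intro i _
      apply v.toRingHom.injective
      change v (y i) = v (∑ b ∈ B', c i b * y b)
      rw [hy1 i, map_sum]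
      simp only [map_mul]
      conv_lhs => rw [← hcf i i.2]
      symm
      refine Finset.sum_bij (fun b _ => (b : ℂ)) ?_ ?_ ?_ ?_
      · intro b hb
        exact (Finset.mem_filter.mp hb).2
      · intro a _ b _ h
        exact Subtype.ext h
      · intro x hx
        exact ⟨⟨x, (Finset.mem_filter.mp hx).1⟩, Finset.mem_filter.mpr ⟨Finset.mem_univ _, hx⟩, rfl⟩
      · intro b hb
        rw [hcv i b (Finset.mem_filter.mp hb).2, hy1 b])
    ((F.comap v).fixingSubgroup) (by
      intro ρ hρ i _ b hb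
      rw [IntermediateField.mem_fixingSubgroup_iff] at hρ
      apply hρ
      change v (c i b) ∈ F
      rw [hcv i b (Finset.mem_filter.mp hb).2]
      exact (cf i b).2) hN1 (by
      intro i j hij
      have h1 : v (y i / y j) = (i : ℂ) / (j : ℂ) := by
        rw [map_div₀, hy1, hy1]
      have h2 := degree_le_orb F v (y i / y j)
      rw [h1] at h2
      have h3 := hN i i.2 j j.2 (fun h => hij (Subtype.ext h))
      refine h3.trans ?_
      exact_mod_cast h2)
  rw [hB'card, Fintype.card_coe] at hmain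
  have hpair : ∀ i j : S, i ≠ j → lam (y i / y j) ≤ finrank ℚ L * H := by
    intro i j hij
    have h1 : IsIntegral ℤ (y i / y j) := by
      rw [div_eq_mul_inv]; exact (hy3 _).mul (hy4 _)
    rw [lam_eq_hgt v h1, map_div₀, hy1, hy1]
    exact mul_le_mul_of_nonneg_left (hH i i.2 j j.2 (fun h => hij (Subtype.ext h))) hd0.le
  have hsum : ∑ i, ∑ j ∈ Finset.univ.erase i, lam (y i / y j) ≤
      (S.card : ℝ) ^ 2 * (finrank ℚ L * H) := by
    calc ∑ i, ∑ j ∈ Finset.univ.erase i, lam (y i / y j)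
        ≤ ∑ i : S, ∑ j ∈ Finset.univ.erase i, (finrank ℚ L * H) :=
          Finset.sum_le_sum fun i _ => Finset.sum_le_sum fun j hj =>
            hpair i j (Finset.ne_of_mem_erase hj).symm
      _ ≤ ∑ i : S, ∑ j : S, (finrank ℚ L * H) := by
          refine Finset.sum_le_sum fun i _ => ?_
          exact Finset.sum_le_sum_of_subset_of_nonneg (Finset.subset_univ _)
            (fun _ _ _ => by positivity)
      _ = (S.card : ℝ) ^ 2 * (finrank ℚ L * H) := by
          simp only [Finset.sum_const, Finset.card_univ, Fintype.card_coe, nsmul_eq_mul]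
          ring
  rw [hrank]
  have h2 : ((S.card : ℝ) - Bf.card) * finrank ℚ L ≤ (20 * ((S.card : ℝ) ^ 2 * H) +
        (S.card : ℝ) ^ 2 * (2 * ((1 + 2 * Real.log (2 * N)) / N))) * finrank ℚ L := by
    refine hmain.trans ?_
    have h3 := mul_le_mul_of_nonneg_left hsum (by norm_num : (0:ℝ) ≤ 20)
    linarith
  exact le_of_mul_le_mul_right h2 hd0

/-- **units which are linearly dependent over `K(μ_∞)`** -/
theorem uni_few : ∃ c : ℝ, 0 < c ∧ ∀ (K : IntermediateField ℚ ℂ) [FiniteDimensional ℚ K]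
    (S : Finset ℂ), (∀ x ∈ S, x ≠ 0 ∧ IsIntegral ℤ x ∧ IsIntegral ℤ x⁻¹) →
    (∀ x ∈ S, ∀ y ∈ S, x ≠ y → ∀ m : ℕ, 0 < m → x ^ m ≠ y ^ m) →
    finrank (K ⊔ QAb : IntermediateField ℚ ℂ)
      (Submodule.span (K ⊔ QAb : IntermediateField ℚ ℂ) (S : Set ℂ)) < S.card →
    ∃ x ∈ S, ∃ y ∈ S, x ≠ y ∧
      c / ((finrank ℚ K : ℝ) * ((S.card : ℝ) ^ 2 * (1 + Real.log S.card))) ^ 7 ≤ hgt (x / y) := by
  classical
  obtain ⟨c0, hc0, hdob⟩ := ab_dob
  refine ⟨min (1 / 80) (c0 / 64 ^ 7), by positivity, ?_⟩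
  intro K _ S hS htor hdep
  set F : IntermediateField ℚ ℂ := K ⊔ QAb with hF
  have hK1 : (1:ℝ) ≤ finrank ℚ K := by exact_mod_cast (finrank_pos : 0 < finrank ℚ K)
  set nK : ℝ := (finrank ℚ K : ℝ) with hnK
  have hk1 : (1:ℝ) ≤ S.card := by
    have : 1 ≤ S.card := by omega
    exact_mod_cast this
  set k : ℝ := (S.card : ℝ) with hk
  have hk0 : 0 < k := by linarith
  have hl : 0 ≤ Real.log k := Real.log_nonneg hk1
  set N : ℝ := 64 * (k ^ 2 * (1 + Real.log k)) with hN
  have hN1 : 1 ≤ N := by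
    rw [hN]
    nlinarith [one_le_pow₀ hk1 (n := 2), mul_nonneg (sq_nonneg k) hl]
  have hN0 : 0 < N := by linarith
  have hbase : 1 ≤ nK * (k ^ 2 * (1 + Real.log k)) := by
    have h1 : 1 ≤ k ^ 2 * (1 + Real.log k) := by
      nlinarith [one_le_pow₀ hk1 (n := 2), mul_nonneg (sq_nonneg k) hl]
    nlinarith
  have hk2 : k ^ 2 ≤ nK * (k ^ 2 * (1 + Real.log k)) := by
    have h1 : k ^ 2 ≤ k ^ 2 * (1 + Real.log k) := by nlinarith [mul_nonneg (sq_nonneg k) hl]
    nlinarith [sq_nonneg k]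
  set A : ℝ := nK * (k ^ 2 * (1 + Real.log k)) with hA
  have hA7 : A ≤ A ^ 7 := le_self_pow₀ hbase (by norm_num)
  have hA0 : 0 < A := by linarith
  set H : ℝ := min (1 / 80) (c0 / 64 ^ 7) / A ^ 7 with hH
  have hH0 : 0 ≤ H := by positivity
  by_contra hcon
  push Not at hcon
  by_cases hall : ∀ x ∈ S, ∀ y ∈ S, x ≠ y → N ≤ (minpoly F (x / y)).natDegree
  · have h1 := uni_span F (integral_sup K) S hS hN1 hall hH0
      (fun x hx y hy hxy => (hcon x hx y hy hxy).le)
    rw [← hk] at h1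
    have h3 : (1:ℝ) ≤ k - finrank F (Submodule.span F (S : Set ℂ)) := by
      have h4 : finrank F (Submodule.span F (S : Set ℂ)) + 1 ≤ S.card := hdep
      have h5 : ((finrank F (Submodule.span F (S : Set ℂ)) : ℕ) : ℝ) + 1 ≤ S.card := by
        exact_mod_cast h4
      linarith
    have h4 : k ^ 2 * (2 * ((1 + 2 * Real.log (2 * N)) / N)) ≤ 1 / 2 := by
      have h5 := real_N hk1
      rw [← hN] at h5
      have h6 : k ^ 2 * (2 * ((1 + 2 * Real.log (2 * N)) / N)) =
          (4 * k ^ 2 * (1 + 2 * Real.log (2 * N))) / (2 * N) := by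
        field_simp
        ring
      rw [h6, div_le_iff₀ (by positivity)]
      linarith
    have h5 : k ^ 2 * H ≤ 1 / 80 := by
      have h6 : H ≤ (1 / 80) / k ^ 2 := by
        rw [hH]
        gcongr
        · exact min_le_left _ _
        · exact hk2.trans hA7
      calc k ^ 2 * H ≤ k ^ 2 * ((1 / 80) / k ^ 2) := by gcongr
        _ = 1 / 80 := by field_simp
    linarith
  · push Not at hall
    obtain ⟨x, hx, y, hy, hxy, hlt⟩ := hall
    obtain ⟨hx0, hx1, hx2⟩ := hS x hx
    obtain ⟨hy0, hy1, hy2⟩ := hS y hy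
    have hi : IsIntegral ℤ (x / y) := by
      rw [div_eq_mul_inv]
      exact hx1.mul hy2
    have h1 := hdob (x / y) hi (div_ne_zero hx0 hy0) (by
      intro n hn h
      rw [div_pow, div_eq_one_iff_eq (pow_ne_zero n hy0)] at h
      exact htor x hx y hy hxy n hn h) K
    have hdpos : (0:ℝ) < (minpoly F (x / y)).natDegree := by
      exact_mod_cast minpoly.natDegree_pos (hi.tower_top : IsIntegral F (x / y))
    have h2 : c0 / (64 * A) ^ 7 ≤ hgt (x / y) := by
      refine le_trans ?_ h1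
      have h9 : nK * ((minpoly F (x / y)).natDegree : ℝ) ≤ 64 * A := by
        calc nK * ((minpoly F (x / y)).natDegree : ℝ) ≤ nK * N :=
              mul_le_mul_of_nonneg_left hlt.le (by linarith)
          _ = 64 * A := by rw [hN, hA]; ring
      have h10 : 0 < nK * ((minpoly F (x / y)).natDegree : ℝ) := by positivity
      exact div_le_div_of_nonneg_left hc0.le (by positivity) (pow_le_pow_left₀ h10.le h9 7)
    have h3 := hcon x hx y hy hxy
    have h4 : H ≤ c0 / (64 * A) ^ 7 := by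
      calc H ≤ (c0 / 64 ^ 7) / A ^ 7 := by
            rw [hH]
            gcongr
            exact min_le_right _ _
        _ = c0 / (64 * A) ^ 7 := by
            clear_value A
            rw [mul_pow]
            field_simp
    linarith

end Pool.Agent.V1156.RK
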