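import Mathlib
import Pool.Agent.V1156.RK.Uni

/-!
# Heights of monomials in several units
-/

set_option autoImplicit false

open Finset Polynomial Module IntermediateField

namespace Pool.Agent.V1156.RK

open Pool.Agent.H388SL Pool.Agent.H196R3.LI
open Pool.Agent.Y947.RL (QAb hgt)

lemma lam_one' {L : Type} [Field L] [NumberField L] : lam (1 : L) = 0 := by
  unfold lam
  apply Finset.sum_eq_zero
  intro σ _
  rw [map_one, norm_one, max_self, Real.log_one]

lemma lam_pow_le {L : Type} [Field L] [NumberField L] (y : L) (n : ℕ) :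
    lam (y ^ n) ≤ n * lam y := by
  induction n with
  | zero => rw [pow_zero, lam_one']; simp
  | succ n ih =>
    rw [pow_succ]
    refine (lam_mul_le _ _).trans ?_
    push_cast
    linarith

lemma lam_pow_div_le {L : Type} [Field L] [NumberField L] {y : L} (h0 : y ≠ 0)
    (h1 : IsIntegral ℤ y) (h2 : IsIntegral ℤ y⁻¹) {a b d : ℕ} (ha : a ≤ d) (hb : b ≤ d) :
    lam (y ^ a / y ^ b) ≤ d * lam y := by
  rcases le_total b a with h | h
  · have h3 : y ^ a / y ^ b = y ^ (a - b) := by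
      rw [div_eq_iff (pow_ne_zero b h0), ← pow_add]
      congr 1
      omega
    rw [h3]
    refine (lam_pow_le y _).trans ?_
    have h4 : ((a - b : ℕ) : ℝ) ≤ d := by exact_mod_cast (Nat.sub_le a b).trans ha
    exact mul_le_mul_of_nonneg_right h4 (lam_nonneg y)
  · have h3 : y ^ a / y ^ b = (y ^ (b - a))⁻¹ := by
      rw [div_eq_iff (pow_ne_zero b h0), eq_comm, inv_mul_eq_iff_eq_mul₀ (pow_ne_zero _ h0),
        ← pow_add]
      congr 1
      omega
    rw [h3, lam_inv (pow_ne_zero _ h0) (prod_unit (h1.pow _) (by rw [← inv_pow]; exact h2.pow _)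
      (pow_ne_zero _ h0))]
    refine (lam_pow_le y _).trans ?_
    have h4 : ((b - a : ℕ) : ℝ) ≤ d := by exact_mod_cast (Nat.sub_le b a).trans hb
    exact mul_le_mul_of_nonneg_right h4 (lam_nonneg y)

lemma lam_prod_le {L : Type} [Field L] [NumberField L] {ι : Type} (s : Finset ι) (g : ι → L) :
    lam (∏ j ∈ s, g j) ≤ ∑ j ∈ s, lam (g j) := by
  classical
  induction s using Finset.induction_on with
  | empty => rw [Finset.prod_empty, Finset.sum_empty, lam_one']
  | insert a s ha ih =>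
    rw [Finset.prod_insert ha, Finset.sum_insert ha]
    refine (lam_mul_le _ _).trans ?_
    linarith

/-- the height of a quotient of two monomials in units -/
lemma hgt_monomials {ι : Type} [Fintype ι] (x : ι → ℂ)
    (hx : ∀ j, x j ≠ 0 ∧ IsIntegral ℤ (x j) ∧ IsIntegral ℤ (x j)⁻¹) (a b d : ι → ℕ)
    (ha : ∀ j, a j ≤ d j) (hb : ∀ j, b j ≤ d j) :
    hgt ((∏ j, x j ^ a j) / ∏ j, x j ^ b j) ≤ ∑ j, (d j : ℝ) * hgt (x j) := by
  classical
  obtain ⟨L, hLf, hLnf, hLgal, v, hLT⟩ := exists_field (Finset.univ.image x) (by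
    intro t ht
    obtain ⟨j, -, rfl⟩ := Finset.mem_image.mp ht
    exact (hx j).2.1.tower_top)
  have hd0 : (0:ℝ) < finrank ℚ L := by exact_mod_cast (finrank_pos : 0 < finrank ℚ L)
  have hint : ∀ y : L, IsIntegral ℤ (v y) → IsIntegral ℤ y := fun y hy =>
    (isIntegral_algHom_iff (v.restrictScalars ℤ) v.toRingHom.injective).mp hy
  have hch : ∀ j, ∃ y : L, v y = x j := fun j =>
    hLT _ (Finset.mem_image.mpr ⟨j, Finset.mem_univ _, rfl⟩)
  choose y hy using hch
  have hy0 : ∀ j, y j ≠ 0 := by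
    intro j h
    apply (hx j).1
    rw [← hy j, h, map_zero]
  have hy1 : ∀ j, IsIntegral ℤ (y j) := fun j => hint _ (by rw [hy]; exact (hx j).2.1)
  have hy2 : ∀ j, IsIntegral ℤ (y j)⁻¹ := fun j => hint _ (by rw [map_inv₀, hy]; exact (hx j).2.2)
  have h1 : v (∏ j, (y j ^ a j / y j ^ b j)) = (∏ j, x j ^ a j) / ∏ j, x j ^ b j := by
    rw [map_prod, ← Finset.prod_div_distrib]
    refine Finset.prod_congr rfl fun j _ => ?_
    rw [map_div₀, map_pow, map_pow, hy]
  have h2 : IsIntegral ℤ (∏ j, (y j ^ a j / y j ^ b j)) := by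
    refine IsIntegral.prod _ fun j _ => ?_
    rw [div_eq_mul_inv, ← inv_pow]
    exact ((hy1 j).pow _).mul ((hy2 j).pow _)
  have h3 := lam_eq_hgt v h2
  rw [h1] at h3
  have h4 : lam (∏ j, (y j ^ a j / y j ^ b j)) ≤ finrank ℚ L * ∑ j, (d j : ℝ) * hgt (x j) := by
    refine (lam_prod_le _ _).trans ?_
    rw [Finset.mul_sum]
    refine Finset.sum_le_sum fun j _ => ?_
    refine (lam_pow_div_le (hy0 j) (hy1 j) (hy2 j) (ha j) (hb j)).trans (le_of_eq ?_)
    rw [lam_eq_hgt v (hy1 j), hy]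
    ring
  rw [h3] at h4
  exact le_of_mul_le_mul_left h4 hd0

end Pool.Agent.V1156.RK
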