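import Mathlib
import Pool.Agent.V1156.RK.Hyp

/-!
# Merging monomials with torsion quotients
-/

set_option autoImplicit false

open Finset Polynomial Module IntermediateField

namespace Pool.Agent.V1156.RK

open Pool.Agent.H388SL Pool.Agent.H196R3.LI
open Pool.Agent.Y947.RL (QAb hgt)

lemma merge {ι : Type} [DecidableEq ι] (s : Finset ι) (u : ι → ℂ) (hu : ∀ i, u i ≠ 0) :
    ∃ (R : Finset ι) (rep : ι → ι) (ζ : ι → ℂ), R ⊆ s ∧
      (∀ i ∈ s, rep i ∈ R ∧ (∃ r : ℕ, 0 < r ∧ ζ i ^ r = 1) ∧ u i = ζ i * u (rep i)) ∧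
      (∀ i ∈ R, ∀ j ∈ R, i ≠ j → ∀ r : ℕ, 0 < r → u i ^ r ≠ u j ^ r) := by
  induction s using Finset.induction_on with
  | empty => exact ⟨∅, id, 1, le_rfl, by simp, by simp⟩
  | insert a s ha ih =>
    obtain ⟨R, rep, ζ, hRs, h1, h2⟩ := ih
    by_cases hex : ∃ j ∈ R, ∃ r : ℕ, 0 < r ∧ u a ^ r = u j ^ r
    · obtain ⟨j, hj, r, hr, hjr⟩ := hex
      refine ⟨R, Function.update rep a j, Function.update ζ a (u a / u j),
        hRs.trans (Finset.subset_insert a s), ?_, h2⟩
      intro i hi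
      rcases Finset.mem_insert.mp hi with rfl | hi'
      · rw [Function.update_self, Function.update_self]
        refine ⟨hj, ⟨r, hr, ?_⟩, ?_⟩
        · rw [div_pow, hjr, div_self (pow_ne_zero _ (hu j))]
        · rw [div_mul_cancel₀ _ (hu j)]
      · have hne : i ≠ a := fun h => ha (h ▸ hi')
        rw [Function.update_of_ne hne, Function.update_of_ne hne]
        exact h1 i hi'
    · push Not at hex
      refine ⟨insert a R, Function.update rep a a, Function.update ζ a 1,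
        Finset.insert_subset_insert a hRs, ?_, ?_⟩
      · intro i hi
        rcases Finset.mem_insert.mp hi with rfl | hi'
        · rw [Function.update_self, Function.update_self]
          exact ⟨Finset.mem_insert_self _ _, ⟨1, one_pos, one_pow 1⟩, (one_mul _).symm⟩
        · have hne : i ≠ a := fun h => ha (h ▸ hi')
          rw [Function.update_of_ne hne, Function.update_of_ne hne]
          obtain ⟨h3, h4⟩ := h1 i hi'
          exact ⟨Finset.mem_insert_of_mem h3, h4⟩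
      · intro i hi j hj hij r hr
        rcases Finset.mem_insert.mp hi with rfl | hi'
        · rcases Finset.mem_insert.mp hj with rfl | hj'
          · exact absurd rfl hij
          · exact hex j hj' r hr
        · rcases Finset.mem_insert.mp hj with rfl | hj'
          · exact fun h => hex i hi' r hr h.symm
          · exact h2 i hi' j hj' hij r hr

lemma torsion_mem (K : IntermediateField ℚ ℂ) {z : ℂ} (hz : ∃ r : ℕ, 0 < r ∧ z ^ r = 1) :
    z ∈ (K ⊔ QAb : IntermediateField ℚ ℂ) := by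
  have h1 : (QAb : IntermediateField ℚ ℂ) ≤ K ⊔ QAb := le_sup_right
  exact h1 (IntermediateField.subset_adjoin _ _ hz)

/-- the number `(d k² (1 + log k))⁷` is monotone in `k` -/
lemma B_mono {d : ℝ} (hd : 0 ≤ d) {k l : ℕ} (hk : 1 ≤ k) (hkl : k ≤ l) :
    (d * ((k : ℝ) ^ 2 * (1 + Real.log k))) ^ 7 ≤ (d * ((l : ℝ) ^ 2 * (1 + Real.log l))) ^ 7 := by
  have h1 : (1:ℝ) ≤ k := by exact_mod_cast hk
  have h2 : (k:ℝ) ≤ l := by exact_mod_cast hkl
  have h3 : Real.log k ≤ Real.log l := Real.log_le_log (by linarith) h2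
  have h4 : 0 ≤ Real.log k := Real.log_nonneg h1
  gcongr

/-- **points on hypersurfaces over `K(μ_∞)`** -/
theorem hyp_few : ∃ c : ℝ, 0 < c ∧ ∀ (K : IntermediateField ℚ ℂ) [FiniteDimensional ℚ K] (n : ℕ)
    (x : Fin n → ℂ), (∀ j, x j ≠ 0 ∧ IsIntegral ℤ (x j) ∧ IsIntegral ℤ (x j)⁻¹) →
    ∀ f : MvPolynomial (Fin n) (K ⊔ QAb : IntermediateField ℚ ℂ), MvPolynomial.aeval x f = 0 →
    ∀ y : Fin n → ℂ, (∀ m ∈ f.support, ∀ m' ∈ f.support, ∀ ζ : ℂ, (∃ r : ℕ, 0 < r ∧ ζ ^ r = 1) →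
      ∏ j, x j ^ m j = ζ * ∏ j, x j ^ m' j → ∏ j, y j ^ m j = ζ * ∏ j, y j ^ m' j) →
    MvPolynomial.aeval y f ≠ 0 →
    c / ((finrank ℚ K : ℝ) * ((f.support.card : ℝ) ^ 2 * (1 + Real.log f.support.card))) ^ 7 ≤
      ∑ j, (f.degreeOf j : ℝ) * hgt (x j) := by
  classical
  obtain ⟨c, hc, hu⟩ := uni_few
  refine ⟨c, hc, ?_⟩
  intro K _ n x hx
  have hu := hu K
  have htm : ∀ z : ℂ, (∃ r : ℕ, 0 < r ∧ z ^ r = 1) → z ∈ (K ⊔ QAb : IntermediateField ℚ ℂ) :=
    fun z hz => torsion_mem K hz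
  generalize (K ⊔ QAb : IntermediateField ℚ ℂ) = E at hu htm ⊢
  intro f hfx y hy hfy
  set mon : (Fin n →₀ ℕ) → ℂ := fun m => ∏ j, x j ^ m j with hmon
  set mony : (Fin n →₀ ℕ) → ℂ := fun m => ∏ j, y j ^ m j with hmony
  have hmon0 : ∀ m, mon m ≠ 0 := fun m =>
    Finset.prod_ne_zero_iff.mpr fun j _ => pow_ne_zero _ (hx j).1
  obtain ⟨R, rep, ζ, hRs, h1, h2⟩ := merge f.support mon hmon0
  -- the torsion factors in `E`
  have hz : ∃ z : (Fin n →₀ ℕ) → E, ∀ i ∈ f.support, (z i : ℂ) = ζ i := by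
    refine ⟨fun i => if h : ζ i ∈ E then ⟨ζ i, h⟩ else 0, fun i hi => ?_⟩
    have h3 : ζ i ∈ E := htm _ (h1 i hi).2.1
    simp only [h3, dif_pos]
  obtain ⟨z, hz⟩ := hz
  set A : (Fin n →₀ ℕ) → E := fun j => ∑ i ∈ f.support.filter (fun i => rep i = j),
    f.coeff i * z i with hA
  have hsum : ∀ (w : Fin n → ℂ), (∀ i ∈ f.support, ∏ j, w j ^ i j = ζ i * ∏ j, w j ^ (rep i) j) →
      MvPolynomial.aeval w f = ∑ j ∈ R, (A j : ℂ) * ∏ l, w l ^ j l := by
    intro w hw
    rw [MvPolynomial.aeval_def, MvPolynomial.eval₂_eq']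
    have h3 : ∀ i ∈ f.support, (algebraMap E ℂ) (f.coeff i) * ∏ l, w l ^ i l =
        ((f.coeff i * z i : E) : ℂ) * ∏ l, w l ^ (rep i) l := by
      intro i hi
      rw [hw i hi]
      push_cast
      rw [hz i hi, mul_assoc]
      rfl
    rw [Finset.sum_congr rfl h3, ← Finset.sum_fiberwise_of_maps_to (fun i hi => (h1 i hi).1)]
    refine Finset.sum_congr rfl fun j _ => ?_
    rw [hA]
    push_cast
    rw [Finset.sum_mul]
    refine Finset.sum_congr rfl fun i hi => ?_
    rw [(Finset.mem_filter.mp hi).2]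
  have hsx := hsum x (fun i hi => (h1 i hi).2.2)
  have hsy := hsum y (fun i hi => hy i hi (rep i) (hRs (h1 i hi).1) (ζ i) (h1 i hi).2.1
    (h1 i hi).2.2)
  rw [hfx] at hsx
  have hAne : ∃ j ∈ R, A j ≠ 0 := by
    by_contra hcon
    push Not at hcon
    apply hfy
    rw [hsy]
    refine Finset.sum_eq_zero fun j hj => ?_
    rw [hcon j hj]
    simp
  have hinj : Set.InjOn mon R := by
    intro m hm m' hm' he
    by_contra hne
    exact h2 m hm m' hm' hne 1 one_pos (by rw [pow_one, pow_one]; exact he)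
  set S : Finset ℂ := R.image mon with hS
  have hcard : S.card = R.card := Finset.card_image_of_injOn hinj
  have hdep : finrank E (Submodule.span E (S : Set ℂ)) < S.card := by
    have hdep : ¬ LinearIndependent E (fun m : R => mon m) := by
      rw [Fintype.linearIndependent_iff]
      intro hli
      obtain ⟨m, hm, hAm⟩ := hAne
      have h3 := hli (fun i => A i) (by
        have h4 : ∑ i : R, A (i : Fin n →₀ ℕ) • mon i = ∑ i ∈ R, A i • mon i :=
          Finset.sum_coe_sort R (fun i => A i • mon i)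
        rw [h4, hsx]
        refine Finset.sum_congr rfl fun i _ => ?_
        rw [Algebra.smul_def]
        rfl) ⟨m, hm⟩
      exact hAm h3
    rw [linearIndependent_iff_card_le_finrank_span, not_le] at hdep
    have h5 : Set.range (fun m : R => mon m) = (S : Set ℂ) := by
      ext z
      rw [hS, Finset.coe_image, Set.mem_image, Set.mem_range]
      constructor
      · rintro ⟨j, rfl⟩
        exact ⟨j, j.2, rfl⟩
      · rintro ⟨j, hj, rfl⟩
        exact ⟨⟨j, hj⟩, rfl⟩
    rw [h5, Fintype.card_coe, ← hcard] at hdep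
    exact hdep
  have hprodint : ∀ (y : Fin n → ℂ), (∀ j, IsIntegral ℤ (y j)) → ∀ m : Fin n →₀ ℕ,
      IsIntegral ℤ (∏ j, y j ^ m j) := fun y hy m => IsIntegral.prod _ fun j _ => (hy j).pow _
  obtain ⟨z', hz', w, hw, hzw, hh⟩ := hu S (by
    intro z hz
    obtain ⟨m, hm, rfl⟩ := Finset.mem_image.mp hz
    refine ⟨hmon0 m, hprodint x (fun j => (hx j).2.1) m, ?_⟩
    have h1 := hprodint (fun j => (x j)⁻¹) (fun j => (hx j).2.2) m
    simp only [inv_pow, Finset.prod_inv_distrib] at h1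
    exact h1) (by
    intro z hz w hw hzw r hr
    obtain ⟨m, hm, rfl⟩ := Finset.mem_image.mp hz
    obtain ⟨m', hm', rfl⟩ := Finset.mem_image.mp hw
    exact h2 m hm m' hm' (fun he => hzw (by rw [he])) r hr) hdep
  obtain ⟨m, hm, rfl⟩ := Finset.mem_image.mp hz'
  obtain ⟨m', hm', rfl⟩ := Finset.mem_image.mp hw
  have h3 := hgt_monomials x hx (fun j => m j) (fun j => m' j)
    (fun j => f.degreeOf j) (fun j => MvPolynomial.monomial_le_degreeOf j (hRs hm))
    (fun j => MvPolynomial.monomial_le_degreeOf j (hRs hm'))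
  refine le_trans ?_ (hh.trans h3)
  rw [hcard]
  have hR1 : 1 ≤ R.card := Finset.card_pos.mpr ⟨m, hm⟩
  have hK0 : (0:ℝ) < finrank ℚ K := by exact_mod_cast (finrank_pos : 0 < finrank ℚ K)
  have hR1' : (1:ℝ) ≤ R.card := by exact_mod_cast hR1
  have hl : 0 ≤ Real.log R.card := Real.log_nonneg hR1'
  have hpos : 0 < ((finrank ℚ K : ℝ) * ((R.card : ℝ) ^ 2 * (1 + Real.log R.card))) ^ 7 := by
    have : 0 < (R.card : ℝ) := by linarith
    positivity
  exact div_le_div_of_nonneg_left hc.le hpos (B_mono hK0.le hR1 (Finset.card_le_card hRs))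

end Pool.Agent.V1156.RK
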