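import Mathlib
import Pool.Agent.V1156.RK.Main

/-!
# Mean squares and norms of linear combinations of units over a subfield
-/

set_option autoImplicit false

open Finset Module

namespace Pool.Agent.V1156.RK

/-- the quadratic form of the Gram matrix -/
lemma gram_form {ι : Type} [Fintype ι] [DecidableEq ι] {S : Type*} [Fintype S] [Nonempty S]
    (a : ι → ℂ) (u : ι → S → ℂ) (hu : ∀ j s, ‖u j s‖ = 1) {A θ : ℝ} (hA : A = ∑ j, ‖a j‖ ^ 2)
    (hA0 : 0 < A) (hθ : 0 < θ) {X : ℝ}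
    (hX : X = ∑ j, ∑ l ∈ Finset.univ.erase j, ‖∑ s, u j s * starRingEnd ℂ (u l s)‖ ^ 2) :
    |∑ s, ‖∑ j, a j * u j s‖ ^ 2 - Fintype.card S * A| ≤
      A * (θ * Fintype.card S / 2 + X / (2 * θ * Fintype.card S)) := by
  classical
  have hdpos : (0:ℝ) < Fintype.card S := by exact_mod_cast Fintype.card_pos
  set d : ℝ := (Fintype.card S : ℝ) with hd
  set G : ι → ι → ℂ := fun j l => ∑ s, u j s * starRingEnd ℂ (u l s) with hG
  have e1 : ∑ s, ‖∑ j, a j * u j s‖ ^ 2 = ∑ j, ∑ l, (a j * starRingEnd ℂ (a l) * G j l).re := by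
    have h2 : ((∑ s, ‖∑ j, a j * u j s‖ ^ 2 : ℝ) : ℂ) =
        ∑ j, ∑ l, a j * starRingEnd ℂ (a l) * G j l := by
      rw [Complex.ofReal_sum]
      calc ∑ s, ((‖∑ j, a j * u j s‖ ^ 2 : ℝ) : ℂ)
          = ∑ s, ∑ j, ∑ l, a j * starRingEnd ℂ (a l) * (u j s * starRingEnd ℂ (u l s)) := by
            refine Finset.sum_congr rfl fun s _ => ?_
            rw [← Complex.normSq_eq_norm_sq, ← Complex.mul_conj, map_sum, Finset.sum_mul_sum]
            refine Finset.sum_congr rfl fun j _ => Finset.sum_congr rfl fun l _ => ?_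
            rw [map_mul]
            ring
        _ = ∑ j, ∑ l, a j * starRingEnd ℂ (a l) * G j l := by
            rw [Finset.sum_comm]
            refine Finset.sum_congr rfl fun j _ => ?_
            rw [Finset.sum_comm]
            refine Finset.sum_congr rfl fun l _ => ?_
            rw [hG, Finset.mul_sum]
    have h4 := congrArg Complex.re h2
    rw [Complex.ofReal_re, Complex.re_sum] at h4
    rw [h4]
    refine Finset.sum_congr rfl fun j _ => ?_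
    rw [Complex.re_sum]
  have ediag : ∀ j, G j j = d := by
    intro j
    have h1 : ∀ s, u j s * starRingEnd ℂ (u j s) = 1 := by
      intro s
      rw [Complex.mul_conj, Complex.normSq_eq_norm_sq, hu]
      simp
    rw [hG]
    simp only [h1]
    simp [hd]
  have e2 : ∑ s, ‖∑ j, a j * u j s‖ ^ 2 - d * A =
      ∑ j, ∑ l ∈ Finset.univ.erase j, (a j * starRingEnd ℂ (a l) * G j l).re := by
    rw [e1]
    have h1 : ∀ j, ∑ l, (a j * starRingEnd ℂ (a l) * G j l).re = d * ‖a j‖ ^ 2 +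
        ∑ l ∈ Finset.univ.erase j, (a j * starRingEnd ℂ (a l) * G j l).re := by
      intro j
      rw [← Finset.add_sum_erase _ _ (Finset.mem_univ j), ediag, Complex.mul_conj,
        Complex.normSq_eq_norm_sq]
      congr 1
      rw [← Complex.ofReal_mul, Complex.ofReal_re, mul_comm]
    rw [Finset.sum_congr rfl (fun j _ => h1 j), Finset.sum_add_distrib, ← Finset.mul_sum, hA]
    ring
  rw [e2]
  have h1 : ∀ j l, |(a j * starRingEnd ℂ (a l) * G j l).re| ≤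
      θ * d / (2 * A) * (‖a j‖ ^ 2 * ‖a l‖ ^ 2) + A / (2 * θ * d) * ‖G j l‖ ^ 2 := by
    intro j l
    have h2 : |(a j * starRingEnd ℂ (a l) * G j l).re| ≤ ‖a j‖ * ‖a l‖ * ‖G j l‖ := by
      refine (Complex.abs_re_le_norm _).trans (le_of_eq ?_)
      rw [norm_mul, norm_mul, RCLike.norm_conj]
    refine h2.trans ?_
    have h3 : θ * d / (2 * A) * (‖a j‖ ^ 2 * ‖a l‖ ^ 2) + A / (2 * θ * d) * ‖G j l‖ ^ 2 -
        ‖a j‖ * ‖a l‖ * ‖G j l‖ =
        (θ * d * (‖a j‖ * ‖a l‖) - A * ‖G j l‖) ^ 2 / (2 * A * θ * d) := by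
      field_simp
      ring
    have h4 : 0 ≤ (θ * d * (‖a j‖ * ‖a l‖) - A * ‖G j l‖) ^ 2 / (2 * A * θ * d) := by positivity
    linarith
  calc |∑ j, ∑ l ∈ Finset.univ.erase j, (a j * starRingEnd ℂ (a l) * G j l).re|
      ≤ ∑ j, ∑ l ∈ Finset.univ.erase j, |(a j * starRingEnd ℂ (a l) * G j l).re| :=
        (Finset.abs_sum_le_sum_abs _ _).trans
          (Finset.sum_le_sum fun j _ => Finset.abs_sum_le_sum_abs _ _)
    _ ≤ ∑ j, ∑ l ∈ Finset.univ.erase j,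
          (θ * d / (2 * A) * (‖a j‖ ^ 2 * ‖a l‖ ^ 2) + A / (2 * θ * d) * ‖G j l‖ ^ 2) :=
        Finset.sum_le_sum fun j _ => Finset.sum_le_sum fun l _ => h1 j l
    _ = θ * d / (2 * A) * (∑ j, ∑ l ∈ Finset.univ.erase j, ‖a j‖ ^ 2 * ‖a l‖ ^ 2) +
          A / (2 * θ * d) * X := by
        rw [hX]
        simp only [Finset.sum_add_distrib, ← Finset.mul_sum, hG]
    _ ≤ θ * d / (2 * A) * (A * A) + A / (2 * θ * d) * X := by
        have h5 : ∑ j, ∑ l ∈ Finset.univ.erase j, ‖a j‖ ^ 2 * ‖a l‖ ^ 2 ≤ A * A := by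
          calc ∑ j, ∑ l ∈ Finset.univ.erase j, ‖a j‖ ^ 2 * ‖a l‖ ^ 2
              ≤ ∑ j, ∑ l, ‖a j‖ ^ 2 * ‖a l‖ ^ 2 := by
                refine Finset.sum_le_sum fun j _ => ?_
                exact Finset.sum_le_sum_of_subset_of_nonneg (Finset.erase_subset _ _)
                  (fun _ _ _ => by positivity)
            _ = A * A := by rw [hA, Finset.sum_mul_sum]
        gcongr
    _ = A * (θ * d / 2 + X / (2 * θ * d)) := by
        field_simp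

/-- the deviation caused by the absolute values -/
lemma dev {ι : Type} [Fintype ι] [Nonempty ι] (a : ι → ℂ) {A : ℝ} (hA : A = ∑ j, ‖a j‖ ^ 2)
    (r : ι → ℝ) (u : ι → ℂ) (hu : ∀ j, ‖u j‖ = 1) :
    ∃ (j1 : ι) (T : ℂ), (∀ j, r j ≤ r j1) ∧
      ∑ j, a j * (((Real.exp (r j) : ℝ) : ℂ) * u j) = ((Real.exp (r j1) : ℝ) : ℂ) * T ∧
      ‖T‖ ^ 2 ≤ Fintype.card ι * A ∧
      ‖∑ j, a j * u j - T‖ ^ 2 ≤ A * ∑ j, ∑ l, |r j - r l| := by
  classical
  obtain ⟨m0, -, hm⟩ := Finset.exists_max_image (Finset.univ : Finset ι) r Finset.univ_nonempty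
  have hm' : ∀ j, 0 ≤ r m0 - r j := fun j => sub_nonneg.mpr (hm j (Finset.mem_univ j))
  set w : ι → ℝ := fun j => Real.exp (-(r m0 - r j)) with hw
  have hw0 : ∀ j, 0 ≤ w j := fun j => (Real.exp_pos _).le
  have hw1 : ∀ j, w j ≤ 1 := fun j => Real.exp_le_one_iff.mpr (by linarith [hm' j])
  have hw2 : ∀ j, 1 - w j ≤ r m0 - r j := by
    intro j
    have := Real.add_one_le_exp (-(r m0 - r j))
    simp only [hw]
    linarith
  have cs : ∀ (b : ι → ℝ), (∀ j, 0 ≤ b j) →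
      ‖∑ j, a j * (((b j : ℝ) : ℂ) * u j)‖ ^ 2 ≤ A * ∑ j, b j ^ 2 := by
    intro b hb
    have h1 : ‖∑ j, a j * (((b j : ℝ) : ℂ) * u j)‖ ≤ ∑ j, ‖a j‖ * b j := by
      refine (norm_sum_le _ _).trans (le_of_eq ?_)
      refine Finset.sum_congr rfl fun j _ => ?_
      rw [norm_mul, norm_mul, hu, mul_one, Complex.norm_real, Real.norm_of_nonneg (hb j)]
    calc ‖∑ j, a j * (((b j : ℝ) : ℂ) * u j)‖ ^ 2 ≤ (∑ j, ‖a j‖ * b j) ^ 2 :=
          pow_le_pow_left₀ (norm_nonneg _) h1 2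
      _ ≤ (∑ j, ‖a j‖ ^ 2) * ∑ j, b j ^ 2 := Finset.sum_mul_sq_le_sq_mul_sq _ _ _
      _ = _ := by rw [hA]
  have hA0 : 0 ≤ A := by rw [hA]; exact Finset.sum_nonneg fun _ _ => by positivity
  refine ⟨m0, ∑ j, a j * (((w j : ℝ) : ℂ) * u j), fun j => hm j (Finset.mem_univ j), ?_, ?_, ?_⟩
  · rw [Finset.mul_sum]
    refine Finset.sum_congr rfl fun j _ => ?_
    have h1 : Real.exp (r j) = Real.exp (r m0) * w j := by
      rw [hw, ← Real.exp_add]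
      congr 1
      ring
    rw [h1]
    push_cast
    ring
  · refine (cs w hw0).trans ?_
    rw [mul_comm]
    apply mul_le_mul_of_nonneg_right _ hA0
    calc ∑ j, w j ^ 2 ≤ ∑ _j : ι, (1:ℝ) := by
          refine Finset.sum_le_sum fun j _ => ?_
          exact pow_le_one₀ (hw0 j) (hw1 j)
      _ = Fintype.card ι := by simp
  · have h1 : ∑ j, a j * u j - ∑ j, a j * (((w j : ℝ) : ℂ) * u j) =
        ∑ j, a j * (((1 - w j : ℝ) : ℂ) * u j) := by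
      rw [← Finset.sum_sub_distrib]
      refine Finset.sum_congr rfl fun j _ => ?_
      push_cast
      ring
    rw [h1]
    refine (cs (fun j => 1 - w j) (fun j => by linarith [hw1 j])).trans ?_
    apply mul_le_mul_of_nonneg_left _ hA0
    refine Finset.sum_le_sum fun j _ => ?_
    have h7 : (1 - w j) ^ 2 ≤ r m0 - r j := by nlinarith [hw0 j, hw1 j, hw2 j]
    have h8 : |r j - r m0| ≤ ∑ l, |r j - r l| :=
      Finset.single_le_sum (f := fun l => |r j - r l|) (fun l _ => abs_nonneg _) (Finset.mem_univ m0)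
    have h9 : r m0 - r j ≤ |r j - r m0| := by
      rw [abs_sub_comm]; exact le_abs_self _
    linarith

/-- the lower bound at one point -/
lemma pt_lower {ι : Type} [Fintype ι] [Nonempty ι] (a : ι → ℂ) {A : ℝ} (hA : A = ∑ j, ‖a j‖ ^ 2)
    (r : ι → ℝ) (u : ι → ℂ) (hu : ∀ j, ‖u j‖ = 1) (j0 : ι) {θ : ℝ} (hθ : 0 < θ) (hθ1 : θ ≤ 1) :
    (1 - θ) * ‖∑ j, a j * u j‖ ^ 2 - A * ((∑ j, ∑ l, |r j - r l|) / θ) -
        A * (2 * Fintype.card ι * |r j0|) ≤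
      ‖∑ j, a j * (((Real.exp (r j) : ℝ) : ℂ) * u j)‖ ^ 2 := by
  obtain ⟨j1, T, hj1, e1, h2, h3⟩ := dev a hA r u hu
  rw [e1, norm_mul, mul_pow, Complex.norm_real, Real.norm_of_nonneg (Real.exp_pos _).le]
  set P := ∑ j, a j * u j with hP
  set R := ∑ j, ∑ l, |r j - r l| with hR
  have hA0 : 0 ≤ A := by rw [hA]; exact Finset.sum_nonneg fun _ _ => by positivity
  have hT0 := sq_nonneg ‖T‖
  have h4 : (1 - θ) * ‖P‖ ^ 2 - A * (R / θ) ≤ ‖T‖ ^ 2 := by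
    have h5 : ‖P‖ ≤ ‖T‖ + ‖P - T‖ := by
      have := norm_add_le T (P - T)
      rwa [add_sub_cancel] at this
    have h6 : ‖P‖ ^ 2 ≤ (‖T‖ + ‖P - T‖) ^ 2 := pow_le_pow_left₀ (norm_nonneg _) h5 2
    have h7 : (1 - θ) * (‖T‖ + ‖P - T‖) ^ 2 ≤ ‖T‖ ^ 2 + ‖P - T‖ ^ 2 / θ := by
      have h8 : ‖T‖ ^ 2 + ‖P - T‖ ^ 2 / θ - (1 - θ) * (‖T‖ + ‖P - T‖) ^ 2 =
          (θ * ‖T‖ - (1 - θ) * ‖P - T‖) ^ 2 / θ + ‖P - T‖ ^ 2 * (1 / θ - (1 - θ) - (1 - θ) ^ 2 / θ) := by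
        field_simp
        ring
      have h9 : 1 / θ - (1 - θ) - (1 - θ) ^ 2 / θ = 1 := by
        field_simp
        ring
      rw [h9] at h8
      have h10 : 0 ≤ (θ * ‖T‖ - (1 - θ) * ‖P - T‖) ^ 2 / θ := by positivity
      nlinarith [sq_nonneg ‖P - T‖]
    have h8 : (1 - θ) * ‖P‖ ^ 2 ≤ (1 - θ) * (‖T‖ + ‖P - T‖) ^ 2 :=
      mul_le_mul_of_nonneg_left h6 (by linarith)
    have h9 : ‖P - T‖ ^ 2 / θ ≤ A * (R / θ) := by
      rw [mul_div_assoc']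
      gcongr
    linarith
  have h5 : 1 - 2 * |r j0| ≤ Real.exp (r j1) ^ 2 := by
    rw [← Real.exp_nat_mul]
    have h6 := Real.add_one_le_exp ((2:ℕ) * r j1)
    have h7 := hj1 j0
    have h8 := neg_abs_le (r j0)
    push_cast at h6 ⊢
    linarith
  have h6 : (1 - 2 * |r j0|) * ‖T‖ ^ 2 ≤ Real.exp (r j1) ^ 2 * ‖T‖ ^ 2 :=
    mul_le_mul_of_nonneg_right h5 hT0
  have h7 : |r j0| * ‖T‖ ^ 2 ≤ |r j0| * (Fintype.card ι * A) :=
    mul_le_mul_of_nonneg_left h2 (abs_nonneg _)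
  nlinarith

/-- the upper bound at one point -/
lemma pt_upper {ι : Type} [Fintype ι] [Nonempty ι] (a : ι → ℂ) {A : ℝ} (hA : A = ∑ j, ‖a j‖ ^ 2)
    (hA0 : 0 < A) (r : ι → ℝ) (u : ι → ℂ) (hu : ∀ j, ‖u j‖ = 1) {θ : ℝ} (hθ : 0 < θ) (hθ1 : θ ≤ 1)
    (hne : ∑ j, a j * (((Real.exp (r j) : ℝ) : ℂ) * u j) ≠ 0) :
    Real.log (‖∑ j, a j * (((Real.exp (r j) : ℝ) : ℂ) * u j)‖ ^ 2 / A) ≤
      2 * ∑ j, max 0 (r j) + (1 + θ) * (‖∑ j, a j * u j‖ ^ 2 / A) +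
        2 / θ * (∑ j, ∑ l, |r j - r l|) - 1 := by
  obtain ⟨j1, T, hj1, e1, h2, h3⟩ := dev a hA r u hu
  rw [e1] at hne ⊢
  rw [norm_mul, mul_pow, Complex.norm_real, Real.norm_of_nonneg (Real.exp_pos _).le]
  set P := ∑ j, a j * u j with hP
  set R := ∑ j, ∑ l, |r j - r l| with hR
  have hT : T ≠ 0 := by
    rintro rfl
    exact hne (mul_zero _)
  have hTn : 0 < ‖T‖ := norm_pos_iff.mpr hT
  have hE : (0:ℝ) < Real.exp (r j1) := Real.exp_pos _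
  have e2 : Real.log (Real.exp (r j1) ^ 2 * ‖T‖ ^ 2 / A) = 2 * r j1 + Real.log (‖T‖ ^ 2 / A) := by
    rw [mul_div_assoc, Real.log_mul (by positivity) (by positivity), Real.log_pow, Real.log_exp]
    push_cast
    ring
  rw [e2]
  have h4 : Real.log (‖T‖ ^ 2 / A) ≤ ‖T‖ ^ 2 / A - 1 := Real.log_le_sub_one_of_pos (by positivity)
  have h5 : r j1 ≤ ∑ j, max 0 (r j) := by
    refine (le_max_right 0 (r j1)).trans ?_
    exact Finset.single_le_sum (f := fun j => max 0 (r j)) (fun j _ => le_max_left _ _)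
      (Finset.mem_univ j1)
  have h6 : ‖T‖ ^ 2 ≤ (1 + θ) * ‖P‖ ^ 2 + 2 / θ * (A * R) := by
    have h7 : ‖T‖ ≤ ‖P‖ + ‖P - T‖ := by
      have := norm_sub_le P (P - T)
      rwa [sub_sub_cancel] at this
    have h8 : ‖T‖ ^ 2 ≤ (‖P‖ + ‖P - T‖) ^ 2 := pow_le_pow_left₀ (norm_nonneg _) h7 2
    have h9 : (‖P‖ + ‖P - T‖) ^ 2 ≤ (1 + θ) * ‖P‖ ^ 2 + 2 / θ * ‖P - T‖ ^ 2 := by
      have h10 : (1 + θ) * ‖P‖ ^ 2 + 2 / θ * ‖P - T‖ ^ 2 - (‖P‖ + ‖P - T‖) ^ 2 =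
          (θ * ‖P‖ - ‖P - T‖) ^ 2 / θ + ‖P - T‖ ^ 2 * (1 / θ - 1) := by
        field_simp
        ring
      have h11 : 0 ≤ (θ * ‖P‖ - ‖P - T‖) ^ 2 / θ := by positivity
      have h12 : 0 ≤ 1 / θ - 1 := by
        rw [sub_nonneg, le_div_iff₀ hθ]
        linarith
      have h13 := mul_nonneg (sq_nonneg ‖P - T‖) h12
      linarith
    have h10 : 2 / θ * ‖P - T‖ ^ 2 ≤ 2 / θ * (A * R) := mul_le_mul_of_nonneg_left h3 (by positivity)
    linarith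
  have h7 : ‖T‖ ^ 2 / A ≤ (1 + θ) * (‖P‖ ^ 2 / A) + 2 / θ * R := by
    rw [div_le_iff₀ hA0]
    refine h6.trans (le_of_eq ?_)
    field_simp
  linarith

end Pool.Agent.V1156.RK
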