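import Mathlib
import Pool.Agent.V1156.RK.Ms
import Pool.Agent.V1156.RK.Rel

/-!
# Mean squares and norms of linear combinations of units over a subfield: number fields
-/

set_option autoImplicit false

open Finset Polynomial Module IntermediateField

namespace Pool.Agent.V1156.RK

open Pool.Agent.H388SL Pool.Agent.H196R3.LI

variable {L : Type} [Field L] [NumberField L]

/-- **the two inequalities in a number field** -/
theorem fld_ms {ι : Type} [Fintype ι] [DecidableEq ι] [Nonempty ι] (γ : ι → L)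
    (hγ0 : ∀ i, γ i ≠ 0) (hγi : ∀ i, IsIntegral ℤ (γ i)) (hγi' : ∀ i, IsIntegral ℤ (γ i)⁻¹)
    (a : ι → L) (ha : ∃ i, a i ≠ 0) (H : Subgroup (L ≃ₐ[ℚ] L))
    (hH : ∀ ρ ∈ H, ∀ i, ρ (a i) = a i) {N : ℝ} (hN1 : 1 ≤ N)
    (hN : ∀ i j, i ≠ j → N ≤ (orb H (γ i / γ j)).card) (β : L) (hβ : β = ∑ i, a i * γ i)
    (j0 : ι) {θ : ℝ} (hθ : 0 < θ) (hθ1 : θ ≤ 1) {Λ ψ : ℝ}
    (hΛ : Λ = ∑ i, ∑ j ∈ Finset.univ.erase i, lam (γ i / γ j))
    (hψ : ψ = 2 * ((1 + 2 * Real.log (2 * N)) / N)) :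
    ((finrank ℚ L : ℝ) * (1 - 3 / 2 * θ) - (10 * Λ + finrank ℚ L * ((Fintype.card ι : ℝ) ^ 2 * ψ) / 2) / θ
        - 4 * Fintype.card ι * lam (γ j0) ≤
      ∑ σ : L →ₐ[ℚ] ℂ, ‖σ β‖ ^ 2 / ∑ i, ‖σ (a i)‖ ^ 2) ∧
    (β ≠ 0 → ∑ σ : L →ₐ[ℚ] ℂ, Real.log (‖σ β‖ ^ 2 / ∑ i, ‖σ (a i)‖ ^ 2) ≤
      2 * ∑ i, lam (γ i) + finrank ℚ L * (2 * θ) +
        (20 * Λ + finrank ℚ L * ((Fintype.card ι : ℝ) ^ 2 * ψ)) / θ) := by
  classical
  have : Fintype H := Fintype.ofFinite H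
  have : Nonempty H := ⟨1⟩
  set k := Fintype.card ι with hk
  have hcardE : Fintype.card (L →ₐ[ℚ] ℂ) = finrank ℚ L := AlgHom.card ℚ L ℂ
  set n : ℝ := (finrank ℚ L : ℝ) with hn
  have hn0 : 0 < n := by
    rw [hn]
    exact_mod_cast (finrank_pos : 0 < finrank ℚ L)
  set d : ℝ := (Fintype.card H : ℝ) with hd
  have hd0 : 0 < d := by
    rw [hd]
    exact_mod_cast Fintype.card_pos
  have hlN : 0 ≤ Real.log (2 * N) := Real.log_nonneg (by linarith)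
  have hψ0 : 0 ≤ ψ := by rw [hψ]; positivity
  have hΛ0 : 0 ≤ Λ := by
    rw [hΛ]
    exact Finset.sum_nonneg fun _ _ => Finset.sum_nonneg fun _ _ => lam_nonneg _
  have hunit1 : ∀ i, ∏ σ : L →ₐ[ℚ] ℂ, ‖σ (γ i)‖ = 1 := fun i =>
    prod_unit (hγi i) (hγi' i) (hγ0 i)
  have hγij : ∀ i j, IsIntegral ℤ (γ i / γ j) := fun i j => by
    rw [div_eq_mul_inv]; exact (hγi i).mul (hγi' j)
  have hunit : ∀ i j, ∏ σ : L →ₐ[ℚ] ℂ, ‖σ (γ i / γ j)‖ = 1 := by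
    intro i j
    refine prod_unit (hγij i j) ?_ (div_ne_zero (hγ0 i) (hγ0 j))
    rw [inv_div]
    exact hγij j i
  set A : (L →ₐ[ℚ] ℂ) → ℝ := fun σ => ∑ i, ‖σ (a i)‖ ^ 2 with hA
  have hA0 : ∀ σ, 0 < A σ := by
    intro σ
    obtain ⟨i, hi⟩ := ha
    refine lt_of_lt_of_le ?_ (Finset.single_le_sum (f := fun i => ‖σ (a i)‖ ^ 2)
      (fun _ _ => by positivity) (Finset.mem_univ i))
    have : 0 < ‖σ (a i)‖ := norm_pos_iff.mpr ((_root_.map_ne_zero σ).mpr hi)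
    positivity
  set u : (L →ₐ[ℚ] ℂ) → ι → H → ℂ := fun σ j ρ => uu ((ρ : L ≃ₐ[ℚ] L) (γ j)) σ with hu
  have hu1 : ∀ σ j ρ, ‖u σ j ρ‖ = 1 := fun σ j ρ =>
    norm_uu ((_root_.map_ne_zero _).mpr (hγ0 j)) σ
  set r : (L →ₐ[ℚ] ℂ) → ι → H → ℝ := fun σ j ρ => Real.log ‖σ ((ρ : L ≃ₐ[ℚ] L) (γ j))‖ with hr
  have hval : ∀ σ : L →ₐ[ℚ] ℂ, ∀ ρ : H, ∑ j, σ (a j) * (((Real.exp (r σ j ρ) : ℝ) : ℂ) * u σ j ρ) =
      σ ((ρ : L ≃ₐ[ℚ] L) β) := by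
    intro σ ρ
    rw [hβ, map_sum, map_sum]
    refine Finset.sum_congr rfl fun j _ => ?_
    have h1 : (ρ : L ≃ₐ[ℚ] L) (γ j) ≠ 0 := (_root_.map_ne_zero _).mpr (hγ0 j)
    rw [hr, hu]
    simp only
    rw [Real.exp_log (norm_pos_iff.mpr ((_root_.map_ne_zero σ).mpr h1)), ← sig_eq h1, map_mul,
      map_mul, hH ρ ρ.2 j]
  set X : (L →ₐ[ℚ] ℂ) → ℝ := fun σ => ∑ j, ∑ l ∈ Finset.univ.erase j,
    ‖∑ s, u σ j s * starRingEnd ℂ (u σ l s)‖ ^ 2 with hX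
  have hXsum : ∑ σ, X σ ≤ d ^ 2 * (16 * Λ + n * ((k : ℝ) ^ 2 * ψ)) := by
    have h0 : ∀ σ, X σ = ∑ i, ∑ j ∈ Finset.univ.erase i,
        ‖∑ ρ : H, uu ((ρ : L ≃ₐ[ℚ] L) (γ i / γ j)) σ‖ ^ 2 := by
      intro σ
      refine Finset.sum_congr rfl fun i _ => Finset.sum_congr rfl fun j _ => ?_
      congr 2
      refine Finset.sum_congr rfl fun ρ _ => ?_
      rw [map_div₀, uu_div ((_root_.map_ne_zero _).mpr (hγ0 i)) ((_root_.map_ne_zero _).mpr (hγ0 j))]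
    rw [Finset.sum_congr rfl (fun σ _ => h0 σ), Finset.sum_comm]
    have h1 : ∀ i, ∑ σ : L →ₐ[ℚ] ℂ, ∑ j ∈ Finset.univ.erase i,
        ‖∑ ρ : H, uu ((ρ : L ≃ₐ[ℚ] L) (γ i / γ j)) σ‖ ^ 2 ≤
        ∑ j ∈ Finset.univ.erase i, d ^ 2 * (16 * lam (γ i / γ j) + n * ψ) := by
      intro i
      rw [Finset.sum_comm]
      refine Finset.sum_le_sum fun j hj => ?_
      have hij : i ≠ j := (Finset.ne_of_mem_erase hj).symm
      rw [hψ]
      refine pair H (div_ne_zero (hγ0 i) (hγ0 j)) (hγij i j) ?_ hN1 (hN i j hij)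
      rw [inv_div]
      exact hγij j i
    refine (Finset.sum_le_sum fun i _ => h1 i).trans ?_
    have h2 : ∑ i, ∑ j ∈ Finset.univ.erase i, d ^ 2 * (16 * lam (γ i / γ j) + n * ψ) =
        d ^ 2 * (16 * Λ + ∑ i : ι, ∑ j ∈ Finset.univ.erase i, n * ψ) := by
      rw [hΛ]
      simp only [← Finset.mul_sum, Finset.sum_add_distrib]
    rw [h2]
    have h3 : ∑ i : ι, ∑ j ∈ Finset.univ.erase i, n * ψ ≤ n * ((k : ℝ) ^ 2 * ψ) := by
      calc ∑ i : ι, ∑ j ∈ Finset.univ.erase i, n * ψ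
          ≤ ∑ i : ι, ∑ j : ι, n * ψ := by
            refine Finset.sum_le_sum fun i _ => ?_
            exact Finset.sum_le_sum_of_subset_of_nonneg (Finset.erase_subset _ _)
              (fun _ _ _ => by positivity)
        _ = n * ((k : ℝ) ^ 2 * ψ) := by
            simp only [Finset.sum_const, Finset.card_univ, nsmul_eq_mul, ← hk]
            ring
    gcongr
  have hRsum : ∑ σ : L →ₐ[ℚ] ℂ, ∑ ρ : H, ∑ i, ∑ j, |r σ i ρ - r σ j ρ| = d * (2 * Λ) := by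
    rw [Finset.sum_comm]
    have h1 : ∀ ρ : H, ∑ σ : L →ₐ[ℚ] ℂ, ∑ i, ∑ j, |r σ i ρ - r σ j ρ| = 2 * Λ := by
      intro ρ
      have h2 : ∑ σ : L →ₐ[ℚ] ℂ, ∑ i, ∑ j, |r σ i ρ - r σ j ρ| = ∑ i, ∑ j, 2 * lam (γ i / γ j) := by
        rw [Finset.sum_comm]
        refine Finset.sum_congr rfl fun i _ => ?_
        rw [Finset.sum_comm]
        refine Finset.sum_congr rfl fun j _ => ?_
        have h2 := sum_emb_conj (ρ : L ≃ₐ[ℚ] L) (fun σ : L →ₐ[ℚ] ℂ => |Real.log ‖σ (γ i / γ j)‖|)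
        rw [sum_abs_log (div_ne_zero (hγ0 i) (hγ0 j)) (hunit i j)] at h2
        rw [← h2]
        refine Finset.sum_congr rfl fun σ _ => ?_
        rw [hr]
        simp only
        rw [← Real.log_div]
        · congr 2
          rw [← norm_div, ← map_div₀, ← map_div₀]
          rfl
        · exact norm_ne_zero_iff.mpr ((_root_.map_ne_zero σ).mpr ((_root_.map_ne_zero _).mpr (hγ0 i)))
        · exact norm_ne_zero_iff.mpr ((_root_.map_ne_zero σ).mpr ((_root_.map_ne_zero _).mpr (hγ0 j)))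
      rw [h2, hΛ]
      have h3 : ∀ i, ∑ j, 2 * lam (γ i / γ j) = 2 * ∑ j ∈ Finset.univ.erase i, lam (γ i / γ j) := by
        intro i
        rw [← Finset.mul_sum, ← Finset.add_sum_erase _ _ (Finset.mem_univ i), div_self (hγ0 i)]
        have : lam (1 : L) = 0 := by
          unfold lam
          simp
        rw [this, zero_add]
      rw [Finset.sum_congr rfl (fun i _ => h3 i), ← Finset.mul_sum]
    rw [Finset.sum_congr rfl (fun ρ _ => h1 ρ), Finset.sum_const, Finset.card_univ, nsmul_eq_mul]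
  have habs : ∑ σ : L →ₐ[ℚ] ℂ, ∑ ρ : H, |r σ j0 ρ| = d * (2 * lam (γ j0)) := by
    rw [Finset.sum_comm]
    have h1 : ∀ ρ : H, ∑ σ : L →ₐ[ℚ] ℂ, |r σ j0 ρ| = 2 * lam (γ j0) := by
      intro ρ
      have h2 := sum_emb_conj (ρ : L ≃ₐ[ℚ] L) (fun σ : L →ₐ[ℚ] ℂ => |Real.log ‖σ (γ j0)‖|)
      rw [sum_abs_log (hγ0 j0) (hunit1 j0)] at h2
      exact h2
    rw [Finset.sum_congr rfl (fun ρ _ => h1 ρ), Finset.sum_const, Finset.card_univ, nsmul_eq_mul]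
  have hmax : ∑ σ : L →ₐ[ℚ] ℂ, ∑ ρ : H, ∑ j, max 0 (r σ j ρ) = d * ∑ j, lam (γ j) := by
    rw [Finset.sum_comm]
    have h1 : ∀ ρ : H, ∑ σ : L →ₐ[ℚ] ℂ, ∑ j, max 0 (r σ j ρ) = ∑ j, lam (γ j) := by
      intro ρ
      rw [Finset.sum_comm]
      refine Finset.sum_congr rfl fun j _ => ?_
      rw [← lam_conj (ρ : L ≃ₐ[ℚ] L) (γ j)]
      unfold lam
      refine Finset.sum_congr rfl fun σ _ => ?_
      have h3 : 0 < ‖σ ((ρ : L ≃ₐ[ℚ] L) (γ j))‖ :=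
        norm_pos_iff.mpr ((_root_.map_ne_zero σ).mpr ((_root_.map_ne_zero _).mpr (hγ0 j)))
      rw [hr]
      simp only
      rcases le_total ‖σ ((ρ : L ≃ₐ[ℚ] L) (γ j))‖ 1 with h4 | h4
      · rw [max_eq_left h4, Real.log_one, max_eq_left (Real.log_nonpos h3.le h4)]
      · rw [max_eq_right h4, max_eq_right (Real.log_nonneg h4)]
    rw [Finset.sum_congr rfl (fun ρ _ => h1 ρ), Finset.sum_const, Finset.card_univ, nsmul_eq_mul]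
  have hAρ : ∀ ρ : H, ∀ σ : L →ₐ[ℚ] ℂ,
      A (σ.comp ((ρ : L ≃ₐ[ℚ] L) : L →ₐ[ℚ] L)) = A σ := by
    intro ρ σ
    refine Finset.sum_congr rfl fun i _ => ?_
    change ‖σ ((ρ : L ≃ₐ[ℚ] L) (a i))‖ ^ 2 = _
    rw [hH ρ ρ.2 i]
  have hgram : ∀ σ : L →ₐ[ℚ] ℂ, |∑ ρ : H, ‖∑ j, σ (a j) * u σ j ρ‖ ^ 2 - d * A σ| ≤
      A σ * (θ * d / 2 + X σ / (2 * θ * d)) := fun σ =>
    gram_form (fun j => σ (a j)) (u σ) (hu1 σ) rfl (hA0 σ) hθ rfl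
  have hS1 : ∑ _σ : L →ₐ[ℚ] ℂ, (1:ℝ) = n := by
    rw [Finset.sum_const, Finset.card_univ, hcardE, nsmul_eq_mul, mul_one]
  constructor
  · have hσ : ∀ σ : L →ₐ[ℚ] ℂ,
        (1 - θ) * (d * (1 - θ / 2) * 1 - X σ / (2 * θ * d)) -
          (∑ ρ : H, ∑ i, ∑ j, |r σ i ρ - r σ j ρ|) / θ - 2 * k * ∑ ρ : H, |r σ j0 ρ| ≤
        ∑ ρ : H, ‖σ ((ρ : L ≃ₐ[ℚ] L) β)‖ ^ 2 / A σ := by
      intro σ
      have h1 : ∑ ρ : H, ((1 - θ) * ‖∑ j, σ (a j) * u σ j ρ‖ ^ 2 -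
          A σ * ((∑ i, ∑ j, |r σ i ρ - r σ j ρ|) / θ) - A σ * (2 * k * |r σ j0 ρ|)) ≤
          ∑ ρ : H, ‖σ ((ρ : L ≃ₐ[ℚ] L) β)‖ ^ 2 := by
        refine Finset.sum_le_sum fun ρ _ => ?_
        have h2 := pt_lower (fun j => σ (a j)) (A := A σ) rfl (fun j => r σ j ρ)
          (fun j => u σ j ρ) (fun j => hu1 σ j ρ) j0 hθ hθ1
        rw [hval σ ρ] at h2
        exact h2
      rw [Finset.sum_sub_distrib, Finset.sum_sub_distrib, ← Finset.mul_sum, ← Finset.mul_sum,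
        ← Finset.mul_sum, ← Finset.sum_div, ← Finset.mul_sum] at h1
      have h3 := neg_abs_le (∑ ρ : H, ‖∑ j, σ (a j) * u σ j ρ‖ ^ 2 - d * A σ)
      have h4 := hgram σ
      rw [← Finset.sum_div, le_div_iff₀ (hA0 σ)]
      have h5 : A σ * (d * (1 - θ / 2) * 1 - X σ / (2 * θ * d)) ≤
          ∑ ρ : H, ‖∑ j, σ (a j) * u σ j ρ‖ ^ 2 := by nlinarith
      have h6 : (1 - θ) * (A σ * (d * (1 - θ / 2) * 1 - X σ / (2 * θ * d))) ≤
          (1 - θ) * ∑ ρ : H, ‖∑ j, σ (a j) * u σ j ρ‖ ^ 2 :=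
        mul_le_mul_of_nonneg_left h5 (by linarith)
      refine le_trans (le_of_eq ?_) ((sub_le_sub_right (sub_le_sub_right h6 _) _).trans h1)
      ring
    have hsum := Finset.sum_le_sum fun (σ : L →ₐ[ℚ] ℂ) (_ : σ ∈ Finset.univ) => hσ σ
    rw [Finset.sum_sub_distrib, Finset.sum_sub_distrib, ← Finset.mul_sum, Finset.sum_sub_distrib,
      ← Finset.mul_sum, hS1, ← Finset.sum_div, ← Finset.sum_div, hRsum, ← Finset.mul_sum, habs] at hsum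
    have e1 : ∑ σ : L →ₐ[ℚ] ℂ, ∑ ρ : H, ‖σ ((ρ : L ≃ₐ[ℚ] L) β)‖ ^ 2 / A σ =
        d * ∑ σ : L →ₐ[ℚ] ℂ, ‖σ β‖ ^ 2 / A σ := by
      rw [Finset.sum_comm]
      have h1 : ∀ ρ : H, ∑ σ : L →ₐ[ℚ] ℂ, ‖σ ((ρ : L ≃ₐ[ℚ] L) β)‖ ^ 2 / A σ =
          ∑ σ : L →ₐ[ℚ] ℂ, ‖σ β‖ ^ 2 / A σ := by
        intro ρ
        rw [← sum_emb_conj (ρ : L ≃ₐ[ℚ] L) (fun σ : L →ₐ[ℚ] ℂ => ‖σ β‖ ^ 2 / A σ)]
        refine Finset.sum_congr rfl fun σ _ => ?_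
        rw [hAρ ρ σ]
        rfl
      rw [Finset.sum_congr rfl (fun ρ _ => h1 ρ), Finset.sum_const, Finset.card_univ, nsmul_eq_mul]
    rw [e1] at hsum
    have h1 : d * (n * (1 - 3 / 2 * θ) - (10 * Λ + n * ((k : ℝ) ^ 2 * ψ) / 2) / θ
        - 4 * k * lam (γ j0)) ≤
        (1 - θ) * (d * (1 - θ / 2) * n - (∑ σ, X σ) / (2 * θ * d)) - d * (2 * Λ) / θ -
          2 * k * (d * (2 * lam (γ j0))) := by
      have h2 : (∑ σ, X σ) / (2 * θ * d) ≤ d * ((8 * Λ + n * ((k : ℝ) ^ 2 * ψ) / 2) / θ) := by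
        rw [div_le_iff₀ (by positivity)]
        refine hXsum.trans (le_of_eq ?_)
        field_simp
        ring
      have h3 : 0 ≤ (∑ σ, X σ) / (2 * θ * d) := by
        apply div_nonneg _ (by positivity)
        exact Finset.sum_nonneg fun _ _ => Finset.sum_nonneg fun _ _ =>
          Finset.sum_nonneg fun _ _ => by positivity
      have h4 : (1 - θ) * ((∑ σ, X σ) / (2 * θ * d)) ≤
          d * ((8 * Λ + n * ((k : ℝ) ^ 2 * ψ) / 2) / θ) := by nlinarith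
      have h5 : d * (n * (1 - 3 / 2 * θ)) ≤ (1 - θ) * (d * (1 - θ / 2) * n) := by
        have : (1 - θ) * (d * (1 - θ / 2) * n) - d * (n * (1 - 3 / 2 * θ)) =
            d * n * (θ ^ 2 / 2) := by ring
        have h6 : 0 ≤ d * n * (θ ^ 2 / 2) := by positivity
        linarith
      have h6 : d * ((10 * Λ + n * ((k : ℝ) ^ 2 * ψ) / 2) / θ) =
          d * ((8 * Λ + n * ((k : ℝ) ^ 2 * ψ) / 2) / θ) + d * (2 * Λ) / θ := by
        field_simp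
        ring
      rw [mul_sub, mul_sub, h6, mul_sub]
      linarith
    exact le_of_mul_le_mul_left (h1.trans hsum) hd0
  · intro hβ0
    have hσ : ∀ σ : L →ₐ[ℚ] ℂ,
        ∑ ρ : H, Real.log (‖σ ((ρ : L ≃ₐ[ℚ] L) β)‖ ^ 2 / A σ) ≤
        2 * ∑ ρ : H, ∑ j, max 0 (r σ j ρ) +
          (1 + θ) * (d * (1 + θ / 2) * 1 + X σ / (2 * θ * d)) +
          2 / θ * (∑ ρ : H, ∑ i, ∑ j, |r σ i ρ - r σ j ρ|) - d * 1 := by
      intro σ
      have h1 : ∑ ρ : H, Real.log (‖σ ((ρ : L ≃ₐ[ℚ] L) β)‖ ^ 2 / A σ) ≤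
          ∑ ρ : H, (2 * ∑ j, max 0 (r σ j ρ) + (1 + θ) * (‖∑ j, σ (a j) * u σ j ρ‖ ^ 2 / A σ) +
            2 / θ * (∑ i, ∑ j, |r σ i ρ - r σ j ρ|) - 1) := by
        refine Finset.sum_le_sum fun ρ _ => ?_
        have h0 : σ ((ρ : L ≃ₐ[ℚ] L) β) ≠ 0 :=
          (_root_.map_ne_zero σ).mpr ((_root_.map_ne_zero _).mpr hβ0)
        have h2 := pt_upper (fun j => σ (a j)) (A := A σ) rfl (hA0 σ) (fun j => r σ j ρ)
          (fun j => u σ j ρ) (fun j => hu1 σ j ρ) hθ hθ1 (by rw [hval σ ρ]; exact h0)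
        rw [hval σ ρ] at h2
        exact h2
      rw [Finset.sum_sub_distrib, Finset.sum_add_distrib, Finset.sum_add_distrib, ← Finset.mul_sum,
        ← Finset.mul_sum, ← Finset.mul_sum, ← Finset.sum_div, Finset.sum_const, Finset.card_univ,
        nsmul_eq_mul] at h1
      have h3 := le_abs_self (∑ ρ : H, ‖∑ j, σ (a j) * u σ j ρ‖ ^ 2 - d * A σ)
      have h4 := hgram σ
      have h5 : (∑ ρ : H, ‖∑ j, σ (a j) * u σ j ρ‖ ^ 2) / A σ ≤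
          d * (1 + θ / 2) * 1 + X σ / (2 * θ * d) := by
        rw [div_le_iff₀ (hA0 σ)]
        nlinarith
      have h6 : (1 + θ) * ((∑ ρ : H, ‖∑ j, σ (a j) * u σ j ρ‖ ^ 2) / A σ) ≤
          (1 + θ) * (d * (1 + θ / 2) * 1 + X σ / (2 * θ * d)) :=
        mul_le_mul_of_nonneg_left h5 (by linarith)
      linarith
    have hsum := Finset.sum_le_sum fun (σ : L →ₐ[ℚ] ℂ) (_ : σ ∈ Finset.univ) => hσ σ
    rw [Finset.sum_sub_distrib, Finset.sum_add_distrib, Finset.sum_add_distrib, ← Finset.mul_sum,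
      hmax, ← Finset.mul_sum, Finset.sum_add_distrib, ← Finset.mul_sum, hS1, ← Finset.sum_div,
      ← Finset.mul_sum, hRsum, ← Finset.mul_sum, hS1] at hsum
    have e1 : ∑ σ : L →ₐ[ℚ] ℂ, ∑ ρ : H, Real.log (‖σ ((ρ : L ≃ₐ[ℚ] L) β)‖ ^ 2 / A σ) =
        d * ∑ σ : L →ₐ[ℚ] ℂ, Real.log (‖σ β‖ ^ 2 / A σ) := by
      rw [Finset.sum_comm]
      have h1 : ∀ ρ : H, ∑ σ : L →ₐ[ℚ] ℂ, Real.log (‖σ ((ρ : L ≃ₐ[ℚ] L) β)‖ ^ 2 / A σ) =
          ∑ σ : L →ₐ[ℚ] ℂ, Real.log (‖σ β‖ ^ 2 / A σ) := by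
        intro ρ
        rw [← sum_emb_conj (ρ : L ≃ₐ[ℚ] L) (fun σ : L →ₐ[ℚ] ℂ => Real.log (‖σ β‖ ^ 2 / A σ))]
        refine Finset.sum_congr rfl fun σ _ => ?_
        rw [hAρ ρ σ]
        rfl
      rw [Finset.sum_congr rfl (fun ρ _ => h1 ρ), Finset.sum_const, Finset.card_univ, nsmul_eq_mul]
    rw [e1] at hsum
    have h1 : 2 * (d * ∑ j, lam (γ j)) + (1 + θ) * (d * (1 + θ / 2) * n + (∑ σ, X σ) / (2 * θ * d)) +
        2 / θ * (d * (2 * Λ)) - d * n ≤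
        d * (2 * ∑ i, lam (γ i) + n * (2 * θ) + (20 * Λ + n * ((k : ℝ) ^ 2 * ψ)) / θ) := by
      have h2 : (∑ σ, X σ) / (2 * θ * d) ≤ d * ((8 * Λ + n * ((k : ℝ) ^ 2 * ψ) / 2) / θ) := by
        rw [div_le_iff₀ (by positivity)]
        refine hXsum.trans (le_of_eq ?_)
        field_simp
        ring
      have h3 : 0 ≤ d * ((8 * Λ + n * ((k : ℝ) ^ 2 * ψ) / 2) / θ) := by positivity
      have h4 : (1 + θ) * ((∑ σ, X σ) / (2 * θ * d)) ≤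
          2 * (d * ((8 * Λ + n * ((k : ℝ) ^ 2 * ψ) / 2) / θ)) := by nlinarith
      have h5 : (1 + θ) * (d * (1 + θ / 2) * n) - d * n ≤ d * (n * (2 * θ)) := by
        have : d * (n * (2 * θ)) - ((1 + θ) * (d * (1 + θ / 2) * n) - d * n) =
            d * n * (θ / 2) * (1 - θ) := by ring
        have h6 : 0 ≤ d * n * (θ / 2) * (1 - θ) := by
          have : 0 ≤ 1 - θ := by linarith
          positivity
        linarith
      have h6 : d * ((20 * Λ + n * ((k : ℝ) ^ 2 * ψ)) / θ) =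
          2 * (d * ((8 * Λ + n * ((k : ℝ) ^ 2 * ψ) / 2) / θ)) + 2 / θ * (d * (2 * Λ)) := by
        field_simp
        ring
      have e7 : d * (2 * ∑ i, lam (γ i) + n * (2 * θ) + (20 * Λ + n * ((k : ℝ) ^ 2 * ψ)) / θ) =
          2 * (d * ∑ i, lam (γ i)) + d * (n * (2 * θ)) +
            d * ((20 * Λ + n * ((k : ℝ) ^ 2 * ψ)) / θ) := by ring
      have e8 : (1 + θ) * (d * (1 + θ / 2) * n + (∑ σ, X σ) / (2 * θ * d)) =
          (1 + θ) * (d * (1 + θ / 2) * n) + (1 + θ) * ((∑ σ, X σ) / (2 * θ * d)) := by ring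
      rw [e7, h6, e8]
      linarith
    exact le_of_mul_le_mul_left (hsum.trans h1) hd0

end Pool.Agent.V1156.RK
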