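import Mathlib
import Pool.Agent.V1156.RK.Ms2

/-!
# Mean squares and norms of linear combinations of monomials in the conjugates of a unit
-/

set_option autoImplicit false

open Finset Polynomial Module IntermediateField

namespace Pool.Agent.V1156.RK

open Pool.Agent.H388SL Pool.Agent.H196R3.LI

variable {L : Type} [Field L] [NumberField L]

theorem rel_ms [IsGalois ℚ L] (v : L →ₐ[ℚ] ℂ) (F : IntermediateField ℚ ℂ) {p : ℤ[X]}
    (hp : Irreducible p) (hm : p.Monic) (hc0 : |p.coeff 0| = 1)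
    (hroots : ∀ z : ℂ, aeval z p = 0 → ∃ y : L, v y = z) (S : Finset ℂ) (D : ℂ → ℕ)
    (hS : ∀ x ∈ S, ∃ l : List ℂ, l.length ≤ D x ∧ (∀ z ∈ l, aeval z p = 0 ∨ aeval z⁻¹ p = 0) ∧
      x = l.prod) {N : ℝ} (hN1 : 1 ≤ N)
    (hN : ∀ x ∈ S, ∀ y ∈ S, x ≠ y → N ≤ (minpoly F (x / y)).natDegree)
    (a : ℂ → L) (haF : ∀ x ∈ S, v (a x) ∈ F) (hane : ∃ x ∈ S, a x ≠ 0) (β : L)
    (hβ : v β = ∑ x ∈ S, v (a x) * x) {θ : ℝ} (hθ : 0 < θ) (hθ1 : θ ≤ 1) {t q : ℝ}
    (ht : t = S.card * (∑ x ∈ S, (D x : ℝ)) * (Real.log (MM p) / p.natDegree))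
    (hq : q = (S.card : ℝ) ^ 2 * (2 * ((1 + 2 * Real.log (2 * N)) / N))) :
    (1 - 3 / 2 * θ - (20 * t + q / 2) / θ - 4 * t ≤
      (∑ σ : L →ₐ[ℚ] ℂ, ‖σ β‖ ^ 2 / ∑ x ∈ S, ‖σ (a x)‖ ^ 2) / finrank ℚ L) ∧
    (β ≠ 0 → (∑ σ : L →ₐ[ℚ] ℂ, Real.log (‖σ β‖ ^ 2 / ∑ x ∈ S, ‖σ (a x)‖ ^ 2)) / finrank ℚ L ≤
      2 * t + 2 * θ + (40 * t + q) / θ) := by
  classical
  have hlM : 0 ≤ Real.log (MM p) := Real.log_nonneg (one_le_MM hp.ne_zero)
  have hn0 : (0:ℝ) < p.natDegree := by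
    have : p.natDegree ≠ 0 := by
      intro h
      have := hm.natDegree_eq_zero.mp h
      exact hp.not_isUnit (this ▸ isUnit_one)
    exact_mod_cast Nat.pos_of_ne_zero this
  set h' : ℝ := Real.log (MM p) / p.natDegree with hh'
  have hh0 : 0 ≤ h' := by positivity
  set n : ℝ := (finrank ℚ L : ℝ) with hn
  have hnL : 0 < n := by
    rw [hn]
    exact_mod_cast (finrank_pos : 0 < finrank ℚ L)
  have hSne : S.Nonempty := by
    obtain ⟨x, hx, -⟩ := hane
    exact ⟨x, hx⟩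
  have : Nonempty S := hSne.to_subtype
  have hk1 : (1:ℝ) ≤ S.card := by
    have : 1 ≤ S.card := Finset.card_pos.mpr hSne
    exact_mod_cast this
  have hch : ∀ x : S, ∃ y : L, v y = x ∧ y ≠ 0 ∧ IsIntegral ℤ y ∧
      IsIntegral ℤ y⁻¹ ∧ lam y ≤ D x * (n * h') := by
    rintro ⟨x, hx⟩
    obtain ⟨l, hl1, hl2, hl3⟩ := hS x hx
    obtain ⟨y, hy1, hy2, hy3, hy4, hy5⟩ := monomial_bound hp hm hc0 v hroots l hl2
    refine ⟨y, by rw [hy1, ← hl3], hy2, hy3, hy4, ?_⟩
    have h1 : (l.length : ℝ) ≤ D x := by exact_mod_cast hl1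
    have h2 : (p.natDegree : ℝ) * lam y ≤ p.natDegree * (D x * (n * h')) := by
      calc (p.natDegree : ℝ) * lam y ≤ l.length * (finrank ℚ L * Real.log (MM p)) := hy5
        _ ≤ D x * (finrank ℚ L * Real.log (MM p)) := by gcongr
        _ = p.natDegree * (D x * (n * h')) := by
            rw [hh', hn]
            field_simp
    exact le_of_mul_le_mul_left h2 hn0
  choose y hy1 hy2 hy3 hy4 hy5 using hch
  obtain ⟨j0, -, hj0⟩ := Finset.exists_min_image (Finset.univ : Finset S) (fun j => D j)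
    Finset.univ_nonempty
  have hΔ : ∑ i : S, (D i : ℝ) = ∑ x ∈ S, (D x : ℝ) :=
    Finset.sum_coe_sort S (fun x => (D x : ℝ))
  have hΔ0 : 0 ≤ ∑ x ∈ S, (D x : ℝ) := Finset.sum_nonneg fun _ _ => Nat.cast_nonneg _
  have hmain := fld_ms (ι := S) y hy2 hy3 hy4 (fun i => a i) (by
      obtain ⟨x, hx, hax⟩ := hane
      exact ⟨⟨x, hx⟩, hax⟩) ((F.comap v).fixingSubgroup) (by
      intro ρ hρ i
      rw [IntermediateField.mem_fixingSubgroup_iff] at hρ
      exact hρ _ (haF i i.2)) hN1 (by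
      intro i j hij
      have h1 : v (y i / y j) = (i : ℂ) / (j : ℂ) := by
        rw [map_div₀, hy1, hy1]
      have h2 := degree_le_orb F v (y i / y j)
      rw [h1] at h2
      have h3 := hN i i.2 j j.2 (fun h => hij (Subtype.ext h))
      refine h3.trans ?_
      exact_mod_cast h2) β (by
      apply v.toRingHom.injective
      change v β = v (∑ i : S, a (i : ℂ) * y i)
      rw [hβ, map_sum, ← Finset.sum_coe_sort S (fun x => v (a x) * x)]
      refine Finset.sum_congr rfl fun i _ => ?_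
      rw [map_mul, hy1]) j0 hθ hθ1 rfl rfl
  rw [Fintype.card_coe, ← hn] at hmain
  set Λ := ∑ i, ∑ j ∈ Finset.univ.erase i, lam (y i / y j) with hΛ
  have hA : ∀ σ : L →ₐ[ℚ] ℂ, ∑ i : S, ‖σ (a i)‖ ^ 2 = ∑ x ∈ S, ‖σ (a x)‖ ^ 2 := fun σ =>
    Finset.sum_coe_sort S (fun x => ‖σ (a x)‖ ^ 2)
  simp only [hA] at hmain
  have hT0 : 0 ≤ n * h' := by positivity
  have hpair : ∀ i j : S, lam (y i / y j) ≤ ((D i : ℝ) + D j) * (n * h') := by
    intro i j
    have h2 : lam (y i / y j) ≤ lam (y i) + lam (y j) := by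
      rw [div_eq_mul_inv]
      refine (lam_mul_le _ _).trans ?_
      rw [lam_inv (hy2 _) (prod_unit (hy3 _) (hy4 _) (hy2 _))]
    have h4 : lam (y i) ≤ D i * (n * h') := hy5 _
    have h5 : lam (y j) ≤ D j * (n * h') := hy5 _
    linarith
  have hΛt : Λ ≤ 2 * (n * t) := by
    calc Λ ≤ ∑ i : S, ∑ j ∈ Finset.univ.erase i, ((D i : ℝ) + D j) * (n * h') :=
          Finset.sum_le_sum fun i _ => Finset.sum_le_sum fun j _ => hpair i j
      _ ≤ ∑ i : S, ∑ j : S, ((D i : ℝ) + D j) * (n * h') := by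
          refine Finset.sum_le_sum fun i _ => ?_
          exact Finset.sum_le_sum_of_subset_of_nonneg (Finset.subset_univ _)
            (fun _ _ _ => by positivity)
      _ = 2 * (n * t) := by
          rw [ht]
          simp only [← Finset.sum_mul, Finset.sum_add_distrib, Finset.sum_const, Finset.card_univ,
            Fintype.card_coe, nsmul_eq_mul, ← Finset.mul_sum, hΔ]
          ring
  have hlamt : ∑ i, lam (y i) ≤ n * t := by
    calc ∑ i, lam (y i) ≤ ∑ i : S, (D i : ℝ) * (n * h') := Finset.sum_le_sum fun i _ => hy5 i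
      _ = 1 * ((∑ x ∈ S, (D x : ℝ)) * (n * h')) := by rw [← Finset.sum_mul, hΔ, one_mul]
      _ ≤ S.card * ((∑ x ∈ S, (D x : ℝ)) * (n * h')) := by
          apply mul_le_mul_of_nonneg_right hk1 (by positivity)
      _ = n * t := by rw [ht]; ring
  have hj0t : (S.card : ℝ) * lam (y j0) ≤ n * t := by
    have h1 : (S.card : ℝ) * D j0 ≤ ∑ x ∈ S, (D x : ℝ) := by
      rw [← hΔ]
      calc (S.card : ℝ) * D j0 = ∑ _i : S, (D j0 : ℝ) := by simp
        _ ≤ ∑ i : S, (D i : ℝ) := Finset.sum_le_sum fun i _ => by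
            exact_mod_cast hj0 i (Finset.mem_univ i)
    calc (S.card : ℝ) * lam (y j0) ≤ S.card * (D j0 * (n * h')) := by
          gcongr
          exact hy5 j0
      _ = 1 * ((S.card * D j0) * (n * h')) := by ring
      _ ≤ S.card * ((∑ x ∈ S, (D x : ℝ)) * (n * h')) := by gcongr
      _ = n * t := by rw [ht]; ring
  rw [← hq] at hmain
  obtain ⟨hm1, hm2⟩ := hmain
  constructor
  · rw [le_div_iff₀ hnL]
    refine le_trans ?_ hm1
    have h1 : (10 * Λ + n * q / 2) / θ ≤ n * ((20 * t + q / 2) / θ) := by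
      rw [mul_div_assoc', div_le_div_iff_of_pos_right hθ]
      linarith
    have h2 : (1 - 3 / 2 * θ - (20 * t + q / 2) / θ - 4 * t) * n =
        n * (1 - 3 / 2 * θ) - n * ((20 * t + q / 2) / θ) - 4 * (n * t) := by ring
    rw [h2]
    have h3 : 4 * (S.card : ℝ) * lam (y j0) = 4 * (S.card * lam (y j0)) := by ring
    rw [h3]
    linarith
  · intro hβ0
    rw [div_le_iff₀ hnL]
    refine (hm2 hβ0).trans ?_
    have h1 : (20 * Λ + n * q) / θ ≤ n * ((40 * t + q) / θ) := by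
      rw [mul_div_assoc', div_le_div_iff_of_pos_right hθ]
      linarith
    have h2 : (2 * t + 2 * θ + (40 * t + q) / θ) * n =
        2 * (n * t) + n * (2 * θ) + n * ((40 * t + q) / θ) := by ring
    rw [h2]
    linarith

end Pool.Agent.V1156.RK
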