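import Mathlib
import Pool.Agent.V1156.RK.Ms3
import Pool.Agent.V1156.RK.Few

/-!
# Mean squares and norms of linear combinations over `K(μ_∞)` of monomials in the conjugates of a unit
-/

set_option autoImplicit false

open Finset Polynomial Module IntermediateField

namespace Pool.Agent.V1156.RK

open Pool.Agent.H388SL Pool.Agent.H196R3.LI
open Pool.Agent.Y947.RL (QAb hgt)

lemma ms_eps1 {t q ε m : ℝ} (ht0 : 0 ≤ t) (hε : 0 < ε) (hε1 : ε ≤ 1)
    (h : ∀ θ : ℝ, 0 < θ → θ ≤ 1 → 1 - 3 / 2 * θ - (20 * t + q / 2) / θ - 4 * t ≤ m)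
    (hm : m ≤ 1 - ε) : ε ^ 2 ≤ 128 * t + 3 * q := by
  have h1 := h (ε / 3) (by positivity) (by linarith)
  have h2 : (20 * t + q / 2) / (ε / 3) = (60 * t + 3 / 2 * q) / ε := by
    field_simp
    ring
  rw [h2] at h1
  have h3 : ε / 2 - 4 * t ≤ (60 * t + 3 / 2 * q) / ε := by linarith
  rw [le_div_iff₀ hε] at h3
  nlinarith

lemma ms_eps2 {t q ε m : ℝ} (ht0 : 0 ≤ t) (hε : 0 < ε) (hε1 : ε ≤ 1)
    (h : ∀ θ : ℝ, 0 < θ → θ ≤ 1 → m ≤ 2 * t + 2 * θ + (40 * t + q) / θ)
    (hm : Real.log (1 + ε) ≤ m) : ε ^ 2 ≤ 1288 * t + 32 * q := by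
  have h1 := h (ε / 8) (by positivity) (by linarith)
  have h2 : (40 * t + q) / (ε / 8) = (320 * t + 8 * q) / ε := by
    field_simp
    ring
  rw [h2] at h1
  have h3 : ε / 2 ≤ Real.log (1 + ε) := by
    refine le_trans ?_ (Real.one_sub_inv_le_log_of_pos (by linarith))
    have h4 : 1 - (1 + ε)⁻¹ = ε / (1 + ε) := by
      field_simp
      ring
    rw [h4]
    apply div_le_div_of_nonneg_left hε.le (by linarith) (by linarith)
  have h5 : ε / 4 - 2 * t ≤ (320 * t + 8 * q) / ε := by linarith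
  rw [le_div_iff₀ hε] at h5
  nlinarith

lemma real_N2 {k : ℝ} (hk : 1 ≤ k) :
    128 * k ^ 2 * (1 + 2 * Real.log (2 * (4096 * (k ^ 2 * (1 + Real.log k))))) ≤
      4096 * (k ^ 2 * (1 + Real.log k)) := by
  have hk0 : 0 < k := by linarith
  have hl : 0 ≤ Real.log k := Real.log_nonneg hk
  have h1 : Real.log (2 * (4096 * (k ^ 2 * (1 + Real.log k)))) =
      Real.log 8192 + 2 * Real.log k + Real.log (1 + Real.log k) := by
    have : 2 * (4096 * (k ^ 2 * (1 + Real.log k))) = 8192 * k ^ 2 * (1 + Real.log k) := by ring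
    rw [this, Real.log_mul (by positivity) (by positivity), Real.log_mul (by norm_num) (by positivity),
      Real.log_pow]
    push_cast
    ring
  have h2 : Real.log 8192 ≤ 10 := by
    have : (8192:ℝ) = 2 ^ 13 := by norm_num
    rw [this, Real.log_pow]
    have := Real.log_two_lt_d9
    push_cast
    linarith
  have h3 : Real.log (1 + Real.log k) ≤ Real.log k := by
    have := Real.log_le_sub_one_of_pos (show 0 < 1 + Real.log k by linarith)
    linarith
  rw [h1]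
  have h4 : 1 + 2 * (Real.log 8192 + 2 * Real.log k + Real.log (1 + Real.log k)) ≤
      32 * (1 + Real.log k) := by linarith
  calc 128 * k ^ 2 * (1 + 2 * (Real.log 8192 + 2 * Real.log k + Real.log (1 + Real.log k)))
      ≤ 128 * k ^ 2 * (32 * (1 + Real.log k)) := by gcongr
    _ = _ := by ring

/-- **mean squares and norms over `K(μ_∞)`** -/
theorem few_ms : ∃ c : ℝ, 0 < c ∧ ∀ (K : IntermediateField ℚ ℂ) [FiniteDimensional ℚ K] (p : ℤ[X]),
    Irreducible p → p.Monic → |p.coeff 0| = 1 → ∀ (S : Finset ℂ) (Δ : ℕ),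
    (∀ x ∈ S, ∃ l : List ℂ, l.length ≤ Δ ∧ (∀ z ∈ l, aeval z p = 0 ∨ aeval z⁻¹ p = 0) ∧
      x = l.prod) →
    (∀ x ∈ S, ∀ y ∈ S, x ≠ y → ∀ m : ℕ, 0 < m → x ^ m ≠ y ^ m) →
    ∀ (L : Type) [Field L] [NumberField L] [IsGalois ℚ L] (v : L →ₐ[ℚ] ℂ),
    (∀ z : ℂ, aeval z p = 0 → ∃ y : L, v y = z) → ∀ (a : ℂ → L) (β : L),
    (∀ x ∈ S, v (a x) ∈ (K ⊔ QAb : IntermediateField ℚ ℂ)) → (∃ x ∈ S, a x ≠ 0) →
    v β = ∑ x ∈ S, v (a x) * x → ∀ ε : ℝ, 0 < ε → ε ≤ 1 →
    (∑ σ : L →ₐ[ℚ] ℂ, ‖σ β‖ ^ 2 / ∑ x ∈ S, ‖σ (a x)‖ ^ 2) / finrank ℚ L ≤ 1 - ε ∨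
      (β ≠ 0 ∧ Real.log (1 + ε) ≤
        (∑ σ : L →ₐ[ℚ] ℂ, Real.log (‖σ β‖ ^ 2 / ∑ x ∈ S, ‖σ (a x)‖ ^ 2)) / finrank ℚ L) →
    c / ((finrank ℚ K : ℝ) * ((S.card / ε) ^ 2 * (1 + Real.log (S.card / ε)))) ^ 7 ≤
      Δ * (Real.log (MM p) / p.natDegree) := by
  classical
  obtain ⟨c0, hc0, hdob⟩ := ab_dob
  refine ⟨min (1 / 2576) (c0 / (2 * 4096 ^ 7)), by positivity, ?_⟩
  intro K _ p hp hm hpc S Δ hS htor L _ _ _ v hroots a β haF hane hβ ε hε hε1 hor
  set F : IntermediateField ℚ ℂ := K ⊔ QAb with hF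
  have hK1 : (1:ℝ) ≤ finrank ℚ K := by exact_mod_cast (finrank_pos : 0 < finrank ℚ K)
  set nK : ℝ := (finrank ℚ K : ℝ) with hnK
  have hSk : (1:ℝ) ≤ S.card := by
    obtain ⟨x, hx, -⟩ := hane
    have : 1 ≤ S.card := Finset.card_pos.mpr ⟨x, hx⟩
    exact_mod_cast this
  set k : ℝ := (S.card : ℝ) / ε with hk
  have hSkε : (S.card : ℝ) = k * ε := by
    rw [hk]
    field_simp
  have hk1 : 1 ≤ k := by
    rw [hk, le_div_iff₀ hε]
    linarith
  have hk0 : 0 < k := by linarith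
  have hl : 0 ≤ Real.log k := Real.log_nonneg hk1
  have hn0 : (0:ℝ) < p.natDegree := by
    have : p.natDegree ≠ 0 := by
      intro h
      have := hm.natDegree_eq_zero.mp h
      exact hp.not_isUnit (this ▸ isUnit_one)
    exact_mod_cast Nat.pos_of_ne_zero this
  have hlM : 0 ≤ Real.log (MM p) := Real.log_nonneg (one_le_MM hp.ne_zero)
  set N : ℝ := 4096 * (k ^ 2 * (1 + Real.log k)) with hN
  have hN1 : 1 ≤ N := by
    rw [hN]
    nlinarith [one_le_pow₀ hk1 (n := 2), mul_nonneg (sq_nonneg k) hl]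
  have hN0 : 0 < N := by linarith
  have hbase : 1 ≤ nK * (k ^ 2 * (1 + Real.log k)) := by
    have h1 : 1 ≤ k ^ 2 * (1 + Real.log k) := by
      nlinarith [one_le_pow₀ hk1 (n := 2), mul_nonneg (sq_nonneg k) hl]
    nlinarith
  have hk2 : k ^ 2 ≤ nK * (k ^ 2 * (1 + Real.log k)) := by
    have h1 : k ^ 2 ≤ k ^ 2 * (1 + Real.log k) := by nlinarith [mul_nonneg (sq_nonneg k) hl]
    nlinarith [sq_nonneg k]
  set A : ℝ := nK * (k ^ 2 * (1 + Real.log k)) with hA
  have hA7 : A ≤ A ^ 7 := le_self_pow₀ hbase (by norm_num)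
  clear_value A N k
  by_cases hall : ∀ x ∈ S, ∀ y ∈ S, x ≠ y → N ≤ (minpoly F (x / y)).natDegree
  · set h' : ℝ := Real.log (MM p) / p.natDegree with hh'
    have hh0 : 0 ≤ h' := by positivity
    set t : ℝ := S.card * (∑ x ∈ S, (((fun _ => Δ : ℂ → ℕ) x : ℕ) : ℝ)) * h' with ht
    set q : ℝ := (S.card : ℝ) ^ 2 * (2 * ((1 + 2 * Real.log (2 * N)) / N)) with hq
    have ht2 : t = (k * ε) ^ 2 * (Δ * h') := by
      rw [ht]
      have h2 : ∑ x ∈ S, (((fun _ => Δ : ℂ → ℕ) x : ℕ) : ℝ) = S.card * Δ := by simp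
      rw [h2, hSkε]
      ring
    have ht0 : 0 ≤ t := by
      rw [ht2]
      positivity
    have hq1 : q ≤ ε ^ 2 / 64 := by
      have h5 := real_N2 hk1
      rw [← hN] at h5
      have h6 : q = (128 * k ^ 2 * (1 + 2 * Real.log (2 * N))) * ε ^ 2 / (64 * N) := by
        rw [hq, hSkε]
        field_simp
        ring
      rw [h6, div_le_div_iff₀ (by positivity) (by norm_num)]
      have h7 := mul_le_mul_of_nonneg_right h5 (sq_nonneg ε)
      linarith
    have key : ∀ θ : ℝ, 0 < θ → θ ≤ 1 → _ := fun θ hθ hθ1 =>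
      rel_ms v F hp hm hpc hroots S (fun _ => Δ) hS hN1 hall a haF hane β hβ hθ hθ1 ht hq
    have h1 : ε ^ 2 / 2 ≤ 1288 * t := by
      rcases hor with h | ⟨hβ0, h⟩
      · have h2 := ms_eps1 ht0 hε hε1 (fun θ hθ hθ1 => (key θ hθ hθ1).1) h
        have := sq_nonneg ε
        linarith
      · have h2 := ms_eps2 ht0 hε hε1 (fun θ hθ hθ1 => (key θ hθ hθ1).2 hβ0) h
        linarith
    have h6 : 1 / (2576 * k ^ 2) ≤ Δ * h' := by
      rw [div_le_iff₀ (by positivity)]
      rw [ht2] at h1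
      have h2 : ε ^ 2 * 1 ≤ ε ^ 2 * (Δ * h' * (2576 * k ^ 2)) := by linarith
      exact le_of_mul_le_mul_left h2 (by positivity)
    refine le_trans ?_ h6
    calc min (1 / 2576) (c0 / (2 * 4096 ^ 7)) / A ^ 7 ≤ (1 / 2576) / k ^ 2 := by
          gcongr
          · exact min_le_left _ _
          · exact hk2.trans hA7
      _ = 1 / (2576 * k ^ 2) := by field_simp
  · push Not at hall
    obtain ⟨x, hx, y, hy, hxy, hlt⟩ := hall
    obtain ⟨lx, hlx1, hlx2, hlx3⟩ := hS x hx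
    obtain ⟨ly, hly1, hly2, hly3⟩ := hS y hy
    set l : List ℂ := lx ++ ly.map (·⁻¹) with hldef
    have hlprod : l.prod = x / y := by
      rw [hldef, List.prod_append, ← hlx3, hly3, div_eq_mul_inv, List.prod_inv]
    have hlen : (l.length : ℝ) ≤ 2 * Δ := by
      rw [hldef, List.length_append, List.length_map]
      have : lx.length + ly.length ≤ 2 * Δ := by omega
      exact_mod_cast this
    obtain ⟨hi, hne, hh⟩ := hgt_monomial hp hm hpc l (by
      intro z hz
      rw [hldef, List.mem_append] at hz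
      rcases hz with h | h
      · exact hlx2 z h
      · obtain ⟨w, hw, rfl⟩ := List.mem_map.mp h
        rcases hly2 w hw with h2 | h2
        · right
          rw [inv_inv]
          exact h2
        · left
          exact h2)
    rw [hlprod] at hi hne hh
    have hy0 : y ≠ 0 := by
      intro h
      rw [h, div_zero] at hne
      exact hne rfl
    have h1 := hdob (x / y) hi hne (by
      intro n hn h
      rw [div_pow, div_eq_one_iff_eq (pow_ne_zero n hy0)] at h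
      exact htor x hx y hy hxy n hn h) K
    have hdpos : (0:ℝ) < (minpoly F (x / y)).natDegree := by
      exact_mod_cast minpoly.natDegree_pos (hi.tower_top : IsIntegral F (x / y))
    have h2 : c0 / (4096 * A) ^ 7 ≤ hgt (x / y) := by
      refine le_trans ?_ h1
      have h9 : nK * ((minpoly F (x / y)).natDegree : ℝ) ≤ 4096 * A := by
        calc nK * ((minpoly F (x / y)).natDegree : ℝ) ≤ nK * N :=
              mul_le_mul_of_nonneg_left hlt.le (by linarith)
          _ = 4096 * A := by rw [hN, hA]; ring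
      have h10 : 0 < nK * ((minpoly F (x / y)).natDegree : ℝ) := by positivity
      exact div_le_div_of_nonneg_left hc0.le (by positivity) (pow_le_pow_left₀ h10.le h9 7)
    have h3 : (p.natDegree : ℝ) * hgt (x / y) ≤ 2 * Δ * Real.log (MM p) :=
      hh.trans (mul_le_mul_of_nonneg_right hlen hlM)
    have h4 : hgt (x / y) / 2 ≤ Δ * (Real.log (MM p) / p.natDegree) := by
      rw [mul_div_assoc', div_le_div_iff₀ (by norm_num) hn0]
      linarith
    refine le_trans ?_ h4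
    have h5 : c0 / (4096 * A) ^ 7 / 2 ≤ hgt (x / y) / 2 := by linarith
    refine le_trans ?_ h5
    calc min (1 / 2576) (c0 / (2 * 4096 ^ 7)) / A ^ 7 ≤ (c0 / (2 * 4096 ^ 7)) / A ^ 7 := by
          gcongr
          exact min_le_right _ _
      _ = c0 / (4096 * A) ^ 7 / 2 := by
          have hA0 : A ≠ 0 := by linarith
          rw [mul_pow]
          field_simp

end Pool.Agent.V1156.RK
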